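import Pool.Agent.Helper93.HZ.Base

/-! # HZ: library on orbit counting -/

set_option autoImplicit false

open MulAction Pointwise

namespace Pool.Agent.Helper93.HZ

section orbits

variable {G : Type} [Group G] {α β : Type} [MulAction G α] [MulAction G β]

theorem orbit_eq_iff' {x y : α} : orbit G x = orbit G y ↔ ∃ g : G, g • x = y := by
  rw [eq_comm, orbit_eq_iff]
  exact Iff.rfl

theorem FinOrb.mono {S S' : Set α} (hf : FinOrb G S') (h : S ⊆ S') : FinOrb G S :=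
  Set.Finite.subset hf (Set.image_mono h)

theorem oc_mono {S S' : Set α} (hf : FinOrb G S') (h : S ⊆ S') : oc G S ≤ oc G S' :=
  Set.ncard_le_ncard (Set.image_mono h) hf

theorem FinOrb.union {S S' : Set α} (h : FinOrb G S) (h' : FinOrb G S') :
    FinOrb G (S ∪ S') := by
  unfold FinOrb
  rw [Set.image_union]
  exact Set.Finite.union h h'

/-- the most general comparison: a relation inducing an injection on orbits -/
theorem oc_le_rel {S : Set α} {S' : Set β} (R : α → β → Prop) (hf : FinOrb G S')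
    (h1 : ∀ x ∈ S, ∃ y ∈ S', R x y)
    (h2 : ∀ x ∈ S, ∀ x' ∈ S, ∀ y ∈ S', ∀ y' ∈ S', R x y → R x' y' → ∀ g : G, g • y = y' →
      ∃ k : G, k • x = x') :
    FinOrb G S ∧ oc G S ≤ oc G S' := by
  classical
  set A : Set (Set α) := (fun x : α => orbit G x) '' S with hA
  set B : Set (Set β) := (fun x : β => orbit G x) '' S' with hB
  have h3 : ∀ o : A, ∃ o' : B, ∃ x ∈ S, ∃ y ∈ S', orbit G x = o.1 ∧ orbit G y = o'.1 ∧ R x y := by
    rintro ⟨_, x, hx, rfl⟩
    obtain ⟨y, hy, hr⟩ := h1 x hx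
    exact ⟨⟨orbit G y, y, hy, rfl⟩, x, hx, y, hy, rfl, rfl, hr⟩
  choose f hf' using h3
  have hinj : Function.Injective f := by
    intro o₁ o₂ h
    obtain ⟨x, hx, y, hy, e1, e2, e3⟩ := hf' o₁
    obtain ⟨x', hx', y', hy', e1', e2', e3'⟩ := hf' o₂
    rw [h] at e2
    obtain ⟨g, hg⟩ := orbit_eq_iff'.1 (e2.trans e2'.symm)
    obtain ⟨k, hk⟩ := h2 x hx x' hx' y hy y' hy' e3 e3' g hg
    apply Subtype.ext
    rw [← e1, ← e1']
    exact orbit_eq_iff'.2 ⟨k, hk⟩
  have : Finite B := hf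
  have hfin : Finite A := Finite.of_injective f hinj
  refine ⟨hfin, ?_⟩
  show A.ncard ≤ B.ncard
  rw [← Nat.card_coe_set_eq, ← Nat.card_coe_set_eq]
  exact Nat.card_le_card_of_injective f hinj

/-- surjection on orbits -/
theorem oc_le_surj {S : Set α} {S' : Set β} (R : α → β → Prop) (hf : FinOrb G S)
    (h1 : ∀ y ∈ S', ∃ x ∈ S, R x y)
    (h2 : ∀ x ∈ S, ∀ x' ∈ S, ∀ y ∈ S', ∀ y' ∈ S', R x y → R x' y' → ∀ g : G, g • x = x' →
      ∃ k : G, k • y = y') :
    FinOrb G S' ∧ oc G S' ≤ oc G S :=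
  oc_le_rel (fun y x => R x y) hf h1
    (fun y hy y' hy' x hx x' hx' hr hr' g hg => h2 x hx x' hx' y hy y' hy' hr hr' g hg)

/-- an equivariant map -/
theorem FinOrb.map {S : Set α} {S' : Set β} (f : α → β) (hf : FinOrb G S)
    (he : ∀ (g : G), ∀ x ∈ S, g • x ∈ S → f (g • x) = g • f x)
    (hs : ∀ y ∈ S', ∃ x ∈ S, ∃ g : G, y = g • f x) : FinOrb G S' ∧ oc G S' ≤ oc G S := by
  refine oc_le_surj (fun x y => ∃ g : G, y = g • f x) hf hs ?_
  rintro x hx x' hx' y hy y' hy' ⟨g₁, rfl⟩ ⟨g₂, rfl⟩ g rfl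
  refine ⟨g₂ * g * g₁⁻¹, ?_⟩
  rw [he g x hx hx', mul_smul, mul_smul, inv_smul_smul]

theorem FinOrb.image {S : Set α} (f : α → β) (hf : FinOrb G S)
    (he : ∀ (g : G) (x : α), f (g • x) = g • f x) : FinOrb G (f '' S) ∧
    oc G (f '' S) ≤ oc G S := by
  refine FinOrb.map f hf (fun g x _ _ => he g x) ?_
  rintro _ ⟨x, hx, rfl⟩
  exact ⟨x, hx, 1, (one_smul _ _).symm⟩

/-- an equivariant injective map preserves the number of orbits -/
theorem oc_image_inj (f : α → β) (hi : Function.Injective f)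
    (he : ∀ (g : G) (x : α), f (g • x) = g • f x) (S : Set α) :
    oc G (f '' S) = oc G S := by
  unfold oc
  rw [Set.image_image]
  have h : ∀ x : α, orbit G (f x) = f '' orbit G x := by
    intro x
    ext y
    constructor
    · rintro ⟨g, rfl⟩
      exact ⟨g • x, ⟨g, rfl⟩, he g x⟩
    · rintro ⟨_, ⟨g, rfl⟩, rfl⟩
      exact ⟨g, (he g x).symm⟩
  simp only [h]
  have h2 : (fun x : α => f '' orbit G x) '' S = (fun s : Set α => f '' s) ''
      ((fun x : α => orbit G x) '' S) := by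
    rw [Set.image_image]
  rw [h2]
  exact Set.ncard_image_of_injective _ (Set.image_injective.2 hi)

theorem finOrb_image_inj (f : α → β) (hi : Function.Injective f)
    (he : ∀ (g : G) (x : α), f (g • x) = g • f x) (S : Set α) :
    FinOrb G (f '' S) ↔ FinOrb G S := by
  constructor
  · intro h
    refine (oc_le_rel (fun x y => y = f x) h (fun x hx => ⟨f x, ⟨x, hx, rfl⟩, rfl⟩) ?_).1
    rintro x _ x' _ y _ y' _ rfl rfl g hg
    rw [← he] at hg
    exact ⟨g, hi hg⟩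
  · intro h
    exact (FinOrb.image f h he).1

/-- disjoint unions -/
theorem oc_union {S S' : Set α} (h : FinOrb G S) (h' : FinOrb G S')
    (hd : ∀ x ∈ S, ∀ y ∈ S', ∀ g : G, g • x ≠ y) : oc G (S ∪ S') = oc G S + oc G S' := by
  unfold oc
  rw [Set.image_union]
  refine Set.ncard_union_eq ?_ h h'
  rw [Set.disjoint_left]
  rintro _ ⟨x, hx, rfl⟩ ⟨y, hy, hxy⟩
  obtain ⟨g, hg⟩ := orbit_eq_iff'.1 hxy.symm
  exact hd x hx y hy g hg

theorem oc_pos {S : Set α} (h : FinOrb G S) (hne : S.Nonempty) : 0 < oc G S := by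
  unfold oc
  rw [Set.ncard_pos h]
  exact hne.image _

theorem oc_empty : oc G (∅ : Set α) = 0 := by
  unfold oc; simp

theorem finOrb_of_reps {S : Set α} (F : Set α) (hF : F.Finite)
    (h : ∀ x ∈ S, ∃ y ∈ F, ∃ g : G, g • y = x) : FinOrb G S := by
  refine (hF.image (fun x : α => orbit G x)).subset ?_
  rintro _ ⟨x, hx, rfl⟩
  obtain ⟨y, hy, g, hg⟩ := h x hx
  exact ⟨y, hy, orbit_eq_iff'.2 ⟨g, hg⟩⟩

/-- a system of representatives -/
theorem FinOrb.reps {S : Set α} (h : FinOrb G S) : ∃ F : Finset α, (∀ x ∈ F, x ∈ S) ∧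
    F.card = oc G S ∧ (∀ x ∈ S, ∃ y ∈ F, ∃ g : G, g • y = x) ∧
    ∀ y ∈ F, ∀ y' ∈ F, ∀ g : G, g • y = y' → y = y' := by
  classical
  set A : Set (Set α) := (fun x : α => orbit G x) '' S with hA
  have hA' : ∀ o : A, ∃ x ∈ S, orbit G x = o.1 := by
    rintro ⟨_, x, hx, rfl⟩
    exact ⟨x, hx, rfl⟩
  choose r hrS hr using hA'
  have hrinj : Function.Injective r := by
    intro o o' e
    apply Subtype.ext
    rw [← hr o, ← hr o', e]
  have : Finite A := h
  letI : Fintype A := Fintype.ofFinite A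
  refine ⟨Finset.univ.image r, ?_, ?_, ?_, ?_⟩
  · intro x hx
    obtain ⟨o, -, rfl⟩ := Finset.mem_image.1 hx
    exact hrS o
  · rw [Finset.card_image_of_injective _ hrinj, Finset.card_univ, ← Nat.card_eq_fintype_card]
    exact Nat.card_coe_set_eq A
  · intro x hx
    refine ⟨r ⟨orbit G x, x, hx, rfl⟩, Finset.mem_image_of_mem _ (Finset.mem_univ _), ?_⟩
    exact orbit_eq_iff'.1 (hr ⟨orbit G x, x, hx, rfl⟩)
  · intro y hy y' hy' g hg
    obtain ⟨o, -, rfl⟩ := Finset.mem_image.1 hy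
    obtain ⟨o', -, rfl⟩ := Finset.mem_image.1 hy'
    have : orbit G (r o) = orbit G (r o') := orbit_eq_iff'.2 ⟨g, hg⟩
    rw [hr, hr] at this
    rw [Subtype.ext this]

/-- orbits of `S` are counted by the fibres of an equivariant map to a free `G`-set `S'` -/
theorem oc_fiber {S : Set α} {S' : Set β} (f : α → β) (F : Finset β)
    (hF1 : ∀ x ∈ F, x ∈ S') (hF2 : ∀ x ∈ S', ∃ y ∈ F, ∃ g : G, g • y = x)
    (hF3 : ∀ y ∈ F, ∀ y' ∈ F, ∀ g : G, g • y = y' → y = y')
    (hfree : ∀ y ∈ S', ∀ g : G, g • y = y → g = 1)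
    (hS : ∀ x ∈ S, f x ∈ S') (hSi : ∀ (g : G), ∀ x ∈ S, g • x ∈ S)
    (he : ∀ (g : G), ∀ x ∈ S, f (g • x) = g • f x)
    (hfin : ∀ y ∈ F, {x | x ∈ S ∧ f x = y}.Finite) :
    FinOrb G S ∧ oc G S = ∑ y ∈ F, {x | x ∈ S ∧ f x = y}.ncard := by
  classical
  set A : Set α := ⋃ y ∈ F, {x | x ∈ S ∧ f x = y} with hA
  have hAfin : A.Finite := F.finite_toSet.biUnion (fun y hy => hfin y hy)
  have himg : (fun x : α => orbit G x) '' S = (fun x : α => orbit G x) '' A := by
    apply Set.Subset.antisymm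
    · rintro _ ⟨x, hx, rfl⟩
      obtain ⟨y, hy, g, hg⟩ := hF2 _ (hS x hx)
      have h1 : g⁻¹ • x ∈ S := hSi _ _ hx
      refine ⟨g⁻¹ • x, ?_, ?_⟩
      · rw [hA, Set.mem_iUnion₂]
        refine ⟨y, hy, h1, ?_⟩
        rw [he _ _ hx, ← hg, inv_smul_smul]
      · show orbit G (g⁻¹ • x) = orbit G x
        exact orbit_eq_iff'.2 ⟨g, smul_inv_smul _ _⟩
    · apply Set.image_mono
      rw [hA]
      exact Set.iUnion₂_subset (fun y hy x hx => hx.1)
  have hinj : Set.InjOn (fun x : α => orbit G x) A := by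
    intro x hx x' hx' h
    rw [hA, Set.mem_iUnion₂] at hx hx'
    obtain ⟨y, hy, hxS, hxy⟩ := hx
    obtain ⟨y', hy', hxS', hxy'⟩ := hx'
    obtain ⟨g, hg⟩ := orbit_eq_iff'.1 h
    have h1 : g • y = y' := by rw [← hxy, ← hxy', ← hg, he _ _ hxS]
    have h2 := hF3 y hy y' hy' g h1
    subst h2
    have h3 := hfree y (hF1 y hy) g h1
    rw [← hg, h3, one_smul]
  refine ⟨?_, ?_⟩
  · show ((fun x : α => orbit G x) '' S).Finite
    rw [himg]
    exact hAfin.image _
  · show ((fun x : α => orbit G x) '' S).ncard = _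
    rw [himg, hinj.ncard_image, hA]
    clear himg hinj hAfin hA hF2 hF1
    have hfin' := hfin
    clear hfin
    induction F using Finset.induction_on with
    | empty => simp
    | insert a F ha ih =>
      have hd : Disjoint {x | x ∈ S ∧ f x = a} (⋃ y ∈ F, {x | x ∈ S ∧ f x = y}) := by
        rw [Set.disjoint_left]
        intro x hx hx'
        rw [Set.mem_iUnion₂] at hx'
        obtain ⟨y, hy, h1, h2⟩ := hx'
        have h3 := hx.2
        have h4 : a = y := h3.symm.trans h2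
        exact ha (h4 ▸ hy)
      rw [Finset.set_biUnion_insert, Finset.sum_insert ha,
        Set.ncard_union_eq hd (hfin' a (Finset.mem_insert_self _ _))
          (F.finite_toSet.biUnion (fun y hy => hfin' y (Finset.mem_insert_of_mem hy))), ih]
      · intro y hy y' hy' g hg
        exact hF3 y (Finset.mem_insert_of_mem hy) y' (Finset.mem_insert_of_mem hy') g hg
      · intro y hy
        exact hfin' y (Finset.mem_insert_of_mem hy)

end orbits

/-! ## Complexes -/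

section cx

variable {G : Type} [Group G]

theorem Cx.tri_adj' (K : Cx G) {x y z : K.V} (h : K.tri x y z) :
    K.adj x y ∧ K.adj y z ∧ K.adj z x ∧ K.adj y x ∧ K.adj z y ∧ K.adj x z := by
  have h1 := K.tri_adj _ _ _ h
  have h2 := K.tri_adj _ _ _ (K.tri_rot _ _ _ h)
  have h3 := K.tri_adj _ _ _ (K.tri_rot _ _ _ (K.tri_rot _ _ _ h))
  exact ⟨h1, h2, h3, K.symm _ _ h1, K.symm _ _ h2, K.symm _ _ h3⟩

theorem Cx.tri_ne (K : Cx G) {x y z : K.V} (h : K.tri x y z) : x ≠ y ∧ y ≠ z ∧ x ≠ z := by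
  obtain ⟨h1, h2, h3, h4, h5, h6⟩ := K.tri_adj' h
  exact ⟨fun e => K.irrefl y (e ▸ h1), fun e => K.irrefl z (e ▸ h2),
    fun e => K.irrefl z (e ▸ h6)⟩

/-- all permutations of a triangle -/
theorem Cx.tri_perm (K : Cx G) {x y z : K.V} (h : K.tri x y z) :
    K.tri y z x ∧ K.tri z x y ∧ K.tri y x z ∧ K.tri x z y ∧ K.tri z y x := by
  have h1 := K.tri_rot _ _ _ h
  have h2 := K.tri_rot _ _ _ h1
  have h3 := K.tri_swap _ _ _ h
  have h4 := K.tri_rot _ _ _ h3
  have h5 := K.tri_rot _ _ _ h4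
  exact ⟨h1, h2, h3, h4, h5⟩

/-- if `{x,y,z} = {x',y',z'}` and one is a triangle so is the other -/
theorem Cx.tri_of_set_eq (K : Cx G) {x y z x' y' z' : K.V} (h : K.tri x y z)
    (he : ({x, y, z} : Set K.V) = {x', y', z'}) (hne : x' ≠ y' ∧ y' ≠ z' ∧ x' ≠ z') :
    K.tri x' y' z' := by
  obtain ⟨h1, h2, h3, h4, h5⟩ := K.tri_perm h
  have hx : x' ∈ ({x, y, z} : Set K.V) := by rw [he]; simp
  have hy : y' ∈ ({x, y, z} : Set K.V) := by rw [he]; simp
  have hz : z' ∈ ({x, y, z} : Set K.V) := by rw [he]; simp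
  simp only [Set.mem_insert_iff, Set.mem_singleton_iff] at hx hy hz
  obtain ⟨n1, n2, n3⟩ := hne
  rcases hx with rfl | rfl | rfl <;> rcases hy with rfl | rfl | rfl <;>
    rcases hz with rfl | rfl | rfl <;> first | assumption | exact absurd rfl n1 | exact absurd rfl n2 | exact absurd rfl n3

/-- number of orbits of vertices in triangles -/
theorem Cx.finOrb_tv (K : Cx G) : FinOrb G {x : K.V | ∃ y z, K.tri x y z} ∧
    oc G {x : K.V | ∃ y z, K.tri x y z} ≤ 3 * rr K := by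
  classical
  obtain ⟨F, hF1, hF2, hF3, -⟩ := FinOrb.reps K.finT
  have hch : ∀ s : Set K.V, ∃ t : Finset K.V, t.card ≤ 3 ∧ (s ∈ F → (t : Set K.V) = s) := by
    intro s
    by_cases hs : s ∈ F
    · obtain ⟨x, y, z, -, rfl⟩ := hF1 s hs
      exact ⟨{x, y, z}, Finset.card_le_three, fun _ => by simp⟩
    · exact ⟨∅, by simp, fun h => absurd h hs⟩
  choose t ht1 ht2 using hch
  set A : Finset K.V := F.biUnion t with hA
  have hcard : A.card ≤ 3 * rr K := by
    calc A.card ≤ ∑ s ∈ F, (t s).card := Finset.card_biUnion_le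
      _ ≤ ∑ s ∈ F, 3 := Finset.sum_le_sum (fun s _ => ht1 s)
      _ = 3 * rr K := by rw [Finset.sum_const, hF2, smul_eq_mul, mul_comm]; rfl
  have hrep : ∀ x ∈ {x : K.V | ∃ y z, K.tri x y z}, ∃ y ∈ A, ∃ g : G, g • y = x := by
    rintro x ⟨y, z, h⟩
    obtain ⟨s, hs, g, hg⟩ := hF3 _ ⟨x, y, z, h, rfl⟩
    have h1 : x ∈ g • s := by rw [hg]; simp
    obtain ⟨x', hx', hx2⟩ := h1
    refine ⟨x', ?_, g, hx2⟩
    rw [hA, Finset.mem_biUnion]
    refine ⟨s, hs, ?_⟩
    rw [← Finset.mem_coe, ht2 s hs]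
    exact hx'
  have hsub : (fun x : K.V => orbit G x) '' {x : K.V | ∃ y z, K.tri x y z} ⊆
      ((fun x : K.V => orbit G x) '' (A : Set K.V)) := by
    rintro _ ⟨x, hx, rfl⟩
    obtain ⟨y, hy, g, hg⟩ := hrep x hx
    exact ⟨y, hy, orbit_eq_iff'.2 ⟨g, hg⟩⟩
  have hfin : ((fun x : K.V => orbit G x) '' (A : Set K.V)).Finite := A.finite_toSet.image _
  refine ⟨hfin.subset hsub, ?_⟩
  calc oc G {x : K.V | ∃ y z, K.tri x y z} ≤ ((fun x : K.V => orbit G x) '' (A : Set K.V)).ncard :=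
        Set.ncard_le_ncard hsub hfin
    _ ≤ (A : Set K.V).ncard := Set.ncard_image_le A.finite_toSet
    _ = A.card := Set.ncard_coe_finset A
    _ ≤ 3 * rr K := hcard

/-- finitely many orbits of vertices -/
theorem Cx.finOrb_v (K : Cx G) : FinOrb G (Set.univ : Set K.V) := by
  refine (FinOrb.map (fun p : K.V × K.V => p.1) K.finE (fun g x _ _ => rfl) ?_).1
  intro x _
  obtain ⟨y, hy⟩ := K.nbr x
  exact ⟨(x, y), hy, 1, (one_smul _ _).symm⟩

end cx

end Pool.Agent.Helper93.HZ
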