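import Pool.Agent.Helper93.HZ.Blow
import Pool.Agent.Helper93.HZ.Lib

/-! # HZ: MM (8.3) -/

set_option autoImplicit false

open MulAction Pointwise

namespace Pool.Agent.Helper93.HZ

open Ctx

section axis

variable {U : Type} {T : SimpleGraph U} {N M : U → U}

theorem mm_ax (hN : IsField T N) (hM : IsField T M) (hM' : ∀ u, M u ≠ u) {u : U}
    (h : N u ≠ M u) : N (M u) = u ∧ N (M u) ≠ M (M u) := by
  have h1 : T.Adj u (M u) := (hM.1 u).resolve_left (hM' u)
  have h2 : N (M u) = u := by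
    by_contra hcon
    exact h ((hN.2 u (M u) h1).2 hcon)
  have h3 : M (M u) ≠ u := (hM.2 u (M u) h1).1 rfl
  exact ⟨h2, by rw [h2]; exact h3.symm⟩

theorem mm_iter (hN : IsField T N) (hM : IsField T M) (hM' : ∀ u, M u ≠ u) (k : ℕ) :
    ∀ u, N u ≠ M u → N^[k] (M^[k] u) = u ∧ N (M^[k] u) ≠ M (M^[k] u) := by
  induction k with
  | zero => exact fun u h => ⟨rfl, h⟩
  | succ k ih =>
    intro u h
    obtain ⟨h1, h2⟩ := ih u h
    obtain ⟨h3, h4⟩ := mm_ax hN hM hM' h2
    rw [Function.iterate_succ_apply' M]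
    refine ⟨?_, h4⟩
    rw [Function.iterate_succ_apply, h3]
    exact h1

end axis

variable {G : Type} [Group G]

/-- nontrivial elements of the stabilizer of a hyperbolic vertex are hyperbolic -/
theorem mm_hyp (hTFD : ST_TFD) {D : Setup G} {K : Cx G} (P : Pts D K) {v : K.V}
    (hv : ¬ EllV D K v) {g : G} (hg : g • v = v) (hell : Ell D g) : g = 1 := by
  obtain ⟨-, -, ⟨z, k, hz, hz1, hk, hz2⟩, -⟩ := P.hyp v hv
  have hg' : g ∈ stabilizer G v := hg
  rw [hz] at hg'
  obtain ⟨m, rfl⟩ := Subgroup.mem_zpowers_iff.1 hg'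
  by_contra hne
  have hm : m ≠ 0 := by
    rintro rfl
    exact hne (zpow_zero _)
  obtain ⟨u, hu⟩ := hell
  have h1 : Ell D (z ^ m.natAbs) := by
    refine ⟨u, ?_⟩
    rcases Int.natAbs_eq m with h | h
    · rw [h, zpow_natCast] at hu
      exact hu
    · rw [h, zpow_neg, zpow_natCast, inv_smul_eq_iff] at hu
      exact hu.symm
  obtain ⟨w, hw⟩ := (hTFD G D z).1 _ (Int.natAbs_pos.2 hm) h1
  apply hv
  refine ⟨w, fun g hg => ?_⟩
  have hg' : g ∈ stabilizer G v := hg
  rw [hz] at hg'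
  obtain ⟨j, rfl⟩ := Subgroup.mem_zpowers_iff.1 hg'
  have : z ∈ stabilizer G w := hw
  exact (stabilizer G w).zpow_mem this j

theorem mm_lonely (hTFD : ST_TFD) (hEXT : ST_EXT) (hSTAR : ST_STAR) (hLINE : ST_LINE)
    (hLR : ST_LR) (hA : ST_S5A) (hB0 : ST_S5B0) (hB1 : ST_S5B1) (hB2 : ST_S5B2) (hB3 : ST_S5B3)
    (hC : ST_S5C) (hLON : ST_LON) (X : Ctx G) (hopt : Opt X.K) (v : X.V)
    (hv : ¬ EllV X.D X.K v) (hl : ∀ y, X.K.adj v y → Fr X.K v y) : False := by
  obtain ⟨-, hex⟩ := hEXT G X hopt (fun x u w C h => hSTAR G X x u w C h)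
    (fun v u w h => hLINE G X v u w h)
  have hclv : cl X.D X.K v = {v} := by
    ext v'
    constructor
    · intro h
      have h' : Relation.ReflTransGen (TF X.D X.K) v v' := h
      rcases Relation.ReflTransGen.cases_head h' with h1 | ⟨y, h1, -⟩
      · exact h1.symm
      · exact absurd (hl y h1.1) h1.2.2.2
    · rintro rfl
      exact Relation.ReflTransGen.refl
  have hcl : ∀ u w, Ax X.P v u w → X.IsCl v u w := by
    intro u w h
    refine ⟨hv, Or.inl h, ?_⟩
    intro g hg hu _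
    rw [hclv] at hg
    have hgv : g • v = v := by
      have : g • v ∈ g • ({v} : Set X.V) := ⟨v, rfl, rfl⟩
      rw [hg] at this
      exact this
    exact mm_hyp hTFD X.P hv hgv ⟨u, hu⟩
  have hex2 : ∀ u w, Ax X.P v u w → (X.exQ v u w).ncard = 2 := fun u w h => hex _ _ _ (hcl u w h)
  obtain ⟨L⟩ := hLR G X v hv hl (fun u w h => (hex2 u w h).le)
  refine hLON G X v hv hl (fun u w h => (hex2 u w h).ge) (fun y hy => ?_)
  refine L.beta y hy (fun p q hpq hp hq => ?_)
  by_cases hor : ∀ g : G, L.ρ q ≠ g • v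
  · exact hA G X.D X.K v L X.red X.nmax p q hp hpq hor
  · push Not at hor
    obtain ⟨g, hg⟩ := hor
    have h1 : L.ρ (g⁻¹ • q) = v := by rw [L.ρ_smul, hg, inv_smul_smul]
    obtain ⟨i, hi⟩ := L.fib p (g⁻¹ • q) hp h1
    have hq' : q = (g * L.z ^ i) • p := by
      rw [mul_smul, ← hi, smul_inv_smul]
    set k : G := g * L.z ^ i with hk
    have hkv : k • v ≠ v := by
      intro h
      have h2 : L.ρ q = v := by rw [hq', L.ρ_smul, hp, h]
      have h3 := hy
      rw [← hq, h2] at h3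
      exact X.K.irrefl v h3
    rw [hq'] at hpq ⊢
    by_cases hkk : k * k = 1
    · exact hC G X.D X.K v L X.red X.nmax p k hp hpq hkv hkk
    · rcases hB0 G X.D X.K v L X.red X.nmax p k hp hpq hkv hkk with h | ⟨w, hw⟩
      · exact h
      · exfalso
        by_cases h4 : k ^ 4 = 1
        · exact hB3 G X.D X.K v L X.red X.nmax p w k hw h4
        · by_cases h5 : ∀ r, L.R.tri p ((k * k) • p) r → r = k • p
          · exact hB1 G X.D X.K v L X.red X.nmax p w k hw h4 h5
          · push Not at h5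
            exact hB2 G X.D X.K v L X.red X.nmax p w k hw h4 h5 hv

theorem st_MM (hTFD : ST_TFD) (hPTS : ST_PTS) (hNDM : ST_NDM) (hTHR : ST_THR)
    (hEXT : ST_EXT) (hSTAR : ST_STAR) (hLINE : ST_LINE)
    (hLR : ST_LR) (hA : ST_S5A) (hB0 : ST_S5B0) (hB1 : ST_S5B1) (hB2 : ST_S5B2) (hB3 : ST_S5B3)
    (hC : ST_S5C) (hLON : ST_LON) : ST_M := by
  intro G _ D K hopt hred v hv g hg ψ
  obtain ⟨P⟩ := (hPTS G D K).1
  have hnd : ND D K P := hNDM G D K P hred hopt.1.1
  obtain ⟨Q, hgood⟩ := hTHR G D K P hred hopt.1.1 hnd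
  let X : Ctx G := ⟨D, K, P, Q, hred, hopt.1, hnd, hgood⟩
  have hnl : ¬ ∀ y, K.adj v y → Fr K v y := fun hl =>
    mm_lonely hTFD hEXT hSTAR hLINE hLR hA hB0 hB1 hB2 hB3 hC hLON X hopt v hv hl
  push Not at hnl
  obtain ⟨y, hy, hfr⟩ := hnl
  -- a common nontrivial element
  obtain ⟨c, hcv, hcy, hc1⟩ : ∃ c : G, c • v = v ∧ c • y = y ∧ c ≠ 1 := by
    unfold Fr at hfr
    push Not at hfr
    exact hfr
  have hyh : ¬ EllV D K y := by
    rintro ⟨u, hu⟩
    exact hc1 (mm_hyp hTFD P hv hcv ⟨u, hu c hcy⟩)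
  have hend : ∀ P' : Pts D K, P'.N v ≠ P'.N y := by
    intro P' h
    obtain ⟨u, hu⟩ := hNDM G D K P' hred hopt.1.1 v y hy h
    exact (P'.hyp v hv).1 u hu
  have horb : ∃ g0 : G, g0 • v = y := by
    by_contra hcon
    push Not at hcon
    obtain ⟨P', hP'⟩ := (hPTS G D K).2 v y hv hyh hfr hcon
    exact hend P' hP'
  obtain ⟨g0, hg0⟩ := horb
  obtain ⟨hNv, hMv, ⟨z, k, hz, hz1, hk, hz2⟩, u, hu⟩ := P.hyp v hv
  obtain ⟨hNy, hMy, -, u', hu'⟩ := P.hyp y hyh
  have hzv : z • v = v := by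
    have : z ∈ stabilizer G v := by rw [hz]; exact Subgroup.mem_zpowers z
    exact this
  have hzell : ¬ Ell D z := by
    intro h
    have := mm_hyp hTFD P hv hzv h
    exact hz1 (this ▸ IsOfFinOrder.one)
  obtain ⟨n, hn⟩ : ∃ n : ℤ, z ^ n = c := by
    have : c ∈ stabilizer G v := hcv
    rw [hz] at this
    exact Subgroup.mem_zpowers_iff.1 this
  obtain ⟨m, hm⟩ : ∃ m : ℤ, g0 * z ^ m * g0⁻¹ = c := by
    have : g0⁻¹ * c * g0 ∈ stabilizer G v := by
      show (g0⁻¹ * c * g0) • v = v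
      rw [mul_smul, mul_smul, hg0, hcy, ← hg0, inv_smul_smul]
    rw [hz] at this
    obtain ⟨m, hm⟩ := Subgroup.mem_zpowers_iff.1 this
    exact ⟨m, by rw [hm]; group⟩
  have hn0 : n ≠ 0 := by
    rintro rfl
    exact hc1 (by rw [← hn, zpow_zero])
  -- the fields of y are those of v, interchanged
  obtain ⟨-, hT⟩ := hTFD G D z
  obtain ⟨N', M', k', hN', hM', hN'1, hM'1, hN'2, hM'2, hk', hN'3, hN'4, huniq⟩ := hT hzell
  have hinv : ∀ F, IsField D.T F → (∀ u, F (c • u) = c • F u) → F = N' ∨ F = M' := by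
    intro F hF hFc
    have hFn : ∀ u, F (z ^ n.natAbs • u) = z ^ n.natAbs • F u := by
      intro u
      rcases Int.natAbs_eq n with h | h
      · have : c = z ^ n.natAbs := by rw [← hn]; conv_lhs => rw [h]
                                      rw [zpow_natCast]
        rw [← this]; exact hFc u
      · have : c = (z ^ n.natAbs)⁻¹ := by rw [← hn]; conv_lhs => rw [h]
                                          rw [zpow_neg, zpow_natCast]
        have h3 := hFc (z ^ n.natAbs • u)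
        rw [this, inv_smul_smul] at h3
        rw [h3, smul_inv_smul]
    exact huniq _ (Int.natAbs_pos.2 hn0) F hF hFn
  have hsv : ∀ u, P.N v (c • u) = c • P.N v u := by
    intro u
    have := P.eN c v u
    rwa [hcv] at this
  have hsv' : ∀ u, P.M v (c • u) = c • P.M v u := by
    intro u
    have := P.eM c v u
    rwa [hcv] at this
  have hsy : ∀ u, P.N y (c • u) = c • P.N y u := by
    intro u
    have := P.eN c y u
    rwa [hcy] at this
  have hsy' : ∀ u, P.M y (c • u) = c • P.M y u := by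
    intro u
    have := P.eM c y u
    rwa [hcy] at this
  have hvy := hend P
  have hNM : P.N v ≠ P.M v := fun h => hu (congrFun h u)
  have hNMy : P.N y ≠ P.M y := fun h => hu' (congrFun h u')
  have hsw : P.N y = P.M v ∧ P.M y = P.N v := by
    rcases hinv _ (P.fN v) hsv with h1 | h1 <;> rcases hinv _ (P.fM v) hsv' with h2 | h2 <;>
    rcases hinv _ (P.fN y) hsy with h3 | h3 <;> rcases hinv _ (P.fM y) hsy' with h4 | h4 <;>
    first
    | exact absurd (h1.trans h2.symm) hNM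
    | exact absurd (h3.trans h4.symm) hNMy
    | exact absurd (h1.trans h3.symm) hvy
    | exact ⟨h3.trans h2.symm, h4.trans h1.symm⟩
  -- z1 = g0 z g0⁻¹ acts on the axis as z⁻¹
  set z1 : G := g0 * z * g0⁻¹ with hz1def
  have hAinv : ∀ u, P.N v u ≠ P.M v u → P.N v (z⁻¹ • u) ≠ P.M v (z⁻¹ • u) := by
    intro u hu h
    have hzi : z⁻¹ • v = v := by rw [inv_smul_eq_iff]; exact hzv.symm
    have h1 := P.eN z⁻¹ v u
    have h2 := P.eM z⁻¹ v u
    rw [hzi] at h1 h2
    rw [h1, h2] at h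
    exact hu (smul_left_cancel _ h)
  have hAinv' : ∀ u, P.N v u ≠ P.M v u → P.N v (z • u) ≠ P.M v (z • u) := by
    intro u hu h
    have h1 := P.eN z v u
    have h2 := P.eM z v u
    rw [hzv] at h1 h2
    rw [h1, h2] at h
    exact hu (smul_left_cancel _ h)
  have hact : ∀ u, P.N v u ≠ P.M v u → z1 • u = z⁻¹ • u := by
    intro u hu
    have h1 : P.N v (g0⁻¹ • u) ≠ P.M v (g0⁻¹ • u) := by
      intro h
      have h2 := P.eN g0 v (g0⁻¹ • u)
      have h3 := P.eM g0 v (g0⁻¹ • u)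
      rw [smul_inv_smul, hg0, hsw.1] at h2
      rw [smul_inv_smul, hg0, hsw.2] at h3
      rw [h] at h2
      exact hu (h3.trans h2.symm)
    have h2 := hz2 _ h1
    have h3 := P.N_iter g0 v (g0⁻¹ • u) k
    rw [smul_inv_smul, hg0, hsw.1, ← h2] at h3
    have h4 : z1 • u = (P.M v)^[k] u := by
      rw [h3, hz1def, mul_smul, mul_smul]
    obtain ⟨h5, h6⟩ := mm_iter (P.fN v) (P.fM v) hMv k u hu
    have h7 := hz2 _ h6
    rw [h5] at h7
    rw [h4, eq_inv_smul_iff]
    exact h7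
  have hpow : ∀ j : ℤ, ∀ u, P.N v u ≠ P.M v u → z1 ^ j • u = z ^ (-j) • u := by
    intro j
    induction j using Int.induction_on with
    | zero => intro u _; simp
    | succ j ih =>
      intro u hu
      rw [zpow_add_one, mul_smul, hact u hu, ih _ (hAinv u hu), ← mul_smul]
      congr 1
      rw [neg_add, zpow_add, zpow_neg_one]
    | pred j ih =>
      intro u hu
      have h1 : z1⁻¹ • u = z • u := by
        rw [inv_smul_eq_iff, hact _ (hAinv' u hu), inv_smul_smul]
      rw [zpow_sub_one, mul_smul, h1, ih _ (hAinv' u hu), ← mul_smul]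
      congr 1
      rw [neg_sub, sub_neg_eq_add, neg_neg, add_comm, zpow_add, zpow_one]
  have hmn : n = -m := by
    have h1 : z1 ^ m = c := by
      rw [← hm, hz1def]
      exact conj_zpow
    have h2 := hpow m u hu
    rw [h1, ← hn] at h2
    have h3 : Ell D (z ^ (n + m)) := by
      refine ⟨z ^ (-m) • u, ?_⟩
      rw [← mul_smul, ← zpow_add, add_neg_cancel_right, h2]
    have h4 : (z ^ (n + m)) • v = v := by
      have : z ^ (n + m) ∈ stabilizer G v := by
        rw [hz]; exact ⟨n + m, rfl⟩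
      exact this
    have h5 := mm_hyp hTFD P hv h4 h3
    by_contra hne
    apply hz1
    rw [isOfFinOrder_iff_zpow_eq_one]
    exact ⟨n + m, by omega, h5⟩
  have hψ : ψ z = 1 := by
    have h1 : ψ (z ^ n) = ψ (z ^ m) := by
      rw [hn, ← hm, map_mul, map_mul, mul_comm (ψ g0), mul_assoc, ← map_mul, mul_inv_cancel,
        map_one, mul_one]
    rw [hmn, map_zpow, map_zpow] at h1
    have h2 : Multiplicative.toAdd (ψ z ^ (-m)) = Multiplicative.toAdd (ψ z ^ m) := by rw [h1]
    rw [toAdd_zpow, toAdd_zpow] at h2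
    have hm0 : (m : ℚ) ≠ 0 := by
      intro h
      apply hn0
      rw [hmn, Int.cast_eq_zero.1 h, neg_zero]
    have h3 : Multiplicative.toAdd (ψ z) = 0 := by
      simp only [neg_smul, zsmul_eq_mul] at h2
      have h4 : (m : ℚ) * Multiplicative.toAdd (ψ z) = 0 := by linarith
      exact (mul_eq_zero.1 h4).resolve_left hm0
    exact Multiplicative.toAdd.injective h3
  have hg' : g ∈ stabilizer G v := hg
  rw [hz] at hg'
  obtain ⟨j, rfl⟩ := Subgroup.mem_zpowers_iff.1 hg'
  rw [map_zpow, hψ, one_zpow]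

end Pool.Agent.Helper93.HZ
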