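import Pool.Agent.Helper93.HZ.Spec3
import Pool.Agent.Helper93.HZ.MM

/-! # HZ: CLU (6.3) -/

set_option autoImplicit false

open MulAction Pointwise

namespace Pool.Agent.Helper93.HZ

open Ctx

variable {G : Type} [Group G]

/-- two hyperbolic vertices sharing a nontrivial element have the same pair of ends -/
theorem clu_pair (hTFD : ST_TFD) {D : Setup G} {K : Cx G} (P : Pts D K) {v y : K.V}
    (hv : ¬ EllV D K v) (hy : ¬ EllV D K y) {c : G} (hcv : c • v = v) (hcy : c • y = y)
    (hc1 : c ≠ 1) :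
    (P.N y = P.N v ∧ P.M y = P.M v) ∨ (P.N y = P.M v ∧ P.M y = P.N v) := by
  obtain ⟨hNv, hMv, ⟨z, k, hz, hz1, hk, hz2⟩, u, hu⟩ := P.hyp v hv
  obtain ⟨hNy, hMy, -, u', hu'⟩ := P.hyp y hy
  have hzv : z • v = v := by
    have : z ∈ stabilizer G v := by rw [hz]; exact Subgroup.mem_zpowers z
    exact this
  have hzell : ¬ Ell D z := by
    intro h
    have := mm_hyp hTFD P hv hzv h
    exact hz1 (this ▸ IsOfFinOrder.one)
  obtain ⟨n, hn⟩ : ∃ n : ℤ, z ^ n = c := by
    have : c ∈ stabilizer G v := hcv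
    rw [hz] at this
    exact Subgroup.mem_zpowers_iff.1 this
  have hn0 : n ≠ 0 := by
    rintro rfl
    exact hc1 (by rw [← hn, zpow_zero])
  obtain ⟨-, hT⟩ := hTFD G D z
  obtain ⟨N', M', k', hN', hM', hN'1, hM'1, hN'2, hM'2, hk', hN'3, hN'4, huniq⟩ := hT hzell
  have hinv : ∀ F, IsField D.T F → (∀ u, F (c • u) = c • F u) → F = N' ∨ F = M' := by
    intro F hF hFc
    have hFn : ∀ u, F (z ^ n.natAbs • u) = z ^ n.natAbs • F u := by
      intro u
      rcases Int.natAbs_eq n with h | h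
      · have : c = z ^ n.natAbs := by rw [← hn]; conv_lhs => rw [h]
                                      rw [zpow_natCast]
        rw [← this]; exact hFc u
      · have : c = (z ^ n.natAbs)⁻¹ := by rw [← hn]; conv_lhs => rw [h]
                                          rw [zpow_neg, zpow_natCast]
        have h3 := hFc (z ^ n.natAbs • u)
        rw [this, inv_smul_smul] at h3
        rw [h3, smul_inv_smul]
    exact huniq _ (Int.natAbs_pos.2 hn0) F hF hFn
  have hsv : ∀ u, P.N v (c • u) = c • P.N v u := by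
    intro u
    have := P.eN c v u
    rwa [hcv] at this
  have hsv' : ∀ u, P.M v (c • u) = c • P.M v u := by
    intro u
    have := P.eM c v u
    rwa [hcv] at this
  have hsy : ∀ u, P.N y (c • u) = c • P.N y u := by
    intro u
    have := P.eN c y u
    rwa [hcy] at this
  have hsy' : ∀ u, P.M y (c • u) = c • P.M y u := by
    intro u
    have := P.eM c y u
    rwa [hcy] at this
  have hNM : P.N v ≠ P.M v := fun h => hu (congrFun h u)
  have hNMy : P.N y ≠ P.M y := fun h => hu' (congrFun h u')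
  rcases hinv _ (P.fN v) hsv with h1 | h1 <;> rcases hinv _ (P.fM v) hsv' with h2 | h2 <;>
    rcases hinv _ (P.fN y) hsy with h3 | h3 <;> rcases hinv _ (P.fM y) hsy' with h4 | h4 <;>
    first
    | exact absurd (h1.trans h2.symm) hNM
    | exact absurd (h3.trans h4.symm) hNMy
    | exact Or.inl ⟨h3.trans h1.symm, h4.trans h2.symm⟩
    | exact Or.inr ⟨h3.trans h2.symm, h4.trans h1.symm⟩

theorem clu_tf (hTFD : ST_TFD) {D : Setup G} {K : Cx G} (P : Pts D K) (hnd : ND D K P)
    {v y : K.V} (h : TF D K v y) : P.N y = P.M v ∧ P.M y = P.N v := by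
  obtain ⟨hadj, hv, hy, hfr⟩ := h
  unfold Fr at hfr
  push Not at hfr
  obtain ⟨c, hcv, hcy, hc1⟩ := hfr
  rcases clu_pair hTFD P hv hy hcv hcy hc1 with h | h
  · exfalso
    obtain ⟨u, hu⟩ := hnd v y hadj h.1.symm
    exact (P.hyp v hv).1 u hu
  · exact h

theorem clu_TF_symm {D : Setup G} {K : Cx G} {v y : K.V} (h : TF D K v y) : TF D K y v :=
  ⟨K.symm _ _ h.1, h.2.2.1, h.2.1, fun h' => h.2.2.2 h'.symm⟩

theorem clu_TF_smul {D : Setup G} {K : Cx G} (g : G) {v y : K.V} (h : TF D K v y) :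
    TF D K (g • v) (g • y) :=
  ⟨K.smul_adj _ _ _ h.1, fun h' => h.2.1 ((EllV_smul_iff g).1 h'),
    fun h' => h.2.2.1 ((EllV_smul_iff g).1 h'), fun h' => h.2.2.2 ((Fr_smul_iff g).1 h')⟩

theorem clu_cl_symm {D : Setup G} {K : Cx G} {v y : K.V} (h : y ∈ cl D K v) : v ∈ cl D K y := by
  have h' : Relation.ReflTransGen (TF D K) v y := h
  induction h' with
  | refl => exact Relation.ReflTransGen.refl
  | tail h1 h2 ih =>
    exact Relation.ReflTransGen.head (clu_TF_symm h2) (ih h1)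

theorem clu_cl_eq {D : Setup G} {K : Cx G} {v y : K.V} (h : y ∈ cl D K v) :
    cl D K y = cl D K v := by
  ext a
  constructor
  · intro ha
    exact Relation.ReflTransGen.trans h ha
  · intro ha
    exact Relation.ReflTransGen.trans (clu_cl_symm h) ha

theorem clu_cl_smul {D : Setup G} {K : Cx G} (g : G) (v : K.V) :
    g • cl D K v = cl D K (g • v) := by
  have key : ∀ (g : G) (a b : K.V), Relation.ReflTransGen (TF D K) a b →
      Relation.ReflTransGen (TF D K) (g • a) (g • b) := by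
    intro g a b h
    induction h with
    | refl => exact Relation.ReflTransGen.refl
    | tail _ h ih => exact ih.tail (clu_TF_smul g h)
  ext a
  constructor
  · rintro ⟨b, hb, rfl⟩
    exact key g v b hb
  · intro ha
    refine ⟨g⁻¹ • a, ?_, smul_inv_smul _ _⟩
    have := key g⁻¹ _ _ ha
    rw [inv_smul_smul] at this
    exact this

theorem clu_same (hTFD : ST_TFD) {D : Setup G} {K : Cx G} (P : Pts D K) (hnd : ND D K P)
    {v y : K.V} (hv : ¬ EllV D K v) (h : y ∈ cl D K v) :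
    ¬ EllV D K y ∧ ((P.N y = P.N v ∧ P.M y = P.M v) ∨ (P.N y = P.M v ∧ P.M y = P.N v)) := by
  have h' : Relation.ReflTransGen (TF D K) v y := h
  induction h' with
  | refl => exact ⟨hv, Or.inl ⟨rfl, rfl⟩⟩
  | @tail a b h1 h2 ih =>
    obtain ⟨-, ih2⟩ := ih h1
    refine ⟨h2.2.2.1, ?_⟩
    obtain ⟨h3, h4⟩ := clu_tf hTFD P hnd h2
    rcases ih2 with ⟨h5, h6⟩ | ⟨h5, h6⟩
    · right
      exact ⟨h3.trans h6, h4.trans h5⟩
    · left
      exact ⟨h3.trans h6, h4.trans h5⟩

/-- an element commuting with the two fields of an axis and fixing a vertex of the axis fixes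
the whole axis -/
theorem clu_fix (hTFC : ST_TFC) {D : Setup G} {N M : D.U → D.U} (hN : IsField D.T N)
    (hM : IsField D.T M) {g : G} (h1 : ∀ u, N (g • u) = g • N u) (h2 : ∀ u, M (g • u) = g • M u)
    {u' : D.U} (hu' : g • u' = u') (hI' : N u' ≠ M u') {u : D.U} (hI : N u ≠ M u) :
    g • u = u := by
  have hN' : ∀ k : ℕ, g • N^[k] u' = N^[k] u' := by
    intro k
    induction k with
    | zero => exact hu'
    | succ k ih => rw [Function.iterate_succ_apply', ← h1, ih]
  have hM' : ∀ k : ℕ, g • M^[k] u' = M^[k] u' := by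
    intro k
    induction k with
    | zero => exact hu'
    | succ k ih => rw [Function.iterate_succ_apply', ← h2, ih]
  obtain ⟨k, hk | hk⟩ := (hTFC D.U D.T D.tree N M hN hM).1 u' u (fun h => absurd h hI')
    (fun h => absurd h hI)
  · rw [hk]; exact hN' k
  · rw [hk]; exact hM' k

theorem clu_ax {D : Setup G} {K : Cx G} (P : Pts D K) {v : K.V} {u w : D.U}
    (h : Ax2 P v u w) : (P.N v u ≠ P.M v u ∧ P.N v w ≠ P.M v w) ∧ D.T.Adj u w := by
  have key : ∀ u w, Ax P v u w →
      (P.N v u ≠ P.M v u ∧ P.N v w ≠ P.M v w) ∧ D.T.Adj u w := by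
    rintro u w ⟨h1, h2, h3⟩
    have hT : D.T.Adj u w := by
      have := ((P.fN v).1 u).resolve_left h3
      rwa [h1] at this
    refine ⟨⟨?_, ?_⟩, hT⟩
    · rw [h1]
      intro h
      exact ((P.fM v).2 w u hT.symm).1 h2 h.symm
    · rw [h2]
      intro h
      exact ((P.fN v).2 u w hT).1 h1 h
  rcases h with h | h
  · exact key u w h
  · obtain ⟨⟨a, b⟩, c⟩ := key w u h
    exact ⟨⟨b, a⟩, c.symm⟩

theorem st_CLU (hTFC : ST_TFC) (hTFD : ST_TFD) : ST_CLU := by
  intro G _ D K P hnd v v' hv hv'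
  obtain ⟨h1, h2⟩ := clu_same hTFD P hnd hv hv'
  refine ⟨h1, clu_cl_eq hv', h2, fun h => clu_tf hTFD P hnd h, ?_, fun g => clu_cl_smul g v⟩
  intro u w u' w' hax hax' hFT g hg hu' hw'
  have hgv : g • v ∈ cl D K v := by
    rw [← hg]
    exact ⟨v, Relation.ReflTransGen.refl, rfl⟩
  obtain ⟨-, hsame⟩ := clu_same hTFD P hnd hv hgv
  obtain ⟨⟨b1, b2⟩, bT⟩ := clu_ax P hax
  obtain ⟨⟨b1', b2'⟩, bT'⟩ := clu_ax P hax'
  have hsame' : P.N (g • v) = P.N v ∧ P.M (g • v) = P.M v := by
    rcases hsame with h | ⟨h3, h4⟩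
    · exact h
    · exfalso
      have e1 := P.eN g v u'
      have e2 := P.eN g v w'
      have e3 := P.eM g v u'
      have e4 := P.eM g v w'
      rw [hu', h3] at e1
      rw [hw', h3] at e2
      rw [hu', h4] at e3
      rw [hw', h4] at e4
      rcases hax' with ⟨a1, a2, a3⟩ | ⟨a1, a2, a3⟩
      · rw [a1, hw'] at e1
        exact ((P.fM v).2 w' u' bT'.symm).1 a2 e1
      · rw [a1, hu'] at e2
        exact ((P.fM v).2 u' w' bT').1 a2 e2
  have hN : ∀ u, P.N v (g • u) = g • P.N v u := by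
    intro u
    rw [← P.eN, hsame'.1]
  have hM : ∀ u, P.M v (g • u) = g • P.M v u := by
    intro u
    rw [← P.eM, hsame'.2]
  exact hFT g hg (clu_fix hTFC (P.fN v) (P.fM v) hN hM hu' b1' b1)
    (clu_fix hTFC (P.fN v) (P.fM v) hN hM hu' b1' b2)

end Pool.Agent.Helper93.HZ
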