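import Pool.Agent.Helper93.HZ.Spec3
import Pool.Agent.Helper93.HZ.MM

/-! # HZ: CMP (6.13), the good components of the split graph -/

set_option autoImplicit false

open MulAction Pointwise

namespace Pool.Agent.Helper93.HZ

open Ctx

variable {G : Type} [Group G] (X : Ctx G)

theorem cmp_nf {x : X.V} {u w : X.U} (hT : X.D.T.Adj u w) (h : X.P.N x w = u) :
    X.P.N x u ≠ w := ((X.P.fN x).2 w u hT.symm).1 h

theorem cmp_fn {x : X.V} {u w : X.U} (hT : X.D.T.Adj u w) (h : X.P.N x u ≠ w) :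
    X.P.N x w = u := ((X.P.fN x).2 w u hT.symm).2 h

open Classical in
/-- the cluster node -/
noncomputable def cmp_cn (x : X.V) (u w : X.U) : X.NP :=
  if X.D.arr u w then .inr (cl X.D X.K x, u, w) else .inr (cl X.D X.K x, w, u)

theorem cmp_sp_hon {x y : X.V} {u w : X.U} (h1 : Fr X.K x y) (h2 : X.Hon x y u)
    (h3 : X.Hon x y w) : X.spN x y u w = some (.inl (x, y, u, w)) := by
  unfold Ctx.spN
  rw [if_pos ⟨h1, h2, h3⟩]

theorem cmp_sp_cl {x y : X.V} {u w : X.U} (h1 : ¬ (Fr X.K x y ∧ X.Hon x y u ∧ X.Hon x y w))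
    (h2 : ¬ EllV X.D X.K x) (h3 : Pool.Agent.Helper93.HZ.FT X.D X.K x u w) :
    X.spN x y u w = some (cmp_cn X x u w) := by
  unfold Ctx.spN cmp_cn
  rw [if_neg h1, if_pos h2, if_pos h3]
  split_ifs <;> rfl

theorem cmp_sp_cases {x y : X.V} {u w : X.U} {n : X.NP} (h : X.spN x y u w = some n) :
    ((Fr X.K x y ∧ X.Hon x y u ∧ X.Hon x y w) ∧ n = .inl (x, y, u, w)) ∨
    (¬ (Fr X.K x y ∧ X.Hon x y u ∧ X.Hon x y w) ∧ ¬ EllV X.D X.K x ∧
      Pool.Agent.Helper93.HZ.FT X.D X.K x u w ∧ n = cmp_cn X x u w) := by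
  unfold Ctx.spN at h
  unfold cmp_cn
  split_ifs at h with h1 h2 h3 h4
  · exact Or.inl ⟨h1, (Option.some.inj h).symm⟩
  · refine Or.inr ⟨h1, h2, h3, ?_⟩
    rw [if_pos h4]; exact (Option.some.inj h).symm
  · refine Or.inr ⟨h1, h2, h3, ?_⟩
    rw [if_neg h4]; exact (Option.some.inj h).symm

theorem cmp_cn_ne {x : X.V} {u w : X.U} {m : X.V × X.V × X.U × X.U} :
    cmp_cn X x u w ≠ .inl m := by
  unfold cmp_cn
  split_ifs <;> simp

theorem cmp_sp_inl {x y x' y' : X.V} {u w u' w' : X.U}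
    (h : X.spN x y u w = some (.inl (x', y', u', w'))) :
    x' = x ∧ y' = y ∧ u' = u ∧ w' = w ∧ Fr X.K x y ∧ X.Hon x y u ∧ X.Hon x y w := by
  rcases cmp_sp_cases X h with ⟨⟨h1, h2, h3⟩, h4⟩ | ⟨-, -, -, h4⟩
  · simp only [Sum.inl.injEq, Prod.mk.injEq] at h4
    obtain ⟨rfl, rfl, rfl, rfl⟩ := h4
    exact ⟨rfl, rfl, rfl, rfl, h1, h2, h3⟩
  · exact absurd h4.symm (cmp_cn_ne X)

theorem cmp_mk {x y z : X.V} {u w : X.U} (hT : X.D.T.Adj u w) (hx : X.P.N x w = u)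
    (ht : X.K.tri x y z) (hy : X.P.N y u = w) (hz : X.P.N z u = w)
    (hh : (Fr X.K x y ∧ X.Hon x y u) ∨ (Fr X.K x z ∧ X.Hon x z u)) :
    ∃ b ∈ X.Y1, X.sQ b = X.spN x y u w ∧ X.tQ b = X.spN x z u w := by
  classical
  refine ⟨⟨x, y, z, u, decide (X.D.arr u w)⟩, ⟨⟨ht, ?_, ?_, ?_, hh⟩, ?_⟩, ?_, ?_⟩
  · show X.P.N y u = X.P.N z u
    rw [hy, hz]
  · show X.P.N y u ≠ u
    rw [hy]; exact hT.ne'
  · show X.P.N x u ≠ X.P.N y u
    rw [hy]; exact cmp_nf X hT hx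
  · show decide (X.D.arr u w) = true ↔ X.D.arr u (X.P.N y u)
    rw [hy, decide_eq_true_iff]
  · show X.spN x y u (X.P.N y u) = _
    rw [hy]
  · show X.spN x z u (X.P.N y u) = _
    rw [hy]

theorem cmp_dst {b : Band G X} (hb : b ∈ X.Y1) :
    X.D.T.Adj b.w (X.P.N b.y b.w) ∧ X.P.N b.x (X.P.N b.y b.w) = b.w ∧
    X.P.N b.z b.w = X.P.N b.y b.w ∧ X.K.tri b.x b.y b.z ∧
    ((Fr X.K b.x b.y ∧ X.Hon b.x b.y b.w) ∨ (Fr X.K b.x b.z ∧ X.Hon b.x b.z b.w)) := by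
  obtain ⟨⟨h1, h2, h3, h4, h5⟩, -⟩ := hb
  have hT : X.D.T.Adj b.w (X.P.N b.y b.w) := ((X.P.fN b.y).1 b.w).resolve_left h3
  exact ⟨hT, cmp_fn X hT h4, h2.symm, h1, h5⟩

/-- both sides of the leg: symmetric form of `cmp_dst` for a step -/
theorem cmp_step {p q : X.NP} (h : stepR X.Y1 X.sQ X.tQ p q) :
    ∃ x y z u w, X.D.T.Adj u w ∧ X.P.N x w = u ∧ X.P.N y u = w ∧ X.P.N z u = w ∧
      X.K.tri x y z ∧ X.spN x y u w = some p ∧ X.spN x z u w = some q ∧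
      ((Fr X.K x y ∧ X.Hon x y u) ∨ (Fr X.K x z ∧ X.Hon x z u)) := by
  obtain ⟨b, hb, h | h⟩ := h
  · obtain ⟨h1, h2, h3, h4, h5⟩ := cmp_dst X hb
    exact ⟨b.x, b.y, b.z, b.w, X.P.N b.y b.w, h1, h2, rfl, h3, h4, h.1, h.2, h5⟩
  · obtain ⟨h1, h2, h3, h4, h5⟩ := cmp_dst X hb
    exact ⟨b.x, b.z, b.y, b.w, X.P.N b.y b.w, h1, h2, h3, rfl, (X.K.tri_perm h4).2.2.2.1,
      h.2, h.1, h5.symm⟩

theorem cmp_symm {p q : X.NP} (h : stepR X.Y1 X.sQ X.tQ p q) : stepR X.Y1 X.sQ X.tQ q p := by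
  obtain ⟨b, hb, h | h⟩ := h
  · exact ⟨b, hb, Or.inr ⟨h.1, h.2⟩⟩
  · exact ⟨b, hb, Or.inl ⟨h.1, h.2⟩⟩

theorem cmp_rtg_symm {p q : X.NP} (h : Relation.ReflTransGen (stepR X.Y1 X.sQ X.tQ) p q) :
    Relation.ReflTransGen (stepR X.Y1 X.sQ X.tQ) q p := by
  induction h with
  | refl => exact Relation.ReflTransGen.refl
  | tail _ h ih => exact Relation.ReflTransGen.head (cmp_symm X h) ih

/-- Lemma C -/
theorem cmp_C (hHON : ST_HON) {x y z : X.V} {u w : X.U} (hT : X.D.T.Adj u w)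
    (hx : X.P.N x w = u) (ht : X.K.tri x y z) (hy : X.P.N y u = w) (hz : X.P.N z u = w)
    (hfr : Fr X.K x y) : (X.Hon x y u ∧ X.Hon x y w) ∨ X.Dp x y u := by
  have hxu := cmp_nf X hT hx
  have hne : X.P.N x ≠ X.P.N y := fun h => hxu (by rw [h, hy])
  have hFC : X.FC2 x y := ⟨(X.K.tri_adj' ht).1, hfr, hne⟩
  obtain ⟨h1, -, -, -, -, -, -, -, -, h10, -⟩ := hHON G X x y hFC
  have hon : OnI (X.P.N x) (X.P.N y) u := by
    intro h
    exact absurd (h.trans hy) hxu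
  rcases (h1 u).1 hon with h | h | h
  · left
    refine ⟨h, ?_⟩
    have := h10 z u ht (by rw [hy, hz]) (by rw [hy]; exact hT.ne') (by rw [hy]; exact hxu) h
    rwa [hy] at this
  · exact Or.inr h
  · exfalso
    have hFC' : X.FC2 y x := ⟨X.K.symm _ _ hFC.1, hfr.symm, hne.symm⟩
    obtain ⟨-, -, -, -, -, -, -, h8, -⟩ := hHON G X y x hFC'
    obtain ⟨h9, -, -⟩ := h8 z u (X.K.tri_swap _ _ _ ht) h
    exact hxu (h9.trans hz)

/-- a vertex strictly beyond the threshold -/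
theorem cmp_dp (hHON : ST_HON) {x y : X.V} {u w : X.U} (hT : X.D.T.Adj u w)
    (hx : X.P.N x w = u) (hadj : X.K.adj x y) (hy : X.P.N y u = w) (hfr : Fr X.K x y)
    (hD : X.Dp x y u) : Ax X.P x w u ∧ y ∈ Sset X.P x w u := by
  have hxu := cmp_nf X hT hx
  have hne : X.P.N x ≠ X.P.N y := fun h => hxu (by rw [h, hy])
  have hFC : X.FC2 x y := ⟨hadj, hfr, hne⟩
  obtain ⟨h1, -, -, -, -, -, -, -, h9, -, -⟩ := hHON G X x y hFC
  obtain ⟨hell, k, hk⟩ := hD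
  have h9' := h9 u ⟨hell, k, hk⟩
  have hax : Ax X.P x w u := by
    refine ⟨hx, ?_, ?_⟩
    · rw [← h9'.2, hy]
    · rw [hx]; exact hT.ne
  refine ⟨hax, ?_⟩
  have hm := X.good.T2 x y k hell hadj hfr hne
  rw [← hk] at hm
  have hq : (X.P.N x)^[k] (X.Q.Q x y) = w := by
    set q := (X.P.N x)^[k] (X.Q.Q x y) with hqdef
    have hNq : X.P.N x q = u := by
      rw [hk, Function.iterate_succ_apply']
    have hmove : X.P.N x q ≠ q := (X.P.hyp x hell).1 q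
    have hTq : X.D.T.Adj q u := by
      have := ((X.P.fN x).1 q).resolve_left hmove
      rwa [hNq] at this
    -- `q` lies on `I(x,y)`
    have hqI : OnI (X.P.N x) (X.P.N y) q := by
      rw [h1 q]
      cases k with
      | zero =>
        left
        obtain ⟨-, -, -, -, h5, -⟩ := hHON G X x y hFC
        exact h5
      | succ k => exact Or.inr (Or.inl ⟨hell, k, rfl⟩)
    have hyq : X.P.N y q ≠ u := by
      intro h
      exact hmove (hqI (hNq.trans h.symm))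
    have := ((X.P.fN y).2 u q hTq.symm).2 hyq
    rw [← this, hy]
  rwa [hq] at hm

theorem cmp_FT_irr (hCLU : ST_CLU) {v v' : X.V} (hv : ¬ EllV X.D X.K v)
    (hv' : v' ∈ cl X.D X.K v) {u w : X.U} (h : Ax2 X.P v u w) :
    ¬ EllV X.D X.K v' ∧ cl X.D X.K v' = cl X.D X.K v ∧ Ax2 X.P v' u w ∧
      (Pool.Agent.Helper93.HZ.FT X.D X.K v u w → Pool.Agent.Helper93.HZ.FT X.D X.K v' u w) := by
  obtain ⟨h1, h2, h3, -, -, -⟩ := hCLU G X.D X.K X.P X.nd v v' hv hv'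
  refine ⟨h1, h2, ?_, ?_⟩
  · rcases h3 with ⟨h4, h5⟩ | ⟨h4, h5⟩
    · rcases h with h | h
      · left
        unfold Ax at h ⊢
        rw [h4, h5]; exact h
      · right
        unfold Ax at h ⊢
        rw [h4, h5]; exact h
    · rcases h with h | h
      · right
        obtain ⟨a1, a2, a3⟩ := h
        refine ⟨by rw [h4, a2], by rw [h5, a1], ?_⟩
        rw [h4, a2]
        intro h
        apply a3
        rw [a1]; exact h.symm
      · left
        obtain ⟨a1, a2, a3⟩ := h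
        refine ⟨by rw [h4, a2], by rw [h5, a1], ?_⟩
        rw [h4, a2]
        intro h
        apply a3
        rw [a1]; exact h.symm
  · intro h
    unfold Pool.Agent.Helper93.HZ.FT at h ⊢
    rw [h2]; exact h

/-- a nonhonest side of a leg at a hyperbolic vertex -/
theorem cmp_nh (hTFD : ST_TFD) (hHON : ST_HON) (hCLU : ST_CLU) (hSL : ST_SL) {x y z : X.V}
    {u w : X.U} (hT : X.D.T.Adj u w) (hx : X.P.N x w = u) (ht : X.K.tri x y z)
    (hy : X.P.N y u = w) (hz : X.P.N z u = w) (hell : ¬ EllV X.D X.K x)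
    (hnh : ¬ (Fr X.K x y ∧ X.Hon x y u ∧ X.Hon x y w)) :
    Ax X.P x w u ∧ y ∈ Sset X.P x w u := by
  have hadj := (X.K.tri_adj' ht).1
  by_cases hfr : Fr X.K x y
  · rcases cmp_C X hHON hT hx ht hy hz hfr with h | h
    · exact absurd ⟨hfr, h⟩ hnh
    · exact cmp_dp X hHON hT hx hadj hy hfr h
  · have hyh : ¬ EllV X.D X.K y := by
      have hfr' := hfr
      unfold Fr at hfr'
      push Not at hfr'
      obtain ⟨c, hc1, hc2, hc3⟩ := hfr'
      rintro ⟨u', hu'⟩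
      exact hc3 (mm_hyp hTFD X.P hell hc1 ⟨u', hu' c hc2⟩)
    have hTF : TF X.D X.K x y := ⟨hadj, hell, hyh, hfr⟩
    have hcl : y ∈ cl X.D X.K x := Relation.ReflTransGen.single hTF
    obtain ⟨-, -, -, h4, -, -⟩ := hCLU G X.D X.K X.P X.nd x y hell hcl
    have hax : Ax X.P x w u := by
      refine ⟨hx, ?_, ?_⟩
      · rw [← (h4 hTF).1, hy]
      · rw [hx]; exact hT.ne
    exact ⟨hax, (hSL G X.D X.K X.P X.red X.nmax.1 X.nd x w u hell hax).2.1 y hadj hfr⟩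

theorem cmp_1 (hTFD : ST_TFD) (hHON : ST_HON) (hCLU : ST_CLU) (hSL : ST_SL) (x y : X.V)
    (u w : X.U) (hn : (Sum.inl (x, y, u, w) : X.NP) ∈ X.NQs)
    (hg : goodR X.Y1 X.sQ X.tQ (Sum.inl (x, y, u, w))) :
      ((X.LCe x y u w).Finite ∧ (∀ y' ∈ X.LCe x y u w, Fr X.K x y') ∧
        compR X.Y1 X.sQ X.tQ (.inl (x, y, u, w)) =
          {n | ∃ y' ∈ X.LCe x y u w, n = .inl (x, y', u, w)}) ∨
      (¬ EllV X.D X.K x ∧ Ax X.P x w u ∧ Pool.Agent.Helper93.HZ.FT X.D X.K x u w ∧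
        ((.inr (cl X.D X.K x, u, w) : X.NP) ∈ compR X.Y1 X.sQ X.tQ (.inl (x, y, u, w)) ∨
         (.inr (cl X.D X.K x, w, u) : X.NP) ∈ compR X.Y1 X.sQ X.tQ (.inl (x, y, u, w)))) := by
  by_cases hsec : (¬ EllV X.D X.K x ∧ Ax X.P x w u ∧ Pool.Agent.Helper93.HZ.FT X.D X.K x u w ∧
        ((.inr (cl X.D X.K x, u, w) : X.NP) ∈ compR X.Y1 X.sQ X.tQ (.inl (x, y, u, w)) ∨
         (.inr (cl X.D X.K x, w, u) : X.NP) ∈ compR X.Y1 X.sQ X.tQ (.inl (x, y, u, w))))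
  · exact Or.inr hsec
  left
  obtain ⟨⟨hadj, hfr, hne⟩, ⟨hT, hx, hy⟩, hu, hw⟩ := hn
  -- induction along the component of the link
  have key : ∀ y', Relation.ReflTransGen
      (fun p q => X.K.tri x p q ∧ X.P.N p u = w ∧ X.P.N q u = w) y y' →
      (Fr X.K x y' ∧ X.Hon x y' u ∧ X.Hon x y' w) ∧ X.P.N y' u = w ∧
      (Sum.inl (x, y', u, w) : X.NP) ∈ compR X.Y1 X.sQ X.tQ (.inl (x, y, u, w)) := by
    intro y' h
    induction h with
    | refl => exact ⟨⟨hfr, hu, hw⟩, hy, Relation.ReflTransGen.refl⟩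
    | @tail p q _ hpq ih =>
      obtain ⟨⟨i1, i2, i3⟩, i4, i5⟩ := ih
      obtain ⟨ht, hp, hq⟩ := hpq
      obtain ⟨b, hb, hs, ht'⟩ := cmp_mk X hT hx ht hp hq (Or.inl ⟨i1, i2⟩)
      rw [cmp_sp_hon X i1 i2 i3] at hs
      have hsome := ((hg.2 _ i5 b hb).1 hs)
      obtain ⟨n, hn⟩ := Option.isSome_iff_exists.1 hsome
      rw [ht'] at hn
      have hmem : n ∈ compR X.Y1 X.sQ X.tQ (.inl (x, y, u, w)) :=
        Relation.ReflTransGen.tail i5 ⟨b, hb, Or.inl ⟨hs, by rw [ht', hn]⟩⟩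
      rcases cmp_sp_cases X hn with ⟨h1, rfl⟩ | ⟨h1, h2, h3, rfl⟩
      · exact ⟨h1, hq, hmem⟩
      · exfalso
        apply hsec
        have ht2 : X.K.tri x q p := (X.K.tri_perm ht).2.2.2.1
        obtain ⟨h4, -⟩ := cmp_nh X hTFD hHON hCLU hSL hT hx ht2 hq hp h2 h1
        refine ⟨h2, h4, h3, ?_⟩
        unfold cmp_cn at hmem
        split_ifs at hmem
        · exact Or.inl hmem
        · exact Or.inr hmem
  refine ⟨?_, fun y' hy' => (key y' hy').1.1, ?_⟩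
  · have hfin := hg.1
    have hinj : Function.Injective (fun y' : X.V => (Sum.inl (x, y', u, w) : X.NP)) := by
      intro a b h
      simp only [Sum.inl.injEq, Prod.mk.injEq] at h
      exact h.2.1
    refine Set.Finite.of_finite_image (f := fun y' : X.V => (Sum.inl (x, y', u, w) : X.NP)) ?_
      hinj.injOn
    refine hfin.subset ?_
    rintro _ ⟨y', hy', rfl⟩
    exact (key y' hy').2.2
  · ext n
    constructor
    · intro h
      have h' : Relation.ReflTransGen (stepR X.Y1 X.sQ X.tQ) (.inl (x, y, u, w)) n := h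
      induction h' with
      | refl => exact ⟨y, Relation.ReflTransGen.refl, rfl⟩
      | @tail p q hp hpq ih =>
        obtain ⟨y', hy', rfl⟩ := ih hp
        obtain ⟨x1, y1, z1, u1, w1, h1, h2, h3, h4, h5, h6, h7, h8⟩ := cmp_step X hpq
        obtain ⟨rfl, rfl, rfl, rfl, -, -, -⟩ := cmp_sp_inl X h6
        have hz1 : z1 ∈ X.LCe x y u w := Relation.ReflTransGen.tail hy' ⟨h5, h3, h4⟩
        obtain ⟨⟨k1, k2, k3⟩, -, -⟩ := key z1 hz1
        rw [cmp_sp_hon X k1 k2 k3] at h7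
        exact ⟨z1, hz1, (Option.some.inj h7).symm⟩
    · rintro ⟨y', hy', rfl⟩
      exact (key y' hy').2.2


/-- the cluster node of `x` for a vertex `x` of the cluster of `v` -/
theorem cmp_cn_eq {v x : X.V} {u w : X.U} (hTo : X.D.arr u w) (hc : cl X.D X.K x = cl X.D X.K v)
    {u' w' : X.U} (h : (u' = u ∧ w' = w) ∨ (u' = w ∧ w' = u)) :
    cmp_cn X x u' w' = .inr (cl X.D X.K v, u, w) := by
  unfold cmp_cn
  rcases h with ⟨rfl, rfl⟩ | ⟨rfl, rfl⟩
  · rw [if_pos hTo, hc]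
  · rw [if_neg (X.D.arr_asymm _ _ hTo), hc]

theorem cmp_cn_inv {v x : X.V} {u w u' w' : X.U} (hT : X.D.T.Adj u' w')
    (h : cmp_cn X x u' w' = .inr (cl X.D X.K v, u, w)) :
    cl X.D X.K x = cl X.D X.K v ∧ ((u' = u ∧ w' = w) ∨ (u' = w ∧ w' = u)) := by
  unfold cmp_cn at h
  split_ifs at h
  · simp only [Sum.inr.injEq, Prod.mk.injEq] at h
    exact ⟨h.1, Or.inl ⟨h.2.1, h.2.2⟩⟩
  · simp only [Sum.inr.injEq, Prod.mk.injEq] at h
    exact ⟨h.1, Or.inr ⟨h.2.2, h.2.1⟩⟩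

/-- honest sides at a hyperbolic vertex over a fixed edge: finitely many -/
theorem cmp_fin (hTFD : ST_TFD) (hGRQ : ST_GRQ) {v : X.V} {u w : X.U}
    (hv : ¬ EllV X.D X.K v) :
    {y : X.V | (Sum.inl (v, y, u, w) : X.NP) ∈ X.NQs}.Finite := by
  have hf : FinOrb G X.NQs := (hGRQ G X).finX
  have : Finite ((fun x : X.NP => orbit G x) '' X.NQs) := hf
  refine Set.Finite.of_injOn (f := fun y : X.V => orbit G (Sum.inl (v, y, u, w) : X.NP))
    (t := (fun x : X.NP => orbit G x) '' X.NQs) ?_ ?_ hf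
  · intro y hy
    exact ⟨_, hy, rfl⟩
  · intro y hy y' hy' h
    obtain ⟨g, hg⟩ := orbit_eq_iff'.1 h
    have hg' : (g • v = v) ∧ g • y = y' ∧ g • u = u ∧ g • w = w := by
      have h1 : g • ((v, y, u, w) : X.V × X.V × X.U × X.U) = (v, y', u, w) :=
        Sum.inl_injective hg
      simp only [Prod.smul_mk, Prod.mk.injEq] at h1
      exact h1
    have := mm_hyp hTFD X.P hv hg'.1 ⟨u, hg'.2.2.1⟩
    have h5 := hg'.2.1
    rw [this, one_smul] at h5
    exact h5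

theorem cmp_2 (hTFD : ST_TFD) (hHON : ST_HON) (hCLU : ST_CLU) (hSL : ST_SL) (hGRQ : ST_GRQ)
    (v : X.V) (u w : X.U) (hTo : X.D.arr u w) (hcl : X.IsCl v u w) :
    goodR X.Y1 X.sQ X.tQ (.inr (cl X.D X.K v, u, w)) ∧
    compR X.Y1 X.sQ X.tQ (.inr (cl X.D X.K v, u, w)) =
      {n | n = .inr (cl X.D X.K v, u, w) ∨ ∃ v' y, v' ∈ cl X.D X.K v ∧ Fr X.K v' y ∧
        X.Hon v' y u ∧ X.Hon v' y w ∧
        ((Ax X.P v' u w ∧ y ∈ Sset X.P v' u w ∧ n = .inl (v', y, w, u)) ∨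
         (Ax X.P v' w u ∧ y ∈ Sset X.P v' w u ∧ n = .inl (v', y, u, w)))} := by
  obtain ⟨hell, hax2, hFT⟩ := hcl
  have hTuw : X.D.T.Adj u w := (X.D.adj_iff _ _).2 (Or.inl hTo)
  -- unified description
  have hS : ∀ n : X.NP, (∃ v' y, v' ∈ cl X.D X.K v ∧ Fr X.K v' y ∧
        X.Hon v' y u ∧ X.Hon v' y w ∧
        ((Ax X.P v' u w ∧ y ∈ Sset X.P v' u w ∧ n = .inl (v', y, w, u)) ∨
         (Ax X.P v' w u ∧ y ∈ Sset X.P v' w u ∧ n = .inl (v', y, u, w)))) ↔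
      ∃ v' y a c, ((a = u ∧ c = w) ∨ (a = w ∧ c = u)) ∧ v' ∈ cl X.D X.K v ∧ Fr X.K v' y ∧
        X.Hon v' y a ∧ X.Hon v' y c ∧ Ax X.P v' c a ∧ y ∈ Sset X.P v' c a ∧
        n = .inl (v', y, a, c) := by
    intro n
    constructor
    · rintro ⟨v', y, h1, h2, h3, h4, ⟨h5, h6, h7⟩ | ⟨h5, h6, h7⟩⟩
      · exact ⟨v', y, w, u, Or.inr ⟨rfl, rfl⟩, h1, h2, h4, h3, h5, h6, h7⟩
      · exact ⟨v', y, u, w, Or.inl ⟨rfl, rfl⟩, h1, h2, h3, h4, h5, h6, h7⟩
    · rintro ⟨v', y, a, c, ⟨rfl, rfl⟩ | ⟨rfl, rfl⟩, h1, h2, h3, h4, h5, h6, h7⟩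
      · exact ⟨v', y, h1, h2, h3, h4, Or.inr ⟨h5, h6, h7⟩⟩
      · exact ⟨v', y, h1, h2, h4, h3, Or.inl ⟨h5, h6, h7⟩⟩
  set n0 : X.NP := .inr (cl X.D X.K v, u, w) with hn0
  -- the facts for a vertex of the cluster
  have hfact : ∀ v' ∈ cl X.D X.K v, ∀ a c, ((a = u ∧ c = w) ∨ (a = w ∧ c = u)) →
      ¬ EllV X.D X.K v' ∧ cl X.D X.K v' = cl X.D X.K v ∧ Ax2 X.P v' a c ∧
      Pool.Agent.Helper93.HZ.FT X.D X.K v' a c ∧ cmp_cn X v' a c = n0 ∧ X.D.T.Adj a c := by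
    intro v' hv' a c hac
    obtain ⟨h1, h2, h3, h4⟩ := cmp_FT_irr X hCLU hell hv' hax2
    refine ⟨h1, h2, ?_, ?_, cmp_cn_eq X hTo h2 hac, ?_⟩
    · rcases hac with ⟨rfl, rfl⟩ | ⟨rfl, rfl⟩
      · exact h3
      · exact h3.symm
    · rcases hac with ⟨rfl, rfl⟩ | ⟨rfl, rfl⟩
      · exact h4 hFT
      · intro g hg h5 h6
        exact h4 hFT g hg h6 h5
    · rcases hac with ⟨rfl, rfl⟩ | ⟨rfl, rfl⟩
      · exact hTuw
      · exact hTuw.symm
  -- one step from a side (v',y) with y in Sset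
  have hstep : ∀ v' y z a c, ((a = u ∧ c = w) ∨ (a = w ∧ c = u)) → v' ∈ cl X.D X.K v →
      X.P.N v' c = a → X.P.N y a = c → X.P.N z a = c → X.K.tri v' y z →
      (¬ (Fr X.K v' y ∧ X.Hon v' y a ∧ X.Hon v' y c) ∨ y ∈ Sset X.P v' c a) →
      Ax X.P v' c a ∧ z ∈ Sset X.P v' c a := by
    intro v' y z a c hac hv' h1 h2 h3 h4 h5
    obtain ⟨f1, f2, f3, f4, f5, f6⟩ := hfact v' hv' a c hac
    have hax : Ax X.P v' c a := by
      rcases f3 with h | h
      · exfalso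
        have := h.1
        exact (cmp_nf X f6 h1) this
      · exact h
    have hyS : y ∈ Sset X.P v' c a := by
      rcases h5 with h5 | h5
      · exact (cmp_nh X hTFD hHON hCLU hSL f6 h1 h4 h2 h3 f1 h5).2
      · exact h5
    refine ⟨hax, ?_⟩
    obtain ⟨-, -, -, -, s5, -⟩ := hSL G X.D X.K X.P X.red X.nmax.1 X.nd v' c a f1 hax
    exact (s5 y z hyS h4).2 h3
  have hset : compR X.Y1 X.sQ X.tQ n0 = {n | n = n0 ∨ ∃ v' y a c,
        ((a = u ∧ c = w) ∨ (a = w ∧ c = u)) ∧ v' ∈ cl X.D X.K v ∧ Fr X.K v' y ∧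
        X.Hon v' y a ∧ X.Hon v' y c ∧ Ax X.P v' c a ∧ y ∈ Sset X.P v' c a ∧
        n = .inl (v', y, a, c)} := by
    ext n
    constructor
    · intro h
      have h' : Relation.ReflTransGen (stepR X.Y1 X.sQ X.tQ) n0 n := h
      induction h' with
      | refl => exact Or.inl rfl
      | @tail p q hp hpq ih =>
        have ihp := ih hp
        obtain ⟨x1, y1, z1, u1, w1, h1, h2, h3, h4, h5, h6, h7, h8⟩ := cmp_step X hpq
        rcases ihp with rfl | ⟨v', y, a, c, hac, hv', i1, i2, i3, i4, i5, rfl⟩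
        · rcases cmp_sp_cases X h6 with ⟨-, h9⟩ | ⟨g1, g2, g3, h9⟩
          · exact absurd h9 (by rw [hn0]; simp)
          · obtain ⟨g4, g5⟩ := cmp_cn_inv X h1 h9.symm
            have hx1 : x1 ∈ cl X.D X.K v := by
              rw [← g4]; exact Relation.ReflTransGen.refl
            rcases cmp_sp_cases X h7 with ⟨k1, k2⟩ | ⟨k1, k2, k3, k4⟩
            · right
              obtain ⟨k5, k6⟩ := hstep x1 y1 z1 u1 w1 g5 hx1 h2 h3 h4 h5 (Or.inl g1)
              exact ⟨x1, z1, u1, w1, g5, hx1, k1.1, k1.2.1, k1.2.2, k5, k6, k2⟩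
            · left
              rw [k4]
              exact (hfact x1 hx1 u1 w1 g5).2.2.2.2.1
        · obtain ⟨rfl, rfl, rfl, rfl, -, -, -⟩ := cmp_sp_inl X h6
          rcases cmp_sp_cases X h7 with ⟨k1, k2⟩ | ⟨k1, k2, k3, k4⟩
          · right
            obtain ⟨k5, k6⟩ := hstep _ _ z1 _ _ hac hv' h2 h3 h4 h5 (Or.inr i5)
            exact ⟨_, z1, _, _, hac, hv', k1.1, k1.2.1, k1.2.2, k5, k6, k2⟩
          · left
            rw [k4]
            exact (hfact _ hv' _ _ hac).2.2.2.2.1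
    · rintro (rfl | ⟨v', y, a, c, hac, hv', i1, i2, i3, i4, i5, rfl⟩)
      · exact Relation.ReflTransGen.refl
      · obtain ⟨f1, f2, f3, f4, f5, f6⟩ := hfact v' hv' a c hac
        apply cmp_rtg_symm
        -- there is a nonhonest vertex in the component of y
        obtain ⟨hadj, hya, hinf⟩ := i5
        have hex : ∃ y', Relation.ReflTransGen
            (fun p q => X.K.tri v' p q ∧ X.P.N p a = c ∧ X.P.N q a = c) y y' ∧
            ¬ (Fr X.K v' y' ∧ X.Hon v' y' a ∧ X.Hon v' y' c) := by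
          by_contra hcon
          push Not at hcon
          apply hinf
          refine (cmp_fin X hTFD hGRQ (v := v') (u := a) (w := c) f1).subset ?_
          intro y' hy'
          obtain ⟨j1, j2, j3⟩ := hcon y' hy'
          have hy'a : X.P.N y' a = c ∧ X.K.adj v' y' := by
            rcases Relation.ReflTransGen.cases_tail hy' with h | ⟨r, -, h⟩
            · rw [h]; exact ⟨hya, hadj⟩
            · exact ⟨h.2.2, (X.K.tri_adj' h.1).2.2.2.2.2⟩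
          have hva : X.P.N v' c = a := i4.1
          refine ⟨⟨hy'a.2, j1, ?_⟩, ⟨f6, hva, hy'a.1⟩, j2, j3⟩
          intro h
          exact cmp_nf X f6 hva (by rw [h, hy'a.1])
        obtain ⟨y', hyy', hnh⟩ := hex
        have key : ∀ y', Relation.ReflTransGen
            (fun p q => X.K.tri v' p q ∧ X.P.N p a = c ∧ X.P.N q a = c) y y' →
            (Relation.ReflTransGen (stepR X.Y1 X.sQ X.tQ) (.inl (v', y, a, c)) n0 ∨
              ((Fr X.K v' y' ∧ X.Hon v' y' a ∧ X.Hon v' y' c) ∧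
              Relation.ReflTransGen (stepR X.Y1 X.sQ X.tQ) (.inl (v', y, a, c))
                (.inl (v', y', a, c)))) := by
          intro y' h
          induction h with
          | refl => exact Or.inr ⟨⟨i1, i2, i3⟩, Relation.ReflTransGen.refl⟩
          | @tail p q _ hpq ih =>
            rcases ih with ih | ⟨ih1, ih2⟩
            · exact Or.inl ih
            · obtain ⟨b, hb, hs, ht⟩ := cmp_mk X f6 i4.1 hpq.1 hpq.2.1 hpq.2.2
                (Or.inl ⟨ih1.1, ih1.2.1⟩)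
              rw [cmp_sp_hon X ih1.1 ih1.2.1 ih1.2.2] at hs
              by_cases hq : Fr X.K v' q ∧ X.Hon v' q a ∧ X.Hon v' q c
              · right
                rw [cmp_sp_hon X hq.1 hq.2.1 hq.2.2] at ht
                exact ⟨hq, ih2.tail ⟨b, hb, Or.inl ⟨hs, ht⟩⟩⟩
              · left
                rw [cmp_sp_cl X hq f1 f4, f5] at ht
                exact ih2.tail ⟨b, hb, Or.inl ⟨hs, ht⟩⟩
        rcases key y' hyy' with h | ⟨h, -⟩
        · exact h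
        · exact absurd h hnh
  have hset' : compR X.Y1 X.sQ X.tQ n0 =
      {n | n = .inr (cl X.D X.K v, u, w) ∨ ∃ v' y, v' ∈ cl X.D X.K v ∧ Fr X.K v' y ∧
        X.Hon v' y u ∧ X.Hon v' y w ∧
        ((Ax X.P v' u w ∧ y ∈ Sset X.P v' u w ∧ n = .inl (v', y, w, u)) ∨
         (Ax X.P v' w u ∧ y ∈ Sset X.P v' w u ∧ n = .inl (v', y, u, w)))} := by
    rw [hset]
    ext n
    rw [Set.mem_setOf_eq, Set.mem_setOf_eq, hS n]
  refine ⟨⟨?_, ?_⟩, hset'⟩
  · -- finite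
    have hG := hGRQ G X
    have hn0N : n0 ∈ X.NQs := ⟨hTo, v, rfl, hell, hax2, hFT⟩
    have hsub : compR X.Y1 X.sQ X.tQ n0 ⊆ X.NQs := by
      intro n h
      have h' : Relation.ReflTransGen (stepR X.Y1 X.sQ X.tQ) n0 n := h
      induction h' with
      | refl => exact hn0N
      | tail _ hpq _ =>
        obtain ⟨b, hb, h | h⟩ := hpq
        · exact hG.tN b hb _ h.2
        · exact hG.sN b hb _ h.1
    refine Set.Finite.of_injOn (f := fun n : X.NP => orbit G n)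
      (t := (fun x : X.NP => orbit G x) '' X.NQs) ?_ ?_ hG.finX
    · intro n hn
      exact ⟨n, hsub hn, rfl⟩
    · intro n hn n' hn' h
      obtain ⟨g, hg⟩ := orbit_eq_iff'.1 h
      -- g n0 is in the component of n0
      have hequi : ∀ p q : X.NP, Relation.ReflTransGen (stepR X.Y1 X.sQ X.tQ) p q →
          Relation.ReflTransGen (stepR X.Y1 X.sQ X.tQ) (g • p) (g • q) := by
        intro p q h
        induction h with
        | refl => exact Relation.ReflTransGen.refl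
        | tail _ hpq ih =>
          refine ih.tail ?_
          obtain ⟨b, hb, h | h⟩ := hpq
          · refine ⟨g • b, hG.smulY g b hb, Or.inl ⟨?_, ?_⟩⟩
            · rw [hG.sE g b hb, h.1]; rfl
            · rw [hG.tE g b hb, h.2]; rfl
          · refine ⟨g • b, hG.smulY g b hb, Or.inr ⟨?_, ?_⟩⟩
            · rw [hG.sE g b hb, h.1]; rfl
            · rw [hG.tE g b hb, h.2]; rfl
      have h1 : g • n0 ∈ compR X.Y1 X.sQ X.tQ n0 := by
        have h2 := cmp_rtg_symm X (hequi _ _ hn)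
        rw [hg] at h2
        exact Relation.ReflTransGen.trans hn' h2
      rw [hset] at h1
      have h3 : g • n0 = n0 := by
        rcases h1 with h1 | ⟨v', y, a, c, -, -, -, -, -, -, -, h1⟩
        · exact h1
        · exfalso
          have : g • n0 = Sum.inr (g • (cl X.D X.K v, u, w)) := rfl
          rw [this] at h1
          exact Sum.inr_ne_inl h1
      have h4 := hG.freeX g n0 hn0N h3
      rw [← hg, h4, one_smul]
  · -- no edge to none
    intro q hq b hb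
    have hcore : ∀ x1 y1 z1 u1 w1, X.D.T.Adj u1 w1 → X.P.N x1 w1 = u1 →
        X.spN x1 y1 u1 w1 = some q → (X.spN x1 z1 u1 w1).isSome := by
      intro x1 y1 z1 u1 w1 h1 h2 h6
      rw [hset] at hq
      have hx1 : x1 ∈ cl X.D X.K v ∧ ((u1 = u ∧ w1 = w) ∨ (u1 = w ∧ w1 = u)) := by
        rcases hq with rfl | ⟨v', y, a, c, hac, hv', i1, i2, i3, i4, i5, rfl⟩
        · rcases cmp_sp_cases X h6 with ⟨-, h9⟩ | ⟨g1, g2, g3, h9⟩
          · exact absurd h9 (by rw [hn0]; simp)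
          · obtain ⟨g4, g5⟩ := cmp_cn_inv X h1 h9.symm
            exact ⟨by rw [← g4]; exact Relation.ReflTransGen.refl, g5⟩
        · obtain ⟨rfl, rfl, rfl, rfl, -, -, -⟩ := cmp_sp_inl X h6
          exact ⟨hv', hac⟩
      obtain ⟨f1, f2, f3, f4, f5, f6⟩ := hfact x1 hx1.1 u1 w1 hx1.2
      by_cases hq : Fr X.K x1 z1 ∧ X.Hon x1 z1 u1 ∧ X.Hon x1 z1 w1
      · rw [cmp_sp_hon X hq.1 hq.2.1 hq.2.2]; rfl
      · rw [cmp_sp_cl X hq f1 f4]; rfl
    obtain ⟨h1, h2, h3, h4, h5⟩ := cmp_dst X hb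
    constructor
    · intro h
      exact hcore b.x b.y b.z b.w (X.P.N b.y b.w) h1 h2 h
    · intro h
      exact hcore b.x b.z b.y b.w (X.P.N b.y b.w) h1 h2 h


theorem cmp_3 (hTFD : ST_TFD) (hHON : ST_HON) (x : X.V) (u w : X.U) (C : Set X.V)
    (hpl : X.IsPl x u w C) (y : X.V) (hy : y ∈ C) :
    (Sum.inl (x, y, u, w) : X.NP) ∈ X.NQs ∧
    C = X.LCe x y u w ∧ goodR X.Y1 X.sQ X.tQ (.inl (x, y, u, w)) := by
  obtain ⟨hT, hx, ⟨y0, hadj0, hy0, hC⟩, hfin, hfr, y1, hy1, y2, hy2, hne12⟩ := hpl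
  have hsymm : ∀ a b, Relation.ReflTransGen
      (fun p q => X.K.tri x p q ∧ X.P.N p u = w ∧ X.P.N q u = w) a b →
      Relation.ReflTransGen
      (fun p q => X.K.tri x p q ∧ X.P.N p u = w ∧ X.P.N q u = w) b a := by
    intro a b h
    induction h with
    | refl => exact Relation.ReflTransGen.refl
    | tail _ h ih =>
      exact Relation.ReflTransGen.head ⟨(X.K.tri_perm h.1).2.2.2.1, h.2.2, h.2.1⟩ ih
  have hmem : ∀ y ∈ C, X.K.adj x y ∧ X.P.N y u = w := by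
    intro y hy
    rw [hC] at hy
    rcases Relation.ReflTransGen.cases_tail hy with h | ⟨r, -, h⟩
    · rw [h]; exact ⟨hadj0, hy0⟩
    · exact ⟨(X.K.tri_adj' h.1).2.2.2.2.2, h.2.2⟩
  have hCy : ∀ y ∈ C, C = X.LCe x y u w := by
    intro y hy
    rw [hC] at hy
    rw [hC]
    ext a
    constructor
    · intro ha
      exact Relation.ReflTransGen.trans (hsymm _ _ hy) ha
    · intro ha
      exact Relation.ReflTransGen.trans hy ha
  have hnb : ∀ y ∈ C, ∃ z ∈ C, X.K.tri x y z ∧ X.P.N z u = w := by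
    intro y hy
    have hex : ∃ y' ∈ C, y ≠ y' := by
      by_cases h : y = y1
      · exact ⟨y2, hy2, h ▸ hne12⟩
      · exact ⟨y1, hy1, h⟩
    obtain ⟨y', hy', hne⟩ := hex
    have hCy' := hCy y hy
    have h1 : Relation.ReflTransGen
      (fun p q => X.K.tri x p q ∧ X.P.N p u = w ∧ X.P.N q u = w) y y' := by
      have := hy'
      rw [hCy'] at this
      exact this
    rcases Relation.ReflTransGen.cases_head h1 with h | ⟨z, h, -⟩
    · exact absurd h hne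
    · refine ⟨z, ?_, h.1, h.2.2⟩
      rw [hCy']
      exact Relation.ReflTransGen.single h
  have hhon : ∀ y ∈ C, X.Hon x y u ∧ X.Hon x y w := by
    intro y hy
    obtain ⟨z, hz, ht, hzu⟩ := hnb y hy
    rcases cmp_C X hHON hT hx ht (hmem y hy).2 hzu (hfr y hy) with h | h
    · exact h
    · exfalso
      obtain ⟨-, h2⟩ := cmp_dp X hHON hT hx (hmem y hy).1 (hmem y hy).2 (hfr y hy) h
      obtain ⟨-, -, h3⟩ := h2
      apply h3
      have := hfin
      rw [hCy y hy] at this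
      exact this
  have hNQ : ∀ y ∈ C, (Sum.inl (x, y, u, w) : X.NP) ∈ X.NQs := by
    intro y hy
    refine ⟨⟨(hmem y hy).1, hfr y hy, ?_⟩, ⟨hT, hx, (hmem y hy).2⟩, (hhon y hy).1, (hhon y hy).2⟩
    intro h
    exact cmp_nf X hT hx (by rw [h, (hmem y hy).2])
  have hcomp : ∀ n ∈ compR X.Y1 X.sQ X.tQ (.inl (x, y, u, w)),
      ∃ y' ∈ C, n = .inl (x, y', u, w) := by
    intro n h
    have h' : Relation.ReflTransGen (stepR X.Y1 X.sQ X.tQ) (.inl (x, y, u, w)) n := h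
    induction h' with
    | refl => exact ⟨y, hy, rfl⟩
    | @tail p q hp hpq ih =>
      obtain ⟨y', hy', rfl⟩ := ih hp
      obtain ⟨x1, y1, z1, u1, w1, h1, h2, h3, h4, h5, h6, h7, h8⟩ := cmp_step X hpq
      obtain ⟨rfl, rfl, rfl, rfl, -, -, -⟩ := cmp_sp_inl X h6
      have hz1 : z1 ∈ C := by
        rw [hCy _ hy']
        exact Relation.ReflTransGen.single ⟨h5, h3, h4⟩
      rw [cmp_sp_hon X (hfr z1 hz1) (hhon z1 hz1).1 (hhon z1 hz1).2] at h7
      exact ⟨z1, hz1, (Option.some.inj h7).symm⟩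
  refine ⟨hNQ y hy, hCy y hy, ?_, ?_⟩
  · refine (hfin.image (fun y' : X.V => (Sum.inl (x, y', u, w) : X.NP))).subset ?_
    intro n hn
    obtain ⟨y', hy', rfl⟩ := hcomp n hn
    exact ⟨y', hy', rfl⟩
  · intro q hq b hb
    obtain ⟨y', hy', rfl⟩ := hcomp q hq
    have hcore : ∀ x1 y1 z1 u1 w1, X.D.T.Adj u1 w1 → X.P.N x1 w1 = u1 →
        X.K.tri x1 y1 z1 → X.P.N y1 u1 = w1 → X.P.N z1 u1 = w1 →
        X.spN x1 y1 u1 w1 = some (.inl (x, y', u, w)) → (X.spN x1 z1 u1 w1).isSome := by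
      intro x1 y1 z1 u1 w1 h1 h2 h3 h4 h5 h6
      obtain ⟨rfl, rfl, rfl, rfl, -, -, -⟩ := cmp_sp_inl X h6
      have hz1 : z1 ∈ C := by
        rw [hCy _ hy']
        exact Relation.ReflTransGen.single ⟨h3, h4, h5⟩
      rw [cmp_sp_hon X (hfr z1 hz1) (hhon z1 hz1).1 (hhon z1 hz1).2]; rfl
    obtain ⟨h1, h2, h3, h4, h5⟩ := cmp_dst X hb
    constructor
    · intro h
      exact hcore b.x b.y b.z b.w (X.P.N b.y b.w) h1 h2 h4 rfl h3 h
    · intro h
      exact hcore b.x b.z b.y b.w (X.P.N b.y b.w) h1 h2 (X.K.tri_perm h4).2.2.2.1 h3 rfl h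

theorem cmp_4 (hHON : ST_HON) (x y : X.V) (u w : X.U)
    (hn : (Sum.inl (x, y, u, w) : X.NP) ∈ X.NQs) :
    ((∃ b ∈ X.Y1, X.sQ b = some (.inl (x, y, u, w)) ∨ X.tQ b = some (.inl (x, y, u, w))) ↔
      ∃ z, X.K.tri x y z ∧ X.P.N z u = w) ∧
    ((∃ z, X.K.tri x y z ∧ X.P.N z u = w) ∨ (∃ z, X.K.tri x y z ∧ X.P.N z w = u)) ∧
    ((Sum.inl (y, x, w, u) : X.NP) ∈ X.NQs) := by
  obtain ⟨⟨hadj, hfr, hne⟩, ⟨hT, hx, hy⟩, hu, hw⟩ := hn
  refine ⟨⟨?_, ?_⟩, ?_, ?_⟩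
  · rintro ⟨b, hb, h | h⟩
    · obtain ⟨h1, h2, h3, h4, h5⟩ := cmp_dst X hb
      obtain ⟨e1, e2, e3, e4, -, -, -⟩ := cmp_sp_inl X h
      refine ⟨b.z, ?_, ?_⟩
      · rw [e1, e2]; exact h4
      · rw [e3, h3, e4]
    · obtain ⟨h1, h2, h3, h4, h5⟩ := cmp_dst X hb
      obtain ⟨e1, e2, e3, e4, -, -, -⟩ := cmp_sp_inl X h
      refine ⟨b.y, ?_, ?_⟩
      · rw [e1, e2]; exact (X.K.tri_perm h4).2.2.2.1
      · rw [e3, e4]
  · rintro ⟨z, hz, hzu⟩
    obtain ⟨b, hb, hs, ht⟩ := cmp_mk X hT hx hz hy hzu (Or.inl ⟨hfr, hu⟩)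
    exact ⟨b, hb, Or.inl (by rw [hs, cmp_sp_hon X hfr hu hw])⟩
  · have hfin : Finite ↥(stabilizer G x ⊓ stabilizer G y) := by
      have : stabilizer G x ⊓ stabilizer G y = ⊥ := by
        rw [Subgroup.eq_bot_iff_forall]
        intro g hg
        exact hfr g hg.1 hg.2
      rw [this]; infer_instance
    obtain ⟨z, hz⟩ := X.red.R1 x y hadj hfin
    by_cases h : X.P.N z u = w
    · exact Or.inl ⟨z, hz, h⟩
    · exact Or.inr ⟨z, hz, cmp_fn X hT h⟩
  · have hFC : X.FC2 x y := ⟨hadj, hfr, hne⟩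
    obtain ⟨-, -, -, h4, -⟩ := hHON G X x y hFC
    exact ⟨⟨X.K.symm _ _ hadj, hfr.symm, hne.symm⟩, ⟨hT.symm, hy, hx⟩, (h4 w).1 hw, (h4 u).1 hu⟩

theorem cmp_5 (hHON : ST_HON) (v y : X.V) (u w : X.U) (hell : ¬ EllV X.D X.K v)
    (hax : Ax X.P v u w) (hy : y ∈ Sset X.P v u w) (hfr : Fr X.K v y)
    (hz : ∃ z, X.K.tri v y z ∧ X.P.N z w ≠ u) : X.Hon v y u ∧ X.Hon v y w := by
  obtain ⟨z, hz, hzw⟩ := hz
  obtain ⟨hadj, hyw, hinf⟩ := hy
  obtain ⟨a1, a2, a3⟩ := hax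
  have hT : X.D.T.Adj u w := by
    have := ((X.P.fN v).1 u).resolve_left a3
    rwa [a1] at this
  -- v u = w, y w = u
  have hvw : X.P.N v w ≠ u := cmp_nf X hT.symm a1
  have hyu : X.P.N y u ≠ w := cmp_nf X hT hyw
  have hne : X.P.N v ≠ X.P.N y := fun h => hvw (by rw [h, hyw])
  have hFC : X.FC2 v y := ⟨hadj, hfr, hne⟩
  have hFC' : X.FC2 y v := ⟨X.K.symm _ _ hadj, hfr.symm, hne.symm⟩
  obtain ⟨h1, -, -, -, -, -, -, h8, -⟩ := hHON G X v y hFC
  obtain ⟨-, -, -, -, -, -, -, h8', -⟩ := hHON G X y v hFC'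
  have honu : OnI (X.P.N v) (X.P.N y) u := fun h => absurd (h.symm.trans a1) hyu
  have honw : OnI (X.P.N v) (X.P.N y) w := fun h => absurd (h.trans hyw) hvw
  have hnD1 : ¬ X.Dp v y w := by
    intro h
    obtain ⟨h2, -, -⟩ := h8 z w hz h
    exact hzw (by rw [← h2, hyw])
  have hnD2 : ¬ X.Dp v y u := by
    rintro ⟨_, k, hk⟩
    apply hnD1
    refine ⟨hell, k + 1, ?_⟩
    rw [Function.iterate_succ_apply', ← hk, a1]
  -- a neighbour of y in S
  obtain ⟨z', hz', hz'w⟩ : ∃ z', X.K.tri v y z' ∧ X.P.N z' w = u := by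
    have hnt : Set.Nontrivial {y' | Relation.ReflTransGen
      (fun p q => X.K.tri v p q ∧ X.P.N p w = u ∧ X.P.N q w = u) y y'} :=
      Set.Infinite.nontrivial hinf
    obtain ⟨y', hy', hne'⟩ := hnt.exists_ne y
    rcases Relation.ReflTransGen.cases_head hy' with h | ⟨r, h, -⟩
    · exact absurd h.symm hne'
    · exact ⟨r, h.1, h.2.2⟩
  have hnD3 : ¬ X.Dp y v u := by
    intro h
    obtain ⟨h2, -, -⟩ := h8' z' u (X.K.tri_swap _ _ _ hz') h
    exact cmp_nf X hT hz'w (by rw [← h2, a1])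
  have hnD4 : ¬ X.Dp y v w := by
    rintro ⟨h0, k, hk⟩
    apply hnD3
    refine ⟨h0, k + 1, ?_⟩
    rw [Function.iterate_succ_apply', ← hk, hyw]
  refine ⟨?_, ?_⟩
  · rcases (h1 u).1 honu with h | h | h
    · exact h
    · exact absurd h hnD2
    · exact absurd h hnD3
  · rcases (h1 w).1 honw with h | h | h
    · exact h
    · exact absurd h hnD1
    · exact absurd h hnD4

theorem st_CMP (hTFD : ST_TFD) (hHON : ST_HON) (hCLU : ST_CLU) (hSL : ST_SL)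
    (hGRQ : ST_GRQ) : ST_CMP := by
  intro G _ X
  exact ⟨fun x y u w hn hg => cmp_1 X hTFD hHON hCLU hSL x y u w hn hg,
    fun v u w hT hc => cmp_2 X hTFD hHON hCLU hSL hGRQ v u w hT hc,
    fun x u w C hpl y hy => cmp_3 X hTFD hHON x u w C hpl y hy,
    fun x y u w hn => cmp_4 X hHON x y u w hn,
    fun v y u w h1 h2 h3 h4 h5 => cmp_5 X hHON v y u w h1 h2 h3 h4 h5⟩

end Pool.Agent.Helper93.HZ
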