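import Pool.Agent.Helper93.HZ.Blow
import Pool.Agent.Helper93.HZ.Lib

/-! # HZ: COR (6.11) -/

set_option autoImplicit false

open MulAction Pointwise

namespace Pool.Agent.Helper93.HZ

open Ctx

theorem cor_fr_iff {G : Type} [Group G] {X : Ctx G} {K2 : Cx G} {e : K2.V → AV X.Q}
    (he : Function.Injective e) (heq : ∀ (g : G) p, e (g • p) = g • e p) (p q : K2.V) :
    Fr K2 p q ↔ ∀ g : G, g • e p = e p → g • e q = e q → g = 1 := by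
  constructor
  · intro h g h1 h2
    exact h g (he (by rw [heq, h1])) (he (by rw [heq, h2]))
  · intro h g h1 h2
    exact h g (by rw [← heq, h1]) (by rw [← heq, h2])

theorem cor_stab {G : Type} [Group G] {X : Ctx G} {K2 : Cx G} {e : K2.V → AV X.Q}
    (he : Function.Injective e) (heq : ∀ (g : G) p, e (g • p) = g • e p) (p : K2.V) :
    stabilizer G p = stabilizer G (e p) := by
  ext g
  rw [mem_stabilizer_iff, mem_stabilizer_iff, ← heq]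
  exact ⟨fun h => by rw [h], fun h => he h⟩

theorem st_COR (hRSYM : ST_RSYM) (hRES : ST_RES) (hPRU : ST_PRU) (hN2 : ST_N2) (hKA : ST_KA) (hKB : ST_KB)
    (hDDS : ST_DDS) (hCNT : ST_CNT) (hL2 : ST_L2) (hDEL : ST_DEL) (hIDN : ST_IDN)
    (hGRS : ST_GRS) (hGRP : ST_GRP) : ST_COR := by
  intro G _ X
  obtain ⟨rs1, rs2, rs3, rs4, rs5, rs6, rs7⟩ := hRSYM G X.D X.K X.P X.Q
  obtain ⟨K2, e, he, heq, hran, hadj, htri, hr⟩ := hRES G X.D X.K X.P X.Q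
  have hrmin : RMin X.K := X.nmax.1
  have hr1 : rr K2 ≤ rr X.K := by
    refine hr.trans (oc_mono X.K.finT ?_)
    rintro s ⟨x, y, z, h, -, rfl⟩
    exact ⟨x, y, z, h, rfl⟩
  have hr2 : rr K2 = rr X.K := le_antisymm hr1 (hrmin K2)
  have hrmin2 : RMin K2 := fun L => by rw [hr2]; exact hrmin L
  -- vertices with finite nontrivial stabilizer
  have hn1 : nn X.K ≤ nn K2 := by
    refine (hN2 G X.D X.K X.P X.Q X.red hrmin X.nd).trans ?_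
    have h1 : {p : AV X.Q | (∃ q r, atri X.Q p q r) ∧ Finite (stabilizer G p) ∧
        stabilizer G p ≠ ⊥} ⊆ e '' {x : K2.V | (∃ y z, K2.tri x y z) ∧
          Finite (stabilizer G x) ∧ stabilizer G x ≠ ⊥} := by
      rintro p ⟨⟨q, r, hpqr⟩, h2, h3⟩
      obtain ⟨p', rfl⟩ := (hran p).2 ⟨q, rs3 _ _ _ hpqr⟩
      obtain ⟨q', rfl⟩ := (hran q).2 ⟨r, rs3 _ _ _ (rs4 _ _ _ hpqr)⟩
      obtain ⟨r', rfl⟩ := (hran r).2 ⟨_, rs3 _ _ _ (rs4 _ _ _ (rs4 _ _ _ hpqr))⟩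
      refine ⟨p', ⟨⟨q', r', (htri _ _ _).2 hpqr⟩, ?_, ?_⟩, rfl⟩
      · rw [cor_stab he heq]; exact h2
      · rw [cor_stab he heq]; exact h3
    have hf : FinOrb G {x : K2.V | (∃ y z, K2.tri x y z) ∧
          Finite (stabilizer G x) ∧ stabilizer G x ≠ ⊥} :=
      K2.finOrb_tv.1.mono (fun x hx => hx.1)
    refine (oc_mono ((finOrb_image_inj e he heq _).2 hf) h1).trans ?_
    rw [oc_image_inj e he heq]
    exact le_rfl
  have hn2 : nn K2 = nn X.K := le_antisymm (X.nmax.2 K2 hr2) hn1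
  obtain ⟨K3, i, ρ, hsub, hρi, hρ, htri3, hadj3, hred, hr3, hn3, hd3⟩ := hPRU G X.D K2 hrmin2
  -- free darts of K2
  have hdd2 : dd K2 = oc G {p : AV X.Q × AV X.Q | aadj X.Q p.1 p.2 ∧
      ∀ g : G, g • p.1 = p.1 → g • p.2 = p.2 → g = 1} := by
    have h1 : {p : AV X.Q × AV X.Q | aadj X.Q p.1 p.2 ∧
        ∀ g : G, g • p.1 = p.1 → g • p.2 = p.2 → g = 1} =
        (fun p : K2.V × K2.V => (e p.1, e p.2)) ''
          {p : K2.V × K2.V | K2.adj p.1 p.2 ∧ Fr K2 p.1 p.2} := by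
      ext ⟨p, q⟩
      constructor
      · rintro ⟨h1, h2⟩
        obtain ⟨p', rfl⟩ := (hran p).2 ⟨_, h1⟩
        obtain ⟨q', rfl⟩ := (hran q).2 ⟨_, rs1 _ _ h1⟩
        exact ⟨(p', q'), ⟨(hadj _ _).2 h1, (cor_fr_iff he heq _ _).2 h2⟩, rfl⟩
      · rintro ⟨⟨p', q'⟩, ⟨h1, h2⟩, h3⟩
        obtain ⟨rfl, rfl⟩ := Prod.ext_iff.1 h3
        exact ⟨(hadj _ _).1 h1, (cor_fr_iff he heq _ _).1 h2⟩
    rw [h1, oc_image_inj]
    · rfl
    · rintro ⟨p, q⟩ ⟨p', q'⟩ h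
      obtain ⟨h1, h2⟩ := Prod.ext_iff.1 h
      exact Prod.ext (he h1) (he h2)
    · rintro g ⟨p, q⟩
      exact Prod.ext (heq g p) (heq g q)
  have hA := hKA G X
  rw [← hdd2] at hA
  have hB := hKB G X K2 K3 e i he heq hran hadj hsub hred.R3
  have hS := hDDS G X
  have hC := hCNT G X
  obtain ⟨Φ, Ψ, hΦdel, hΦ, hΨ, hΦΨ⟩ := hDEL G X
  have hmap : ∀ b ∈ cycR X.BN X.sS X.tS X.NSs, Φ b ∈ cycR X.BN X.sP X.tP X.NPs := by
    rintro b ⟨h1, h2, h3⟩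
    refine ⟨hΦ.supp b h1, ?_, ?_⟩
    · obtain ⟨C, hC⟩ := hΦ.bdd
      exact (hC b h1 h2).1
    · intro n hn
      rw [hΦdel]
      exact hIDN G X b h1 h3 n hn
  obtain ⟨hL1, hL2'⟩ := hL2 G (Band G X) X.BN X.NS X.NSs X.sS X.tS X.NP X.NPs X.sP X.tP Φ Ψ
    (hGRS G X) (hGRP G X) hΦ hΨ hΦΨ hmap
  have hd4 : dd K3 ≤ dd X.K := by omega
  refine ⟨K2, K3, e, i, ρ, he, heq, hran, hadj, htri, hsub, hρi, hρ, hred, by rw [hr3, hr2],
    by rw [hn3, hn2], hd4, ?_⟩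
  intro hopt z hz
  have h5 : dd X.K ≤ dd K3 := hopt.2 K3 (by rw [hr3, hr2]) (by rw [hn3, hn2])
  have h6 : cR X.BN X.sS X.tS G X.NSs + oc G X.NPs = cR X.BN X.sP X.tP G X.NPs + oc G X.NSs := by
    omega
  refine ⟨Ψ z, hL2' h6 z hz, ?_⟩
  rw [← hΦdel]
  exact (hΦΨ z hz.1).2

end Pool.Agent.Helper93.HZ
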