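import Pool.Agent.Helper93.HZ.Blow

/-! # HZ: FINAL — the frozen negation from the module statements -/

set_option autoImplicit false

namespace Pool.Agent.Helper93.HZ

theorem final_result (hEND : ST_END) (hEX : ST_EX) (hBST : ST_BST) (hOPT : ST_OPT)
    (hPRU : ST_PRU) (hSTEP : ST_STEP) (hM : ST_M) (hFIN : ST_FIN) :
    ¬ (∃ (G : Type) (_ : Group G),
    (∃ (n : ℕ) (rels : Set (FreeGroup (Fin n))),
        rels.Finite ∧ Nonempty (PresentedGroup rels ≃* G)) ∧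
    (∃ S : Finset G, Subgroup.closure (S : Set G) = ⊤ ∧
      Nonempty (Unique (SimpleGraph.end
        (SimpleGraph.fromRel (fun x y : G => ∃ s ∈ S, y = x * s))))) ∧
    ∃ (a b : G), ¬ IsOfFinOrder a ∧ ¬ IsOfFinOrder b ∧
      ∃ φ : Subgroup.zpowers a ≃* Subgroup.zpowers b,
        ((φ ⟨a, Subgroup.mem_zpowers a⟩ : Subgroup.zpowers b) : G) = b ∧
        Nonempty (HNNExtension G (Subgroup.zpowers a) (Subgroup.zpowers b) φ ≃* G)) := by
  rintro ⟨G, _, hfp, ⟨S, hS, hend⟩, a, b, ha, hb, φ, hφ, hiso⟩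
  have h1 : OneEnd G := hEND G S hS hend
  obtain ⟨D⟩ := hBST G a b ha hb h1 φ hφ hiso
  have h2 : Nonempty (Cx G) := hEX G h1.1 hfp
  obtain ⟨⟨K, hK⟩, -⟩ := hOPT G h2
  obtain ⟨K', i, ρ, -, -, -, -, -, hred, hr, hn, hd⟩ := hPRU G D K hK.1.1
  have hK' : Opt K' := by
    refine ⟨⟨fun L => ?_, fun L hL => ?_⟩, fun L hL hL2 => ?_⟩
    · rw [hr]; exact hK.1.1 L
    · rw [hn]; exact hK.1.2 L (by rw [hL, hr])
    · exact hd.trans (hK.2 L (by rw [hL, hr]) (by rw [hL2, hn]))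
  exact hFIN G D K' hK' hred (fun L hL hLr => hSTEP G D L hL hLr)
    (fun L hL hLr x hx g hg ψ => hM G D L hL hLr x hx g hg ψ)

end Pool.Agent.Helper93.HZ
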