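import Pool.Agent.Helper93.HZ.Spec3
import Pool.Agent.Helper93.HZ.MM

/-! # HZ: DDS, THR0, NDM -/

set_option autoImplicit false

open MulAction Pointwise

namespace Pool.Agent.Helper93.HZ

open Ctx

theorem st_DDS : ST_DDS := by
  intro G _ X
  have hA : FinOrb G {p : X.V × X.V | X.K.adj p.1 p.2 ∧ Fr X.K p.1 p.2 ∧
      X.P.N p.1 = X.P.N p.2} := X.K.finE.mono (fun p hp => hp.1)
  have hB : FinOrb G {p : X.V × X.V | X.FC2 p.1 p.2} := X.K.finE.mono (fun p hp => hp.1)
  rw [← oc_union hA hB]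
  · unfold dd
    congr 1
    ext p
    constructor
    · rintro ⟨h1, h2⟩
      by_cases h : X.P.N p.1 = X.P.N p.2
      · exact Or.inl ⟨h1, h2, h⟩
      · exact Or.inr ⟨h1, h2, h⟩
    · rintro (⟨h1, h2, -⟩ | ⟨h1, h2, -⟩)
      · exact ⟨h1, h2⟩
      · exact ⟨h1, h2⟩
  · rintro x ⟨-, -, h⟩ y ⟨-, -, h'⟩ g rfl
    exact h' ((X.P.N_eq_smul g).2 h)

open Classical in
theorem st_THR0 (hTFA : ST_TFA) : ST_THR0 := by
  intro G _ D K P
  -- the condition
  let C : K.V → K.V → D.U → Prop := fun x y c =>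
    (EllV D K x → P.N x c = c) ∧ (¬ EllV D K x → P.N x ≠ P.N y →
      OnI (P.N x) (P.N y) c ∧ P.N x c ≠ P.M x c)
  have hCe : ∀ (g : G) x y c, C x y c → C (g • x) (g • y) (g • c) := by
    intro g x y c ⟨h1, h2⟩
    refine ⟨fun h => ?_, fun h hne => ?_⟩
    · rw [P.eN, h1 ((EllV_smul_iff g).1 h)]
    · obtain ⟨h3, h4⟩ := h2 (fun h' => h ((EllV_smul_iff g).2 h'))
        (fun h' => hne ((P.N_eq_smul g).2 h'))
      refine ⟨?_, ?_⟩
      · intro h5
        rw [P.eN, P.eN] at h5
        rw [P.eN, h3 (smul_left_cancel g h5)]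
      · intro h5
        rw [P.eN, P.eM] at h5
        exact h4 (smul_left_cancel g h5)
  have hex : ∀ x y, ∃ c, C x y c := by
    intro x y
    by_cases hx : EllV D K x
    · obtain ⟨u, hu⟩ := P.ell x hx
      exact ⟨u, fun _ => hu, fun h => absurd hx h⟩
    · by_cases hne : P.N x = P.N y
      · exact ⟨D.u0, fun h => absurd h hx, fun _ h => absurd hne h⟩
      · obtain ⟨hN, hM, -, u, hu⟩ := P.hyp x hx
        have h1 : ∃ k : ℕ, P.N y ((P.N x)^[k] u) ≠ P.N x ((P.N x)^[k] u) := by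
          by_contra hcon
          push Not at hcon
          exact hne ((hTFA D.U D.T D.tree).2 (P.N x) (P.N y) (P.fN x) (P.fN y) ⟨u, hcon⟩)
        obtain ⟨k, hk⟩ := h1
        refine ⟨(P.N x)^[k] u, fun h => absurd h hx, fun _ _ => ⟨fun h => absurd h.symm hk, ?_⟩⟩
        exact (mm_iter (P.fM x) (P.fN x) hN k u hu.symm).2.symm
  choose q hq using hex
  -- representatives of orbits of pairs
  let r : K.V × K.V → K.V × K.V := fun p => (Quotient.out (s := orbitRel G (K.V × K.V))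
    (Quotient.mk _ p))
  have hr : ∀ p, ∃ g : G, g • r p = p := by
    intro p
    have h1 : (orbitRel G (K.V × K.V)).r (r p) p := Quotient.exact (Quotient.out_eq _)
    have h2 : r p ∈ orbit G p := h1
    obtain ⟨g, hg⟩ := h2
    exact ⟨g⁻¹, by rw [← hg]; exact inv_smul_smul g p⟩
  have hre : ∀ (g : G) p, r (g • p) = r p := by
    intro g p
    show Quotient.out _ = Quotient.out _
    congr 1
    apply Quotient.sound
    exact ⟨g, rfl⟩
  choose γ hγ using hr
  let Q : K.V → K.V → D.U := fun x y =>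
    if Fr K x y then γ (x, y) • q (r (x, y)).1 (r (x, y)).2 else q x y
  have hQ : ∀ x y, C x y (Q x y) := by
    intro x y
    by_cases h : Fr K x y
    · have h1 := hCe (γ (x, y)) _ _ _ (hq (r (x, y)).1 (r (x, y)).2)
      have h2 : γ (x, y) • (r (x, y)).1 = x := congrArg Prod.fst (hγ (x, y))
      have h3 : γ (x, y) • (r (x, y)).2 = y := congrArg Prod.snd (hγ (x, y))
      rw [h2, h3] at h1
      show C x y (if Fr K x y then _ else _)
      rw [if_pos h]
      exact h1
    · show C x y (if Fr K x y then _ else _)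
      rw [if_neg h]
      exact hq x y
  refine ⟨⟨Q, ?_, fun x y _ h => (hQ x y).1 h, fun x y _ _ h hne => (hQ x y).2 h hne⟩⟩
  intro g x y _ hfr
  show (if Fr K (g • x) (g • y) then _ else _) = g • (if Fr K x y then _ else _)
  rw [if_pos (Fr_smul g hfr), if_pos hfr]
  have h1 : r (g • x, g • y) = r (x, y) := hre g (x, y)
  rw [h1, ← mul_smul]
  congr 1
  have h2 := hγ (g • x, g • y)
  have h3 := hγ (x, y)
  rw [h1] at h2
  have h4 : ((g * γ (x, y))⁻¹ * γ (g • x, g • y)) • r (x, y) = r (x, y) := by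
    rw [mul_smul, h2, mul_inv_rev, mul_smul]
    have : g⁻¹ • ((g • x, g • y) : K.V × K.V) = (x, y) := by
      rw [← Prod.smul_mk, inv_smul_smul]
    rw [this, inv_smul_eq_iff]
    exact h3.symm
  have hfr' : Fr K (r (x, y)).1 (r (x, y)).2 := by
    have h5 : (r (x, y)) = (γ (x, y))⁻¹ • (x, y) := by
      rw [eq_inv_smul_iff]; exact h3
    rw [h5]
    exact Fr_smul _ hfr
  have h6 := hfr' _ (congrArg Prod.fst h4) (congrArg Prod.snd h4)
  rw [inv_mul_eq_one] at h6
  exact h6.symm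

theorem st_NDM (hRES : ST_RES) (hTHR0 : ST_THR0) : ST_NDM := by
  intro G _ D K P hred hmin x y hxy hN
  by_contra hcon
  have hell : ¬ EllV D K x := fun h => hcon (P.ell x h)
  obtain ⟨z, hz⟩ := (hred.R2 x (Or.inr hell)).2 y hxy
  obtain ⟨Q⟩ := hTHR0 G D K P
  obtain ⟨K2, e, -, -, -, -, -, hr⟩ := hRES G D K P Q
  have hlt : oc G {s : Set K.V | ∃ x y z, K.tri x y z ∧
      (∃ c, IsCenter (P.N x) (P.N y) (P.N z) c) ∧ s = {x, y, z}} < rr K := by
    refine Set.ncard_lt_ncard ?_ K.finT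
    refine ⟨?_, ?_⟩
    · apply Set.image_mono
      rintro s ⟨x, y, z, h, -, rfl⟩
      exact ⟨x, y, z, h, rfl⟩
    · intro hsub
      obtain ⟨s, ⟨x', y', z', ht, ⟨c, hc⟩, rfl⟩, hs⟩ := hsub ⟨{x, y, z}, ⟨x, y, z, hz, rfl⟩, rfl⟩
      obtain ⟨g, hg⟩ := orbit_eq_iff'.1 hs.symm
      -- g{x,y,z} = {x',y',z'}
      have hgx : g • x ∈ ({x', y', z'} : Set K.V) := by
        rw [← hg]; exact ⟨x, by simp, rfl⟩
      have hgy : g • y ∈ ({x', y', z'} : Set K.V) := by
        rw [← hg]; exact ⟨y, by simp, rfl⟩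
      have hne : g • x ≠ g • y := fun h => K.irrefl y (by
        have := smul_left_cancel g h
        rw [this] at hxy; exact hxy)
      have hNg : P.N (g • x) = P.N (g • y) := (P.N_eq_smul g).2 hN
      have hfix : P.N (g • x) c = c := by
        obtain ⟨c1, c2, c3⟩ := hc
        simp only [Set.mem_insert_iff, Set.mem_singleton_iff] at hgx hgy
        rcases hgx with h1 | h1 | h1 <;> rcases hgy with h2 | h2 | h2 <;>
          rw [h1, h2] at hNg hne <;> rw [h1]
        · exact absurd rfl hne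
        · exact c1 (congrFun hNg c)
        · exact c3 (congrFun hNg c)
        · rw [congrFun hNg c]; exact c1 (congrFun hNg c).symm
        · exact absurd rfl hne
        · exact c2 (congrFun hNg c)
        · rw [congrFun hNg c]; exact c3 (congrFun hNg c).symm
        · rw [congrFun hNg c]; exact c2 (congrFun hNg c).symm
        · exact absurd rfl hne
      apply hcon
      refine ⟨g⁻¹ • c, ?_⟩
      have h5 := P.eN g x (g⁻¹ • c)
      rw [smul_inv_smul, hfix] at h5
      rw [eq_inv_smul_iff]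
      exact h5.symm
  exact absurd (hmin K2) (not_le.2 (lt_of_le_of_lt hr hlt))

end Pool.Agent.Helper93.HZ
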