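import Pool.Agent.Helper93.HZ.Spec3
import Pool.Agent.Helper93.HZ.CMP
import Pool.Agent.Helper93.HZ.CLU

/-! # HZ: SPL (6.12, dimension count for the split graph) -/

set_option autoImplicit false

open MulAction Pointwise

namespace Pool.Agent.Helper93.HZ

open Ctx

variable {G : Type} [Group G] (X : Ctx G)

theorem spl_FT_symm {v : X.V} {u w : X.U} :
    Pool.Agent.Helper93.HZ.FT X.D X.K v u w ↔ Pool.Agent.Helper93.HZ.FT X.D X.K v w u := by
  constructor
  · intro h g h1 h2 h3; exact h g h1 h3 h2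
  · intro h g h1 h2 h3; exact h g h1 h3 h2

theorem spl_side (hTFD : ST_TFD) (hHON : ST_HON) {x y z : X.V} {a c : X.U}
    (hT : X.D.T.Adj a c) (hx : X.P.N x c = a) (hy : X.P.N y a = c) (ht : X.K.tri x y z)
    (hz : X.P.N z a = c) (m : Set X.V × X.U × X.U) :
    (X.spN x y a c = some (.inr m) ↔
      ((X.D.arr a c ∧ X.ptN x y a c = some (.inr m)) ∨
       (¬ X.D.arr a c ∧ X.ptN y x c a = some (.inr m)))) := by
  have hadj := (X.K.tri_adj' ht).1
  have hxa := cmp_nf X hT hx
  have hne : X.P.N x ≠ X.P.N y := fun h => hxa (by rw [h, hy])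
  by_cases hh : Fr X.K x y ∧ X.Hon x y a ∧ X.Hon x y c
  · have h1 : X.spN x y a c = some (.inl (x, y, a, c)) := cmp_sp_hon X hh.1 hh.2.1 hh.2.2
    have hFC : X.FC2 x y := ⟨hadj, hh.1, hne⟩
    obtain ⟨-, -, -, h4, -⟩ := hHON G X x y hFC
    have h2 : X.ptN x y a c = some (.inl (x, y, a, c)) := by
      unfold Ctx.ptN; rw [if_pos hh]
    have h3 : X.ptN y x c a = some (.inl (y, x, c, a)) := by
      unfold Ctx.ptN; rw [if_pos ⟨hh.1.symm, (h4 c).1 hh.2.2, (h4 a).1 hh.2.1⟩]
    rw [h1, h2, h3]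
    simp
  · -- not honest
    have hh' : ¬ (Fr X.K y x ∧ X.Hon y x c ∧ X.Hon y x a) := by
      intro h
      have hfr := h.1.symm
      have hFC : X.FC2 x y := ⟨hadj, hfr, hne⟩
      obtain ⟨-, -, -, h4, -⟩ := hHON G X x y hFC
      exact hh ⟨hfr, (h4 a).2 h.2.2, (h4 c).2 h.2.1⟩
    have hcase : Fr X.K x y → X.Dp x y a := by
      intro hfr
      rcases cmp_C X hHON hT hx ht hy hz hfr with h | h
      · exact absurd ⟨hfr, h⟩ hh
      · exact h
    have hcommon : ¬ Fr X.K x y → (EllV X.D X.K x ↔ EllV X.D X.K y) := by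
      intro hfr
      unfold Fr at hfr
      push Not at hfr
      obtain ⟨g, g1, g2, g3⟩ := hfr
      constructor
      · rintro ⟨u, hu⟩
        by_contra hcon
        exact g3 (mm_hyp hTFD X.P hcon g2 ⟨u, hu g g1⟩)
      · rintro ⟨u, hu⟩
        by_contra hcon
        exact g3 (mm_hyp hTFD X.P hcon g1 ⟨u, hu g g2⟩)
    classical
    by_cases hell : EllV X.D X.K x
    · have hnf : ¬ Fr X.K x y := fun hfr => (hcase hfr).1 hell
      have hely := (hcommon hnf).1 hell
      have h1 : X.spN x y a c = none := by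
        unfold Ctx.spN; rw [if_neg hh, if_neg (fun h => h hell)]
      have h2 : X.ptN x y a c = none := by
        unfold Ctx.ptN; rw [if_neg hh, if_neg (fun h => h.1 hell), if_neg (fun h => h.1 hely)]
      have h3 : X.ptN y x c a = none := by
        unfold Ctx.ptN; rw [if_neg hh', if_neg (fun h => h.1 hely), if_neg (fun h => h.1 hell)]
      rw [h1, h2, h3]
      simp
    · by_cases harr : X.D.arr a c
      · have h1 : X.spN x y a c = X.ptN x y a c := by
          have hcond : ¬ EllV X.D X.K x ∧ (¬ Fr X.K x y ∨ X.Dp x y a) := by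
            refine ⟨hell, ?_⟩
            by_cases hfr : Fr X.K x y
            · exact Or.inr (hcase hfr)
            · exact Or.inl hfr
          unfold Ctx.spN Ctx.ptN
          rw [if_neg hh, if_neg hh, if_pos hell, if_pos hcond, if_pos harr]
        rw [h1]
        constructor
        · intro h; exact Or.inl ⟨harr, h⟩
        · rintro (h | h)
          · exact h.2
          · exact absurd harr h.1
      · have h1 : X.spN x y a c = X.ptN y x c a := by
          by_cases hfr : Fr X.K x y
          · have hD := hcase hfr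
            have hnD : ¬ X.Dp y x c := by
              intro h
              have hFC' : X.FC2 y x := ⟨X.K.symm _ _ hadj, hfr.symm, hne.symm⟩
              obtain ⟨-, -, -, -, -, -, -, h8, -⟩ := hHON G X y x hFC'
              obtain ⟨h9, -, -⟩ := h8 z c (X.K.tri_swap _ _ _ ht) h
              rw [hx] at h9
              exact cmp_nf X hT.symm hz h9.symm
            have e1 : X.spN x y a c = if Pool.Agent.Helper93.HZ.FT X.D X.K x a c then
                some (Sum.inr (cl X.D X.K x, c, a)) else none := by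
              unfold Ctx.spN; rw [if_neg hh, if_pos hell, if_neg harr]
            have hneg : ¬ (¬ EllV X.D X.K y ∧ (¬ Fr X.K y x ∨ X.Dp y x c)) :=
              fun h => h.2.elim (fun h => h hfr.symm) hnD
            have hpos : ¬ EllV X.D X.K x ∧ X.Dp x y a := ⟨hell, hD⟩
            have e2 : X.ptN y x c a = if Pool.Agent.Helper93.HZ.FT X.D X.K x c a then
                some (Sum.inr (cl X.D X.K x, c, a)) else none := by
              unfold Ctx.ptN; rw [if_neg hh', if_neg hneg, if_pos hpos]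
            rw [e1, e2]
            by_cases hft : Pool.Agent.Helper93.HZ.FT X.D X.K x a c
            · rw [if_pos hft, if_pos ((spl_FT_symm X).1 hft)]
            · rw [if_neg hft, if_neg (fun h => hft ((spl_FT_symm X).2 h))]
          · have hely : ¬ EllV X.D X.K y := fun h => hell ((hcommon hfr).2 h)
            have hTF : TF X.D X.K x y := ⟨hadj, hell, hely, hfr⟩
            have hcl : cl X.D X.K y = cl X.D X.K x :=
              clu_cl_eq (Relation.ReflTransGen.single hTF)
            have hft : Pool.Agent.Helper93.HZ.FT X.D X.K x a c ↔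
                Pool.Agent.Helper93.HZ.FT X.D X.K y c a := by
              rw [spl_FT_symm]
              unfold Pool.Agent.Helper93.HZ.FT
              rw [hcl]
            have e1 : X.spN x y a c = if Pool.Agent.Helper93.HZ.FT X.D X.K x a c then
                some (Sum.inr (cl X.D X.K x, c, a)) else none := by
              unfold Ctx.spN; rw [if_neg hh, if_pos hell, if_neg harr]
            have hpos : ¬ EllV X.D X.K y ∧ (¬ Fr X.K y x ∨ X.Dp y x c) :=
              ⟨hely, Or.inl (fun h => hfr h.symm)⟩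
            have e2 : X.ptN y x c a = if Pool.Agent.Helper93.HZ.FT X.D X.K y c a then
                some (Sum.inr (cl X.D X.K y, c, a)) else none := by
              unfold Ctx.ptN; rw [if_neg hh', if_pos hpos]
            rw [e1, e2]
            by_cases hft' : Pool.Agent.Helper93.HZ.FT X.D X.K x a c
            · rw [if_pos hft', if_pos (hft.1 hft'), hcl]
            · rw [if_neg hft', if_neg (fun h => hft' (hft.2 h))]
        rw [h1]
        constructor
        · intro h; exact Or.inr ⟨harr, h⟩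
        · rintro (h | h)
          · exact absurd h.1 harr
          · exact h.2

theorem spl_s (hTFD : ST_TFD) (hHON : ST_HON) {b : Band G X} (hb : b ∈ X.Y1)
    (m : Set X.V × X.U × X.U) : X.sQ b = some (.inr m) ↔ X.sP b = some (.inr m) := by
  obtain ⟨h1, h2, h3, h4, h5⟩ := cmp_dst X hb
  have h6 := spl_side X hTFD hHON h1 h2 rfl h4 h3 m
  have ho := hb.2
  show X.spN b.x b.y b.w (X.P.N b.y b.w) = _ ↔ _
  rw [h6]
  unfold Ctx.sP
  by_cases harr : X.D.arr b.w (X.P.N b.y b.w)
  · rw [if_pos (ho.2 harr)]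
    constructor
    · rintro (h | h)
      · exact h.2
      · exact absurd harr h.1
    · intro h; exact Or.inl ⟨harr, h⟩
  · rw [if_neg (fun h => harr (ho.1 h))]
    constructor
    · rintro (h | h)
      · exact absurd h.1 harr
      · exact h.2
    · intro h; exact Or.inr ⟨harr, h⟩

theorem spl_t (hTFD : ST_TFD) (hHON : ST_HON) {b : Band G X} (hb : b ∈ X.Y1)
    (m : Set X.V × X.U × X.U) : X.tQ b = some (.inr m) ↔ X.tP b = some (.inr m) := by
  obtain ⟨h1, h2, h3, h4, h5⟩ := cmp_dst X hb
  have h6 := spl_side X hTFD hHON h1 h2 h3 (X.K.tri_perm h4).2.2.2.1 rfl m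
  have ho := hb.2
  show X.spN b.x b.z b.w (X.P.N b.y b.w) = _ ↔ _
  rw [h6]
  unfold Ctx.tP
  by_cases harr : X.D.arr b.w (X.P.N b.y b.w)
  · rw [if_pos (ho.2 harr)]
    constructor
    · rintro (h | h)
      · exact h.2
      · exact absurd harr h.1
    · intro h; exact Or.inl ⟨harr, h⟩
  · rw [if_neg (fun h => harr (ho.1 h))]
    constructor
    · rintro (h | h)
      · exact absurd h.1 harr
      · exact h.2
    · intro h; exact Or.inr ⟨harr, h⟩

theorem spl_count (hHON : ST_HON) (hGRQ : ST_GRQ) (hGR1 : ST_GR1) :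
    oc G X.NQs = oc G X.NP1 + oc G X.NH1 := by
  let f : X.V × X.V × X.U × X.U → X.NP := fun n => .inl (n.2.1, n.1, n.2.2.2, n.2.2.1)
  have hfi : Function.Injective f := by
    rintro ⟨x, y, u, w⟩ ⟨x', y', u', w'⟩ h
    simp only [f, Sum.inl.injEq, Prod.mk.injEq] at h
    obtain ⟨h1, h2, h3, h4⟩ := h
    rw [h1, h2, h3, h4]
  have hfe : ∀ (g : G) n, f (g • n) = g • f n := by
    rintro g ⟨x, y, u, w⟩
    rfl
  have hflip : ∀ x y u w, (Sum.inl (x, y, u, w) : X.NP) ∈ X.NQs →
      (Sum.inl (y, x, w, u) : X.NP) ∈ X.NQs := fun x y u w h => (cmp_4 X hHON x y u w h).2.2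
  have hset : X.NQs = X.NP1 ∪ f '' X.NH1 := by
    ext n
    constructor
    · intro hn
      rcases n with ⟨x, y, u, w⟩ | ⟨C, u, w⟩
      · by_cases harr : X.D.arr u w
        · exact Or.inl ⟨hn, harr⟩
        · right
          refine ⟨(y, x, w, u), ?_, rfl⟩
          refine ⟨hflip x y u w hn, ?_⟩
          have hT : X.D.T.Adj u w := hn.2.1.1
          exact ((X.D.adj_iff _ _).1 hT).resolve_left harr
      · exact Or.inl ⟨hn.2, hn.1⟩
    · rintro (hn | ⟨⟨x, y, u, w⟩, hn, rfl⟩)
      · rcases n with ⟨x, y, u, w⟩ | ⟨C, u, w⟩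
        · exact hn.1
        · exact ⟨hn.2, hn.1⟩
      · exact hflip x y u w hn.1
  have h1 : FinOrb G X.NQs := (hGRQ G X).finX
  have h2 : FinOrb G X.NP1 := (hGR1 G X).finX
  have h3 : FinOrb G (f '' X.NH1) := h1.mono (by rw [hset]; exact Set.subset_union_right)
  rw [hset, oc_union h2 h3, oc_image_inj f hfi hfe]
  rintro n hn n' ⟨⟨x, y, u, w⟩, hn', rfl⟩ g hg
  have h4 : g • n ∈ X.NP1 := (hGR1 G X).smulX g n hn
  rw [hg] at h4
  exact X.D.arr_asymm _ _ hn'.2 h4.2

theorem st_SPL (hTFD : ST_TFD) (hHON : ST_HON) (hKIR : ST_KIR) (hL2 : ST_L2) (hGR1 : ST_GR1)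
    (hGRQ : ST_GRQ) : ST_SPL := by
  intro G _ X hopt
  classical
  have hid : L2Map G X.Y1 (LinearMap.id : (Band G X → ℝ) →ₗ[ℝ] (Band G X → ℝ)) := by
    refine ⟨fun b hb => hb, fun g b _ => rfl, 1, fun b _ hs => ⟨hs, by simp⟩⟩
  have hmap : ∀ b ∈ cycR X.Y1 X.sP X.tP X.NP1, (LinearMap.id : (Band G X → ℝ) →ₗ[ℝ]
      (Band G X → ℝ)) b ∈ cycR X.Y1 X.sQ X.tQ X.NQs := by
    rintro ζ ⟨h1, h2, h3⟩
    refine ⟨h1, h2, ?_⟩
    -- ζ as a cycle of the full graph
    have hY1 : ∀ b ∈ X.Y1, b ∈ X.BN := fun b hb => hb.1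
    have hres : ∀ (P : Band G X → Prop), (∑ᶠ (y) (_ : y ∈ X.BN ∧ P y), ζ y) =
        ∑ᶠ (y) (_ : y ∈ X.Y1 ∧ P y), ζ y := by
      intro P
      refine finsum_congr (fun y => ?_)
      by_cases hy : y ∈ X.Y1
      · by_cases hP : P y
        · rw [finsum_eq_if, finsum_eq_if, if_pos ⟨hY1 y hy, hP⟩, if_pos ⟨hy, hP⟩]
        · rw [finsum_eq_if, finsum_eq_if, if_neg (fun h => hP h.2), if_neg (fun h => hP h.2)]
      · rw [finsum_eq_if, finsum_eq_if, h1 y hy]
        simp
    have hfull : ζ ∈ cycR X.BN X.sP X.tP X.NPs := by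
      refine ⟨fun y hy => h1 y (fun h => hy (hY1 y h)), h2, ?_⟩
      intro n hn
      unfold divR
      rw [hres, hres]
      by_cases hn1 : n ∈ X.NP1
      · exact h3 n hn1
      · have e1 : ∀ y : Band G X, ¬ (y ∈ X.Y1 ∧ X.sP y = some n) :=
          fun y h => hn1 ((hGR1 G X).sN y h.1 n h.2)
        have e2 : ∀ y : Band G X, ¬ (y ∈ X.Y1 ∧ X.tP y = some n) :=
          fun y h => hn1 ((hGR1 G X).tN y h.1 n h.2)
        have e3 : (∑ᶠ (y) (_ : y ∈ X.Y1 ∧ X.sP y = some n), ζ y) = 0 := by
          rw [← finsum_zero (α := Band G X)]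
          refine finsum_congr (fun y => ?_)
          rw [finsum_eq_if, if_neg (e1 y)]
        have e4 : (∑ᶠ (y) (_ : y ∈ X.Y1 ∧ X.tP y = some n), ζ y) = 0 := by
          rw [← finsum_zero (α := Band G X)]
          refine finsum_congr (fun y => ?_)
          rw [finsum_eq_if, if_neg (e2 y)]
        rw [e3, e4, sub_zero]
    intro n hn
    rcases n with ⟨x, y, u, w⟩ | ⟨C, u, w⟩
    · obtain ⟨hFC, ⟨hT, hx, hy⟩, hu, hw⟩ := hn
      set o : Bool := decide (X.D.arr u w) with ho
      have hS : {b : Band G X | b ∈ X.Y1 ∧ X.sQ b = some (.inl (x, y, u, w))} =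
          (fun z : X.V => (⟨x, y, z, u, o⟩ : Band G X)) ''
            {z | (⟨x, y, z, u, o⟩ : Band G X) ∈ X.BN} := by
        ext b
        constructor
        · rintro ⟨hb, hs⟩
          obtain ⟨e1, e2, e3, e4, -, -, -⟩ := cmp_sp_inl X hs
          have e5 : b.o = o := by
            have h5 := hb.2
            rw [← e4, ← e3] at h5
            rw [ho]
            by_cases harr : X.D.arr u w
            · rw [h5.2 harr, decide_eq_true harr]
            · rw [decide_eq_false harr]
              cases hbo : b.o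
              · rfl
              · exact absurd (h5.1 hbo) harr
          have e6 : (⟨x, y, b.z, u, o⟩ : Band G X) = b := by
            rw [e1, e2, e3, ← e5]
          refine ⟨b.z, ?_, e6⟩
          show (⟨x, y, b.z, u, o⟩ : Band G X) ∈ X.BN
          rw [e6]; exact hb.1
        · rintro ⟨z, hz, rfl⟩
          refine ⟨⟨hz, ?_⟩, ?_⟩
          · show o = true ↔ X.D.arr u (X.P.N y u)
            rw [hy, ho, decide_eq_true_iff]
          · show X.spN x y u (X.P.N y u) = _
            rw [hy]; exact cmp_sp_hon X hFC.2.1 hu hw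
      have hT' : {b : Band G X | b ∈ X.Y1 ∧ X.tQ b = some (.inl (x, y, u, w))} =
          (fun z : X.V => (⟨x, z, y, u, o⟩ : Band G X)) ''
            {z | (⟨x, z, y, u, o⟩ : Band G X) ∈ X.BN} := by
        ext b
        constructor
        · rintro ⟨hb, hs⟩
          obtain ⟨e1, e2, e3, e4, -, -, -⟩ := cmp_sp_inl X hs
          have e5 : b.o = o := by
            have h5 := hb.2
            rw [← e4, ← e3] at h5
            rw [ho]
            by_cases harr : X.D.arr u w
            · rw [h5.2 harr, decide_eq_true harr]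
            · rw [decide_eq_false harr]
              cases hbo : b.o
              · rfl
              · exact absurd (h5.1 hbo) harr
          have e6 : (⟨x, b.y, y, u, o⟩ : Band G X) = b := by
            rw [e1, e2, e3, ← e5]
          refine ⟨b.y, ?_, e6⟩
          show (⟨x, b.y, y, u, o⟩ : Band G X) ∈ X.BN
          rw [e6]; exact hb.1
        · rintro ⟨z, hz, rfl⟩
          have hzy : X.P.N z u = w := by
            have : X.P.N z u = X.P.N y u := hz.2.1
            rw [this, hy]
          refine ⟨⟨hz, ?_⟩, ?_⟩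
          · show o = true ↔ X.D.arr u (X.P.N z u)
            rw [hzy, ho, decide_eq_true_iff]
          · show X.spN x y u (X.P.N z u) = _
            rw [hzy]; exact cmp_sp_hon X hFC.2.1 hu hw
      have hd : divR X.Y1 X.sQ X.tQ ζ (.inl (x, y, u, w)) =
          (∑ᶠ (z) (_ : (⟨x, y, z, u, o⟩ : Band G X) ∈ X.BN), ζ ⟨x, y, z, u, o⟩) -
          ∑ᶠ (z) (_ : (⟨x, z, y, u, o⟩ : Band G X) ∈ X.BN), ζ ⟨x, z, y, u, o⟩ := by
        unfold divR
        congr 1
        · have h5 : (∑ᶠ (b) (_ : b ∈ {b : Band G X | b ∈ X.Y1 ∧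
              X.sQ b = some (.inl (x, y, u, w))}), ζ b) =
              ∑ᶠ (z) (_ : z ∈ {z | (⟨x, y, z, u, o⟩ : Band G X) ∈ X.BN}), ζ ⟨x, y, z, u, o⟩ := by
            rw [hS, finsum_mem_image]
            intro a _ b _ h
            exact (Band.mk.inj h).2.2.1
          exact h5
        · have h5 : (∑ᶠ (b) (_ : b ∈ {b : Band G X | b ∈ X.Y1 ∧
              X.tQ b = some (.inl (x, y, u, w))}), ζ b) =
              ∑ᶠ (z) (_ : z ∈ {z | (⟨x, z, y, u, o⟩ : Band G X) ∈ X.BN}), ζ ⟨x, z, y, u, o⟩ := by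
            rw [hT', finsum_mem_image]
            intro a _ b _ h
            exact (Band.mk.inj h).2.1
          exact h5
      show divR X.Y1 X.sQ X.tQ ζ (.inl (x, y, u, w)) = 0
      rw [hd]
      by_cases harr : X.D.arr u w
      · have hot : o = true := decide_eq_true harr
        rw [hot]
        exact (hKIR G X hopt ζ hfull x y u w hFC ⟨hT, hx, hy⟩ hu hw).1
      · have hof : o = false := decide_eq_false harr
        rw [hof]
        have hFC' : X.FC2 y x := ⟨X.K.symm _ _ hFC.1, hFC.2.1.symm, hFC.2.2.symm⟩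
        obtain ⟨-, -, -, h4, -⟩ := hHON G X x y hFC
        exact (hKIR G X hopt ζ hfull y x w u hFC' ⟨hT.symm, hy, hx⟩ ((h4 w).1 hw)
          ((h4 u).1 hu)).2
    · have hn1 : (Sum.inr (C, u, w) : X.NP) ∈ X.NP1 := ⟨hn.2, hn.1⟩
      have h4 := h3 _ hn1
      rw [← h4]
      show divR X.Y1 X.sQ X.tQ ζ _ = divR X.Y1 X.sP X.tP ζ _
      unfold divR
      congr 1
      · refine finsum_congr (fun y => ?_)
        by_cases hy : y ∈ X.Y1
        · rw [finsum_eq_if, finsum_eq_if]
          by_cases h : X.sQ y = some (.inr (C, u, w))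
          · rw [if_pos ⟨hy, h⟩, if_pos ⟨hy, (spl_s X hTFD hHON hy _).1 h⟩]
          · rw [if_neg (fun h' => h h'.2),
              if_neg (fun h' => h ((spl_s X hTFD hHON hy _).2 h'.2))]
        · rw [finsum_eq_if, finsum_eq_if, if_neg (fun h => hy h.1), if_neg (fun h => hy h.1)]
      · refine finsum_congr (fun y => ?_)
        by_cases hy : y ∈ X.Y1
        · rw [finsum_eq_if, finsum_eq_if]
          by_cases h : X.tQ y = some (.inr (C, u, w))
          · rw [if_pos ⟨hy, h⟩, if_pos ⟨hy, (spl_t X hTFD hHON hy _).1 h⟩]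
          · rw [if_neg (fun h' => h h'.2),
              if_neg (fun h' => h ((spl_t X hTFD hHON hy _).2 h'.2))]
        · rw [finsum_eq_if, finsum_eq_if, if_neg (fun h => hy h.1), if_neg (fun h => hy h.1)]
  have hmain := (hL2 G (Band G X) X.Y1 X.NP X.NP1 X.sP X.tP X.NP X.NQs X.sQ X.tQ LinearMap.id
    LinearMap.id (hGR1 G X) (hGRQ G X) hid hid (fun b _ => ⟨rfl, rfl⟩) hmap).1
  rw [spl_count X hHON hGRQ hGR1] at hmain
  omega

end Pool.Agent.Helper93.HZ
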