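import Pool.Agent.Helper93.HZ.Blow
import Pool.Agent.Helper93.HZ.Lib

/-! # HZ: STEP (9.4) -/

set_option autoImplicit false

open MulAction Pointwise

namespace Pool.Agent.Helper93.HZ

open Ctx

/-- a vertex fixed by an elliptic element of infinite order is elliptic -/
theorem step_ell (hTFD : ST_TFD) {G : Type} [Group G] (D : Setup G) (K : Cx G) (x : K.V) (h : G)
    (h1 : ¬ IsOfFinOrder h) (h2 : Ell D h) (h3 : h • x = x) : EllV D K x := by
  have hmem : h ∈ stabilizer G x := h3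
  rcases K.stab x with hf | hc
  · exfalso
    apply h1
    have : IsOfFinOrder (⟨h, hmem⟩ : stabilizer G x) := isOfFinOrder_of_finite _
    exact (Submonoid.isOfFinOrder_coe).2 this
  · obtain ⟨⟨z, hz⟩, hgen⟩ := hc.exists_generator
    have hall : ∀ g : G, g • x = x → ∃ m : ℤ, g = z ^ m := by
      intro g hg
      obtain ⟨m, hm⟩ := Subgroup.mem_zpowers_iff.1 (hgen ⟨g, hg⟩)
      exact ⟨m, by simpa using (congrArg Subtype.val hm).symm⟩
    obtain ⟨m, hm⟩ := hall h h3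
    have hm0 : m ≠ 0 := by
      rintro rfl
      apply h1
      rw [hm, zpow_zero]
      exact IsOfFinOrder.one
    obtain ⟨u, hu⟩ := h2
    have hz' : Ell D (z ^ m.natAbs) := by
      refine ⟨u, ?_⟩
      rcases Int.natAbs_eq m with h | h
      · rw [h, zpow_natCast] at hm
        rw [← hm]; exact hu
      · rw [h, zpow_neg, zpow_natCast] at hm
        rw [hm] at hu
        rw [inv_smul_eq_iff] at hu
        exact hu.symm
    obtain ⟨w, hw⟩ := (hTFD G D z).1 m.natAbs (Int.natAbs_pos.2 hm0) hz'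
    refine ⟨w, fun g hg => ?_⟩
    obtain ⟨k, hk⟩ := hall g hg
    rw [hk]
    have : z ∈ stabilizer G w := hw
    exact (stabilizer G w).zpow_mem this k

theorem step_PP {G : Type} [Group G] (D : Setup G) (K3 K' : Cx G) (π : K3.V → K'.V)
    (hπ : ∀ (g : G) p, π (D.θ g • p) = g • π p) (hR3 : ∀ x : K3.V, stabilizer G x ≠ ⊥) (c : G)
    (p : K3.V) (hp : stabilizer G p ≤ Subgroup.zpowers (D.θ c)) : PP K' c := by
  obtain ⟨g, hg, hg1⟩ : ∃ g ∈ stabilizer G p, g ≠ 1 := by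
    by_contra hcon
    push Not at hcon
    exact hR3 p ((Subgroup.eq_bot_iff_forall _).2 hcon)
  obtain ⟨m, hm⟩ := Subgroup.mem_zpowers_iff.1 (hp hg)
  have hm0 : m ≠ 0 := by
    rintro rfl
    exact hg1 (by rw [← hm, zpow_zero])
  refine ⟨m.natAbs, Int.natAbs_pos.2 hm0, π p, ?_⟩
  have h1 : c ^ m • π p = π p := by
    rw [← hπ, map_zpow, hm]
    congr 1
  rcases Int.natAbs_eq m with h | h
  · rw [h, zpow_natCast] at h1
    exact h1
  · rw [h, zpow_neg, zpow_natCast, inv_smul_eq_iff] at h1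
    exact h1.symm

theorem st_STEP (hTFD : ST_TFD) (hINF : ST_INF) (hPTS : ST_PTS) (hNDM : ST_NDM) (hTHR : ST_THR)
    (hCOR : ST_COR) (hK1 : ST_K1) (hPRU : ST_PRU) : ST_STEP := by
  intro G _ D K hopt hred
  obtain ⟨P⟩ := (hPTS G D K).1
  have hnd : ND D K P := hNDM G D K P hred hopt.1.1
  obtain ⟨Q, hgood⟩ := hTHR G D K P hred hopt.1.1 hnd
  let X : Ctx G := ⟨D, K, P, Q, hred, hopt.1, hnd, hgood⟩
  obtain ⟨K2, K3, e, i, ρ, he, heq, hran, hadj, htri, hsub, hρi, hρ, hred3, hr3, hn3, hd3, -⟩ :=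
    hCOR G X
  obtain ⟨K4, π, hπ, hr4, hn4, hd4, hloc⟩ := hK1 G X K2 K3 e i he heq hran hadj htri hsub hred3
  have hrmin4 : RMin K4 := fun L => (hr4.trans hr3.le).trans (hopt.1.1 L)
  have hr5 : rr K4 = rr K := le_antisymm (hr4.trans hr3.le) (hopt.1.1 K4)
  have hn5 : nn K4 = nn K := le_antisymm (hopt.1.2 K4 hr5) (hn3.ge.trans hn4)
  have hd5 : dd K4 ≤ dd K := hd4.trans hd3
  obtain ⟨K5, i5, ρ5, -, -, hρ5, -, -, hred5, hr6, hn6, hd6⟩ := hPRU G D K4 hrmin4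
  have hPP : ∀ c : G, PP K4 c → PP K5 c := by
    rintro c ⟨p, hp, x, hx⟩
    exact ⟨p, hp, ρ5 x, by rw [← hρ5, hx]⟩
  obtain ⟨-, -, hINF3, -⟩ := hINF G D
  refine ⟨K5, ⟨⟨fun L => ?_, fun L hL => ?_⟩, fun L hL hL2 => ?_⟩, hred5, hPP _ ?_, hPP _ ?_, ?_⟩
  · rw [hr6, hr5]; exact hopt.1.1 L
  · rw [hn6, hn5]; exact hopt.1.2 L (by rw [hL, hr6, hr5])
  · exact (hd6.trans hd5).trans (hopt.2 L (by rw [hL, hr6, hr5]) (by rw [hL2, hn6, hn5]))
  · -- a
    have hadjT : D.T.Adj D.u0 (D.t⁻¹ • D.u0) := by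
      rw [D.adj_iff]
      right
      have := D.arr_smul D.t⁻¹ _ _ D.arr0
      rwa [inv_smul_smul] at this
    obtain ⟨p, hp⟩ := hloc _ _ hadjT
    rw [show stabilizer G D.u0 ⊓ stabilizer G (D.t⁻¹ • D.u0) = Subgroup.zpowers (D.θ D.a) from
      hINF3] at hp
    exact step_PP D K3 K4 π hπ hred3.R3 _ p hp
  · have hadjT : D.T.Adj D.u0 (D.t • D.u0) := (D.adj_iff _ _).2 (Or.inl D.arr0)
    obtain ⟨p, hp⟩ := hloc _ _ hadjT
    rw [show stabilizer G D.u0 ⊓ stabilizer G (D.t • D.u0) = Subgroup.zpowers (D.θ D.b) from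
      D.stabe] at hp
    exact step_PP D K3 K4 π hπ hred3.R3 _ p hp
  · rintro h hh ⟨p, hp, x, hx⟩
    apply hPP
    have hinf : ¬ IsOfFinOrder (D.θ h ^ p) := by
      intro hfin
      apply hh
      have h1 : IsOfFinOrder (D.θ h) := (isOfFinOrder_pow.1 hfin).resolve_right hp.ne'
      exact (D.θinj.isOfFinOrder_iff).1 h1
    have hell : Ell D (D.θ h ^ p) := by
      refine ⟨D.u0, ?_⟩
      have : D.θ h ^ p ∈ stabilizer G D.u0 := by
        rw [D.stab0]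
        exact ⟨h ^ p, map_pow _ _ _⟩
      exact this
    have hx' : EllV D K x := step_ell hTFD D K x _ hinf hell hx
    obtain ⟨u, hu⟩ := P.ell x hx'
    obtain ⟨y, hy⟩ := K.nbr x
    have hpos : pos Q x y u = Sum.inl x := by
      unfold pos
      rw [if_pos hu]
    have haa : aadj X.Q (Sum.inl x) (pos Q y x u) :=
      Or.inl ⟨x, y, u, hy, fun _ => ⟨u, hu⟩, fun _ => hu, hpos.symm, rfl⟩
    obtain ⟨p2, hp2⟩ := (hran (Sum.inl x)).2 ⟨_, haa⟩
    have hfix : (D.θ h ^ p) • p2 = p2 := by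
      apply he
      rw [heq, hp2]
      show Sum.inl ((D.θ h ^ p) • x) = _
      rw [hx]
    refine ⟨p, hp, π (ρ p2), ?_⟩
    rw [← hπ, map_pow, ← hρ, hfix]

end Pool.Agent.Helper93.HZ
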