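import Pool.Agent.Helper93.HZ.Spec1

/-! # HZ: TFA, TFB, TFC (fields on trees) -/

set_option autoImplicit false

namespace Pool.Agent.Helper93.HZ

open SimpleGraph

section

variable {U : Type} {T : SimpleGraph U}

theorem tfx_opp {N : U → U} (hN : IsField T N) {a b : U} (h : T.Adj a b) (h1 : N a ≠ b) :
    N b = a := (hN.2 b a h.symm).2 h1

theorem tfx_opp' {N : U → U} (hN : IsField T N) {a b : U} (h : T.Adj a b) (h1 : N b = a) :
    N a ≠ b := (hN.2 b a h.symm).1 h1

theorem tfx_back {N : U → U} (hN : IsField T N) {a1 b : U} (p : T.Walk a1 b) :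
    ∀ (a : U) (h : T.Adj a a1), (Walk.cons h p).IsPath → N a1 = a →
      N b = (Walk.cons h p).penultimate := by
  induction p with
  | nil =>
    intro a h _ hN1
    rw [Walk.penultimate_cons_nil]; exact hN1
  | @cons c d e h' p ih =>
    intro a h hp hN1
    rw [Walk.penultimate_cons_cons]
    have hp' := (Walk.cons_isPath_iff _ _).1 hp
    apply ih c h' hp'.1
    apply tfx_opp hN h'
    rw [hN1]
    rintro rfl
    apply hp'.2
    rw [Walk.support_cons]
    exact List.mem_cons_of_mem _ (Walk.start_mem_support p)

theorem tfx_forward {N : U → U} (hN : IsField T N) {a b : U} (p : T.Walk a b) :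
    p.IsPath → ¬ p.Nil → N b ≠ p.penultimate → b = N^[p.length] a := by
  induction p with
  | nil => intro _ h _; exact absurd Walk.Nil.nil h
  | @cons a c b h p ih =>
    intro hp _ hb
    have hp' := (Walk.cons_isPath_iff _ _).1 hp
    have hNa : N a = c := by
      by_contra hcon
      exact hb (tfx_back hN p a h hp (tfx_opp hN h hcon))
    rw [Walk.length_cons, Function.iterate_succ_apply, hNa]
    by_cases hnil : p.Nil
    · have h1 : p.length = 0 := Walk.length_eq_zero_iff.2 hnil
      have h2 : c = b := hnil.eq
      rw [h1, Function.iterate_zero, id, h2]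
    · exact ih hp'.1 hnil (by rwa [Walk.penultimate_cons_of_not_nil _ _ hnil] at hb)

theorem tfx_pen_adj {a b : U} (p : T.Walk a b) (h : ¬ p.Nil) : p.penultimate ≠ b :=
  (Walk.adj_penultimate h).ne

/-- closure of a property along adjacency gives it everywhere -/
theorem tfx_all (hT : T.IsTree) (P : U → Prop) (u : U) (hu : P u)
    (h : ∀ a b, T.Adj a b → P a → P b) : ∀ w, P w := by
  intro w
  obtain ⟨p⟩ := hT.1.preconnected u w
  induction p with
  | nil => exact hu
  | cons h' p ih => exact ih (h _ _ h' hu)

theorem tfx_uniq (hT : T.IsTree) {N N' : U → U} (hN : IsField T N) (hN' : IsField T N')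
    (h : ∃ u, ∀ k : ℕ, N' (N^[k] u) = N (N^[k] u)) : N = N' := by
  obtain ⟨u, hu⟩ := h
  have key := tfx_all hT (fun w => ∀ k : ℕ, N' (N^[k] w) = N (N^[k] w)) u hu (by
    intro a b hab ha
    by_cases h1 : N a = b
    · intro k
      have := ha (k + 1)
      rw [Function.iterate_succ_apply, h1] at this
      exact this
    · have h2 : N b = a := tfx_opp hN hab h1
      have h3 : N' b = a := by
        apply tfx_opp hN' hab
        have := ha 0
        simp only [Function.iterate_zero, id] at this
        rw [this]; exact h1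
      intro k
      cases k with
      | zero => simp only [Function.iterate_zero, id]; rw [h2, h3]
      | succ k =>
        rw [Function.iterate_succ_apply, h2]
        exact ha k)
  funext w
  exact (key w 0).symm

/-- a field has at most one fixed vertex -/
theorem tfx_fix (hT : T.IsTree) {F : U → U} (hF : IsField T F) {c c' : U} (h : F c = c)
    (h' : F c' = c') : c = c' := by
  have key := tfx_all hT (fun w => ∃ k : ℕ, F^[k] w = c) c ⟨0, rfl⟩ (by
    rintro a b hab ⟨k, hk⟩
    by_cases h1 : F a = b
    · cases k with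
      | zero =>
        simp only [Function.iterate_zero, id] at hk
        rw [hk] at h1
        exact ⟨0, by rw [← h1, h]; rfl⟩
      | succ k =>
        rw [Function.iterate_succ_apply, h1] at hk
        exact ⟨k, hk⟩
    · exact ⟨k + 1, by rw [Function.iterate_succ_apply, tfx_opp hF hab h1, hk]⟩)
  obtain ⟨k, hk⟩ := key c'
  rw [Function.iterate_fixed h'] at hk
  exact hk.symm

end

theorem st_TFA : ST_TFA := by
  intro U T hT
  refine ⟨fun u0 => ?_, fun N N' hN hN' h => tfx_uniq hT hN hN' h⟩
  have hex : ∀ u, ∃ p : T.Walk u u0, p.IsPath := fun u => (hT.existsUnique_path u u0).exists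
  choose P hP using hex
  have huniq : ∀ u (p : T.Walk u u0), p.IsPath → p = P u := fun u p hp =>
    (hT.existsUnique_path u u0).unique hp (hP u)
  refine ⟨fun u => (P u).getVert 1, ⟨?_, ?_⟩, ?_⟩
  · intro u
    show (P u).getVert 1 = u ∨ T.Adj u ((P u).getVert 1)
    cases hp : P u with
    | nil => left; rfl
    | cons h p =>
      right
      rw [Walk.getVert_cons_succ, Walk.getVert_zero]
      exact h
  · intro u w h
    show (P u).getVert 1 = w ↔ (P w).getVert 1 ≠ u
    -- general fact
    have key : ∀ u w, T.Adj u w → u ∉ (P w).support →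
        (P u).getVert 1 = w ∧ (P w).getVert 1 ≠ u := by
      intro u w h hu
      have h1 : (Walk.cons h (P w)).IsPath := (Walk.cons_isPath_iff _ _).2 ⟨hP w, hu⟩
      rw [← huniq u _ h1]
      refine ⟨by rw [Walk.getVert_cons_succ, Walk.getVert_zero], ?_⟩
      intro h2
      exact hu (h2 ▸ Walk.getVert_mem_support _ _)
    by_cases hu : u ∈ (P w).support
    · classical
      have hw : w ∉ (P u).support := by
        have h1 : (P w).takeUntil u hu = Walk.cons h.symm Walk.nil := by
          have h2 : ((P w).takeUntil u hu).IsPath := (hP w).takeUntil hu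
          have h3 : (Walk.cons h.symm Walk.nil : T.Walk w u).IsPath := by
            rw [Walk.cons_isPath_iff]
            exact ⟨Walk.IsPath.nil, by simp [h.ne']⟩
          exact (hT.existsUnique_path w u).unique h2 h3
        have h4 := Walk.take_spec (P w) hu
        rw [h1, Walk.cons_append, Walk.nil_append] at h4
        have h5 : ((P w).dropUntil u hu).IsPath := (hP w).dropUntil hu
        rw [← huniq u _ h5]
        have h6 := hP w
        rw [← h4, Walk.cons_isPath_iff] at h6
        exact h6.2
      obtain ⟨h1, h2⟩ := key w u h.symm hw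
      constructor
      · intro h3; exact absurd h3 h2
      · intro h3; exact absurd h1 h3
    · obtain ⟨h1, h2⟩ := key u w h hu
      exact ⟨fun _ => h2, fun _ => h1⟩
  · show (P u0).getVert 1 = u0
    have : (Walk.nil : T.Walk u0 u0) = P u0 := huniq u0 _ Walk.IsPath.nil
    rw [← this]; rfl

theorem st_TFB : ST_TFB := by
  classical
  intro U T hT N₁ N₂ N₃ h1 h2 h3 e12 e23 e13
  let F : U → U := fun u => if N₁ u = N₂ u then N₁ u else if N₂ u = N₃ u then N₂ u
    else if N₁ u = N₃ u then N₁ u else u
  -- the majority property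
  have hmaj : ∀ u w, T.Adj u w → (F u = w ↔
      (N₁ u = w ∧ N₂ u = w) ∨ (N₂ u = w ∧ N₃ u = w) ∨ (N₁ u = w ∧ N₃ u = w)) := by
    intro u w h
    have hne : u ≠ w := h.ne
    show (if N₁ u = N₂ u then N₁ u else if N₂ u = N₃ u then N₂ u
      else if N₁ u = N₃ u then N₁ u else u) = w ↔ _
    split_ifs with c1 c2 c3
    · constructor
      · intro h4; exact Or.inl ⟨h4, by rw [← c1]; exact h4⟩
      · rintro (h4 | h4 | h4)
        · exact h4.1
        · rw [c1]; exact h4.1
        · exact h4.1
    · constructor
      · intro h4; exact Or.inr (Or.inl ⟨h4, by rw [← c2]; exact h4⟩)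
      · rintro (h4 | h4 | h4)
        · exact h4.2
        · exact h4.1
        · rw [c2]; exact h4.2
    · constructor
      · intro h4; exact Or.inr (Or.inr ⟨h4, by rw [← c3]; exact h4⟩)
      · rintro (h4 | h4 | h4)
        · exact h4.1
        · rw [c3]; exact h4.2
        · exact h4.1
    · constructor
      · intro h4; exact absurd h4 hne
      · rintro (h4 | h4 | h4)
        · exact absurd (h4.1.trans h4.2.symm) c1
        · exact absurd (h4.1.trans h4.2.symm) c2
        · exact absurd (h4.1.trans h4.2.symm) c3
  have hF : IsField T F := by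
    refine ⟨?_, ?_⟩
    · intro u
      show (if N₁ u = N₂ u then N₁ u else if N₂ u = N₃ u then N₂ u
        else if N₁ u = N₃ u then N₁ u else u) = u ∨ T.Adj u (if N₁ u = N₂ u then N₁ u else
        if N₂ u = N₃ u then N₂ u else if N₁ u = N₃ u then N₁ u else u)
      split_ifs
      · exact h1.1 u
      · exact h2.1 u
      · exact h1.1 u
      · exact Or.inl rfl
    · intro u w h
      have a1 := h1.2 u w h
      have a2 := h2.2 u w h
      have a3 := h3.2 u w h
      have m1 := hmaj u w h
      have m2 := hmaj w u h.symm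
      rw [Ne, m1, m2, a1, a2, a3]
      clear m1 m2 a1 a2 a3 hmaj
      by_cases A : N₁ w = u <;> by_cases B : N₂ w = u <;> by_cases C : N₃ w = u <;>
        simp [A, B, C]
  have hcen : ∀ c, IsCenter N₁ N₂ N₃ c ↔ F c = c := by
    intro c
    constructor
    · rintro ⟨c1, c2, c3⟩
      show (if N₁ c = N₂ c then N₁ c else if N₂ c = N₃ c then N₂ c
        else if N₁ c = N₃ c then N₁ c else c) = c
      split_ifs with d1 d2 d3
      · exact c1 d1
      · exact c2 d2
      · exact c3 d3
      · rfl
    · intro hc
      have hmv : ∀ w, T.Adj c w → ¬ ((N₁ c = w ∧ N₂ c = w) ∨ (N₂ c = w ∧ N₃ c = w) ∨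
          (N₁ c = w ∧ N₃ c = w)) := by
        intro w hw h
        have := (hmaj c w hw).2 h
        rw [hc] at this
        exact hw.ne this
      refine ⟨fun h => ?_, fun h => ?_, fun h => ?_⟩
      · rcases h1.1 c with h4 | h4
        · exact h4
        · exact absurd (Or.inl ⟨rfl, h.symm⟩) (hmv _ h4)
      · rcases h2.1 c with h4 | h4
        · exact h4
        · exact absurd (Or.inr (Or.inl ⟨rfl, h.symm⟩)) (hmv _ h4)
      · rcases h1.1 c with h4 | h4
        · exact h4
        · exact absurd (Or.inr (Or.inr ⟨rfl, h.symm⟩)) (hmv _ h4)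
  have hex : ∃ c, F c = c := by
    by_contra hcon
    push Not at hcon
    obtain ⟨u0, -⟩ : ∃ u : U, True := by
      obtain ⟨u⟩ := hT.1.nonempty
      exact ⟨u, trivial⟩
    -- once a field disagrees with F along the ray it disagrees for ever
    have hdis : ∀ N : U → U, IsField T N → ∀ k : ℕ, N (F^[k] u0) ≠ F (F^[k] u0) →
        ∀ j : ℕ, N (F^[k + j] u0) ≠ F (F^[k + j] u0) := by
      intro N hN k hk j
      induction j with
      | zero => exact hk
      | succ j ih =>
        have hadj : T.Adj (F^[k + j] u0) (F (F^[k + j] u0)) :=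
          (hF.1 _).resolve_left (hcon _)
        have h4 : N (F (F^[k + j] u0)) = F^[k + j] u0 := tfx_opp hN hadj ih
        have h5 : F (F (F^[k + j] u0)) ≠ F^[k + j] u0 := (hF.2 _ _ hadj).1 rfl
        rw [show k + (j + 1) = (k + j) + 1 by ring, Function.iterate_succ_apply', h4]
        exact h5.symm
    have hag : ∀ k : ℕ, (N₁ (F^[k] u0) = F (F^[k] u0) ∧ N₂ (F^[k] u0) = F (F^[k] u0)) ∨
        (N₂ (F^[k] u0) = F (F^[k] u0) ∧ N₃ (F^[k] u0) = F (F^[k] u0)) ∨
        (N₁ (F^[k] u0) = F (F^[k] u0) ∧ N₃ (F^[k] u0) = F (F^[k] u0)) := by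
      intro k
      exact (hmaj _ _ ((hF.1 _).resolve_left (hcon _))).1 rfl
    have hall : ∀ N : U → U, IsField T N → (∀ k : ℕ, N (F^[k] u0) = F (F^[k] u0)) → F = N :=
      fun N hN h => tfx_uniq hT hF hN ⟨u0, h⟩
    by_cases g1 : ∀ k : ℕ, N₁ (F^[k] u0) = F (F^[k] u0)
    · by_cases g2 : ∀ k : ℕ, N₂ (F^[k] u0) = F (F^[k] u0)
      · have i1 := hall N₁ h1 g1
        have i2 := hall N₂ h2 g2
        obtain ⟨u, hu⟩ := e12 (i1.symm.trans i2)
        rw [← i1] at hu
        exact hcon u hu
      · by_cases g3 : ∀ k : ℕ, N₃ (F^[k] u0) = F (F^[k] u0)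
        · have i1 := hall N₁ h1 g1
          have i3 := hall N₃ h3 g3
          obtain ⟨u, hu⟩ := e13 (i1.symm.trans i3)
          rw [← i1] at hu
          exact hcon u hu
        · push Not at g2 g3
          obtain ⟨k2, hk2⟩ := g2
          obtain ⟨k3, hk3⟩ := g3
          have j2 := hdis N₂ h2 k2 hk2 k3
          have j3 := hdis N₃ h3 k3 hk3 k2
          rw [add_comm k3 k2] at j3
          rcases hag (k2 + k3) with h | h | h
          · exact j2 h.2
          · exact j2 h.1
          · exact j3 h.2
    · push Not at g1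
      obtain ⟨k1, hk1⟩ := g1
      by_cases g2 : ∀ k : ℕ, N₂ (F^[k] u0) = F (F^[k] u0)
      · by_cases g3 : ∀ k : ℕ, N₃ (F^[k] u0) = F (F^[k] u0)
        · have i2 := hall N₂ h2 g2
          have i3 := hall N₃ h3 g3
          obtain ⟨u, hu⟩ := e23 (i2.symm.trans i3)
          rw [← i2] at hu
          exact hcon u hu
        · push Not at g3
          obtain ⟨k3, hk3⟩ := g3
          have j1 := hdis N₁ h1 k1 hk1 k3
          have j3 := hdis N₃ h3 k3 hk3 k1
          rw [add_comm k3 k1] at j3
          rcases hag (k1 + k3) with h | h | h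
          · exact j1 h.1
          · exact j3 h.2
          · exact j1 h.1
      · push Not at g2
        obtain ⟨k2, hk2⟩ := g2
        have j1 := hdis N₁ h1 k1 hk1 k2
        have j2 := hdis N₂ h2 k2 hk2 k1
        rw [add_comm k2 k1] at j2
        rcases hag (k1 + k2) with h | h | h
        · exact j1 h.1
        · exact j2 h.1
        · exact j1 h.1
  obtain ⟨c, hc⟩ := hex
  refine ⟨c, (hcen c).2 hc, fun c' hc' => tfx_fix hT hF ((hcen c').1 hc') hc⟩

theorem st_TFC : ST_TFC := by
  intro U T hT N N' hN hN'
  refine ⟨?_, ?_⟩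
  · intro u w hu hw
    obtain ⟨p, hp⟩ := (hT.existsUnique_path u w).exists
    by_cases hnil : p.Nil
    · exact ⟨0, Or.inl hnil.eq.symm⟩
    · -- first step
      cases p with
      | nil => exact absurd Walk.Nil.nil hnil
      | @cons _ u1 _ h q =>
        by_cases h1 : N u = u1
        · have h2 : N' u ≠ u1 := by
            intro h3
            have := hu (h1.trans h3.symm)
            rw [h1] at this
            exact h.ne this.symm
          have h3 : N' w = (Walk.cons h q).penultimate :=
            tfx_back hN' q u h hp (tfx_opp hN' h h2)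
          have h4 : N w ≠ (Walk.cons h q).penultimate := by
            intro h5
            have := hw (h5.trans h3.symm)
            rw [h5] at this
            exact tfx_pen_adj _ hnil this
          exact ⟨_, Or.inl (tfx_forward hN _ hp hnil h4)⟩
        · have h3 : N w = (Walk.cons h q).penultimate :=
            tfx_back hN q u h hp (tfx_opp hN h h1)
          have h4 : N' w ≠ (Walk.cons h q).penultimate := by
            intro h5
            have := hw (h3.trans h5.symm)
            rw [h3] at this
            exact tfx_pen_adj _ hnil this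
          exact ⟨_, Or.inr (tfx_forward hN' _ hp hnil h4)⟩
  · intro h
    by_contra hcon
    push Not at hcon
    have h1 : N = N' := by
      funext u
      have := hcon u
      unfold OnI at this
      push Not at this
      exact this.1
    obtain ⟨u, hu⟩ := h h1
    exact hcon u (fun _ => hu)

end Pool.Agent.Helper93.HZ
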