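import Pool.Agent.Helper1.HZ.LON
import Pool.Agent.Helper11.HZ.EXT
import Pool.Agent.Helper11.HZ.L2
import Pool.Agent.Helper12.HZ.S5B0
import Pool.Agent.Helper12.HZ.S5B1
import Pool.Agent.Helper12.HZ.S5B2
import Pool.Agent.Helper12.HZ.S5B3
import Pool.Agent.Helper12.HZ.S5C
import Pool.Agent.Helper2.HZ.KB
import Pool.Agent.Helper2.HZ.KIR
import Pool.Agent.Helper20.HZ.DEL
import Pool.Agent.Helper21.HZ.OPT
import Pool.Agent.Helper21.HZ.QUO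
import Pool.Agent.Helper25.HZ.LEG
import Pool.Agent.Helper27.HZ.SL
import Pool.Agent.Helper27.HZ.THR
import Pool.Agent.Helper28.HZ.FV
import Pool.Agent.Helper28.HZ.RES
import Pool.Agent.Helper28.HZ.RSTAB
import Pool.Agent.Helper3.HZ.LINE
import Pool.Agent.Helper30.HZ.FF
import Pool.Agent.Helper37.HZ.INF
import Pool.Agent.Helper38.HZ.RSC
import Pool.Agent.Helper41.HZ.END
import Pool.Agent.Helper41.HZ.L2A
import Pool.Agent.Helper50.HZ.CONT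
import Pool.Agent.Helper55.HZ.S5A
import Pool.Agent.Helper55.HZ.STAR
import Pool.Agent.Helper58.HZ.IDN
import Pool.Agent.Helper64.HZ.GR1
import Pool.Agent.Helper64.HZ.GRP
import Pool.Agent.Helper64.HZ.GRQ
import Pool.Agent.Helper68.HZ.N2
import Pool.Agent.Helper7.HZ.BT
import Pool.Agent.Helper71.HZ.CNT
import Pool.Agent.Helper71.HZ.KA
import Pool.Agent.Helper72.HZ.GRS
import Pool.Agent.Helper74.HZ.GBL
import Pool.Agent.Helper74.HZ.L2B
import Pool.Agent.Helper74.HZ.L2C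
import Pool.Agent.Helper74.HZ.RCON
import Pool.Agent.Helper74.HZ.RSYM
import Pool.Agent.Helper75.HZ.RFIN
import Pool.Agent.Helper80.HZ.CUT
import Pool.Agent.Helper80.HZ.FT
import Pool.Agent.Helper80.HZ.PL
import Pool.Agent.Helper80.HZ.RET
import Pool.Agent.Helper85.HZ.BAD
import Pool.Agent.Helper85.HZ.EX
import Pool.Agent.Helper85.HZ.POTW
import Pool.Agent.Helper89.HZ.TFD
import Pool.Agent.Helper9.HZ.HON
import Pool.Agent.Helper90.HZ.FIN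
import Pool.Agent.Helper90.HZ.PTS
import Pool.Agent.Helper90.HZ.RLOC
import Pool.Agent.Helper91.HZ.K1
import Pool.Agent.Helper93.HZ.CLU
import Pool.Agent.Helper93.HZ.CMP
import Pool.Agent.Helper93.HZ.COR
import Pool.Agent.Helper93.HZ.MM
import Pool.Agent.Helper93.HZ.SMALL
import Pool.Agent.Helper93.HZ.SPL
import Pool.Agent.Helper93.HZ.STEP
import Pool.Agent.Helper93.HZ.TF
import Pool.Agent.Helper94.HZ.BST
import Pool.Agent.Helper95.HZ.LR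
import Pool.Agent.Helper97.HZ.BIG
import Pool.Agent.Helper97.HZ.PRU
import Pool.Agent.Helper99.HZ.TFE
import Pool.Agent.Helper99.HZ.TPOT
import Pool.Agent.Helper93.HZ.FINAL

/-! # HZ: all modules together -/

set_option autoImplicit false

namespace Pool.Agent.Helper93.HZ

theorem hz_END : ST_END := st_END

theorem hz_EX : ST_EX := st_EX

theorem hz_BT : ST_BT := st_BT

theorem hz_BST : ST_BST := st_BST hz_BT

theorem hz_OPT : ST_OPT := st_OPT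

theorem hz_CUT : ST_CUT := st_CUT

theorem hz_BIG : ST_BIG := st_BIG hz_CUT

theorem hz_BAD : ST_BAD := st_BAD hz_CUT hz_BIG

theorem hz_RET : ST_RET := st_RET hz_CUT hz_BIG hz_BAD

theorem hz_QUO : ST_QUO := st_QUO

theorem hz_INF : ST_INF := st_INF

theorem hz_CON : ST_CON := st_CON hz_QUO hz_INF

theorem hz_FV : ST_FV := st_FV hz_CON

theorem hz_TFE : ST_TFE := st_TFE

theorem hz_TFA : ST_TFA := st_TFA

theorem hz_TFD : ST_TFD := st_TFD hz_TFA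

theorem hz_PRU : ST_PRU := st_PRU hz_CUT hz_RET hz_FV hz_INF hz_TFE hz_TFD

theorem hz_PTS : ST_PTS := st_PTS hz_TFA hz_TFD hz_TFE

theorem hz_RSYM : ST_RSYM := st_RSYM

theorem hz_TFB : ST_TFB := st_TFB

theorem hz_TFC : ST_TFC := st_TFC

theorem hz_RFIN : ST_RFIN := st_RFIN hz_TFB hz_TFC hz_TFD

theorem hz_RLOC : ST_RLOC := st_RLOC

theorem hz_RSTAB : ST_RSTAB := st_RSTAB hz_RLOC hz_INF

theorem hz_RCON : ST_RCON := st_RCON hz_TFA hz_TFC hz_TFD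

theorem hz_TPOT : ST_TPOT := st_TPOT

theorem hz_POTW : ST_POTW := st_POTW hz_TFC hz_TPOT hz_TFD

theorem hz_RSC : ST_RSC := st_RSC hz_TFB hz_TFC hz_TFD hz_POTW

theorem hz_RES : ST_RES := st_RES hz_RSYM hz_RFIN hz_RSTAB hz_RCON hz_RSC

theorem hz_THR0 : ST_THR0 := st_THR0 hz_TFA

theorem hz_NDM : ST_NDM := st_NDM hz_RES hz_THR0

theorem hz_FT : ST_FT := st_FT

theorem hz_SL : ST_SL := st_SL hz_TFA hz_TFD hz_FT

theorem hz_THR : ST_THR := st_THR hz_THR0 hz_TFA hz_FT hz_SL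

theorem hz_N2 : ST_N2 := st_N2 hz_TFC hz_RFIN hz_RSTAB hz_INF hz_RSYM

theorem hz_CLU : ST_CLU := st_CLU hz_TFC hz_TFD

theorem hz_HON : ST_HON := st_HON hz_TFA hz_TFB hz_TFC

theorem hz_GRS : ST_GRS := st_GRS hz_TFD hz_TFA hz_TFC hz_INF hz_HON hz_CLU

theorem hz_KA : ST_KA := st_KA hz_CLU hz_HON hz_TFC hz_TFD hz_GRS

theorem hz_GRP : ST_GRP := st_GRP hz_TFC hz_TFD hz_INF hz_CLU hz_HON

theorem hz_KB : ST_KB := st_KB hz_CLU hz_HON hz_GRP hz_RLOC hz_INF hz_TFD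

theorem hz_DDS : ST_DDS := st_DDS

theorem hz_CNT : ST_CNT := st_CNT hz_HON hz_TFC hz_GRS

theorem hz_L2A : ST_L2A := st_L2A

theorem hz_L2B : ST_L2B := st_L2B hz_L2A

theorem hz_L2C : ST_L2C := st_L2C

theorem hz_L2 : ST_L2 := st_L2 hz_L2A hz_L2B hz_L2C

theorem hz_DEL : ST_DEL := st_DEL hz_HON

theorem hz_IDN : ST_IDN := st_IDN hz_CLU hz_HON hz_TFD hz_GRS

theorem hz_COR : ST_COR := st_COR hz_RSYM hz_RES hz_PRU hz_N2 hz_KA hz_KB hz_DDS hz_CNT hz_L2 hz_DEL hz_IDN hz_GRS hz_GRP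

theorem hz_K1 : ST_K1 := st_K1 hz_RLOC hz_INF hz_TFC

theorem hz_STEP : ST_STEP := st_STEP hz_TFD hz_INF hz_PTS hz_NDM hz_THR hz_COR hz_K1 hz_PRU

theorem hz_KIR : ST_KIR := st_KIR hz_COR hz_HON hz_TFA

theorem hz_GR1 : ST_GR1 := st_GR1 hz_TFC hz_TFD hz_INF hz_CLU hz_HON

theorem hz_GRQ : ST_GRQ := st_GRQ hz_TFC hz_TFD hz_INF hz_CLU hz_HON

theorem hz_SPL : ST_SPL := st_SPL hz_TFD hz_HON hz_KIR hz_L2 hz_GR1 hz_GRQ

theorem hz_CMP : ST_CMP := st_CMP hz_TFD hz_HON hz_CLU hz_SL hz_GRQ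

theorem hz_EXT : ST_EXT := st_EXT hz_SPL hz_CMP hz_GRQ hz_CLU

theorem hz_GBL : ST_GBL := st_GBL

theorem hz_PL : ST_PL := st_PL hz_GBL hz_TFA hz_TFB hz_TFC hz_FT

theorem hz_FF : ST_FF := st_FF

theorem hz_LEG : ST_LEG := st_LEG hz_TFB

theorem hz_STAR : ST_STAR := st_STAR hz_TFA hz_TFC hz_INF hz_PL hz_FF hz_FV hz_LEG

theorem hz_LINE : ST_LINE := st_LINE hz_PL hz_SL hz_CLU hz_FF hz_FV hz_CMP hz_TFB hz_TFD hz_TPOT

theorem hz_LR : ST_LR := st_LR hz_SL hz_TFC hz_LEG hz_FT hz_PL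

theorem hz_S5A : ST_S5A := st_S5A hz_CON hz_FF hz_FT

theorem hz_S5B0 : ST_S5B0 := st_S5B0 hz_CON

theorem hz_S5B1 : ST_S5B1 := st_S5B1 hz_FF

theorem hz_S5B2 : ST_S5B2 := st_S5B2

theorem hz_S5B3 : ST_S5B3 := st_S5B3 hz_CON

theorem hz_S5C : ST_S5C := st_S5C hz_CON

theorem hz_LON : ST_LON := st_LON hz_SL

theorem hz_M : ST_M := st_MM hz_TFD hz_PTS hz_NDM hz_THR hz_EXT hz_STAR hz_LINE hz_LR hz_S5A hz_S5B0 hz_S5B1 hz_S5B2 hz_S5B3 hz_S5C hz_LON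

theorem hz_FIN : ST_FIN := st_FIN hz_TFD

end Pool.Agent.Helper93.HZ
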