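import Mathlib

/-!
# HZ: a finitely presented one-ended group is not isomorphic to its own HNN extension over ℤ
Base definitions.  See /team-store/h93_hnn.md for the paper proof.
-/

set_option autoImplicit false

open MulAction Pointwise

namespace Pool.Agent.Helper93.HZ

/-! ## Orbits -/

/-- number of `G`-orbits meeting `S` -/
noncomputable def oc (G : Type) [Group G] {α : Type} [MulAction G α] (S : Set α) : ℕ :=
  ((fun x : α => orbit G x) '' S).ncard

/-- only finitely many `G`-orbits meet `S` -/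
def FinOrb (G : Type) [Group G] {α : Type} [MulAction G α] (S : Set α) : Prop :=
  ((fun x : α => orbit G x) '' S).Finite

/-! ## One-endedness, fields on trees, the set-up -/

/-- one-endedness in coboundary form -/
def OneEnd (G : Type) [Group G] : Prop :=
  Infinite G ∧ ∃ S : Finset G, Subgroup.closure (S : Set G) = ⊤ ∧
    ∀ A : Set G, {p : G × G | p.2 ∈ S ∧ ¬ (p.1 ∈ A ↔ p.1 * p.2 ∈ A)}.Finite →
      A.Finite ∨ Aᶜ.Finite

/-- the `direction field` of a point of `T ∪ ∂T`: `N u` is `u` or a neighbour of `u`, and every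
edge `{u,w}` is used in exactly one direction. -/
def IsField {U : Type} (T : SimpleGraph U) (N : U → U) : Prop :=
  (∀ u, N u = u ∨ T.Adj u (N u)) ∧ ∀ u w, T.Adj u w → (N u = w ↔ N w ≠ u)

/-- `G` is the HNN extension of `θ(G) ≅ G` over `θ(a) ↦ θ(b)`, with its Bass–Serre tree `T`. -/
structure Setup (G : Type) [Group G] where
  θ : G →* G
  θinj : Function.Injective θ
  t : G
  a : G
  b : G
  ainf : ¬ IsOfFinOrder a
  binf : ¬ IsOfFinOrder b
  rel : t * θ a * t⁻¹ = θ b
  gen : Subgroup.closure ((θ.range : Set G) ∪ {t}) = ⊤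
  univ : ∀ (H : Type) [Group H] (ψ : G →* H) (τ : H), τ * ψ a * τ⁻¹ = ψ b →
    ∃ Ψ : G →* H, (∀ g, Ψ (θ g) = ψ g) ∧ Ψ t = τ
  oneEnd : OneEnd G
  /-- vertices of the Bass–Serre tree -/
  U : Type
  actU : MulAction G U
  T : SimpleGraph U
  tree : T.IsTree
  /-- `arr u w`: the edge `{u,w}` is oriented from the tail `u` to the head `w` -/
  arr : U → U → Prop
  adj_iff : ∀ u w, T.Adj u w ↔ (arr u w ∨ arr w u)
  arr_asymm : ∀ u w, arr u w → ¬ arr w u
  arr_smul : ∀ (g : G) (u w : U), arr u w → arr (g • u) (g • w)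
  u0 : U
  vtrans : ∀ u, ∃ g : G, g • u0 = u
  etrans : ∀ u w, arr u w → ∃ g : G, g • u0 = u ∧ g • (t • u0) = w
  arr0 : arr u0 (t • u0)
  stab0 : stabilizer G u0 = θ.range
  stabe : stabilizer G u0 ⊓ stabilizer G (t • u0) = Subgroup.zpowers (θ b)

attribute [instance] Setup.actU

/-! ## Complexes -/

/-- every cocycle is a coboundary -/
def SC {V : Type} (adj : V → V → Prop) (tri : V → V → V → Prop) : Prop :=
  ∀ (H : Type) [Group H] (c : V → V → H), (∀ x y, adj x y → c x y * c y x = 1) →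
    (∀ x y z, tri x y z → c x y * c y z * c z x = 1) →
    ∃ f : V → H, ∀ x y, adj x y → c x y = (f x)⁻¹ * f y

/-- finite or cyclic -/
def FC {G : Type} [Group G] (S : Subgroup G) : Prop := Finite S ∨ IsCyclic S

/-- `G`-complexes -/
structure Cx (G : Type) [Group G] where
  V : Type
  act : MulAction G V
  adj : V → V → Prop
  tri : V → V → V → Prop
  ne : Nonempty V
  symm : ∀ x y, adj x y → adj y x
  irrefl : ∀ x, ¬ adj x x
  nbr : ∀ x, ∃ y, adj x y
  tri_adj : ∀ x y z, tri x y z → adj x y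
  tri_rot : ∀ x y z, tri x y z → tri y z x
  tri_swap : ∀ x y z, tri x y z → tri y x z
  smul_adj : ∀ (g : G) (x y : V), adj x y → adj (g • x) (g • y)
  smul_tri : ∀ (g : G) (x y z : V), tri x y z → tri (g • x) (g • y) (g • z)
  conn : ∀ x y, Relation.ReflTransGen adj x y
  sc : SC adj tri
  finE : FinOrb G {p : V × V | adj p.1 p.2}
  finT : FinOrb G {s : Set V | ∃ x y z, tri x y z ∧ s = {x, y, z}}
  stab : ∀ x : V, FC (stabilizer G x)

attribute [instance] Cx.act

variable {G : Type} [Group G]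

/-- number of orbits of triangles -/
noncomputable def rr (K : Cx G) : ℕ := oc G {s : Set K.V | ∃ x y z, K.tri x y z ∧ s = {x, y, z}}

/-- number of orbits of vertices with finite nontrivial stabilizer lying in a triangle -/
noncomputable def nn (K : Cx G) : ℕ :=
  oc G {x : K.V | (∃ y z, K.tri x y z) ∧ Finite (stabilizer G x) ∧ stabilizer G x ≠ ⊥}

/-- the pointwise stabilizer of `{x,y}` is trivial -/
def Fr (K : Cx G) (x y : K.V) : Prop := ∀ g : G, g • x = x → g • y = y → g = 1

/-- number of orbits of free darts -/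
noncomputable def dd (K : Cx G) : ℕ :=
  oc G {p : K.V × K.V | K.adj p.1 p.2 ∧ Fr K p.1 p.2}

def RMin (K : Cx G) : Prop := ∀ K' : Cx G, rr K ≤ rr K'

def NMax (K : Cx G) : Prop := RMin K ∧ ∀ K' : Cx G, rr K' = rr K → nn K' ≤ nn K

def Opt (K : Cx G) : Prop := NMax K ∧ ∀ K' : Cx G, rr K' = rr K → nn K' = nn K → dd K ≤ dd K'

/-- `h` has a nontrivial power fixing a vertex of `K` -/
def PP (K : Cx G) (h : G) : Prop := ∃ p : ℕ, 0 < p ∧ ∃ x : K.V, h ^ p • x = x

/-- elliptic elements, elliptic vertices -/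
def Ell (D : Setup G) (h : G) : Prop := ∃ u : D.U, h • u = u

def EllV (D : Setup G) (K : Cx G) (x : K.V) : Prop := ∃ u : D.U, ∀ g : G, g • x = x → g • u = u

/-- reduced complexes -/
structure Red (D : Setup G) (K : Cx G) : Prop where
  R1 : ∀ x y, K.adj x y → Finite ↥(stabilizer G x ⊓ stabilizer G y) → ∃ z, K.tri x y z
  R2 : ∀ x, (Finite (stabilizer G x) ∨ ¬ EllV D K x) →
    (∀ y y', K.adj x y → K.adj x y' → Relation.ReflTransGen (fun p q => K.tri x p q) y y') ∧
      ∀ y, K.adj x y → ∃ z, K.tri x y z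
  R3 : ∀ x : K.V, stabilizer G x ≠ ⊥

/-- an equivariant injective simplicial map (inclusion of a subcomplex) -/
structure Sub (K' K : Cx G) (i : K'.V → K.V) : Prop where
  inj : Function.Injective i
  equiv : ∀ (g : G) x, i (g • x) = g • i x
  adj : ∀ x y, K'.adj x y → K.adj (i x) (i y)
  tri : ∀ x y z, K'.tri x y z → K.tri (i x) (i y) (i z)

/-! ## Points -/

/-- an equivariant choice of points `ξ_x ∈ T ∪ ∂T` for the vertices of `K`, given by fields `N x`;
`M x` is the field of the opposite end of the axis if `x` is hyperbolic -/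
structure Pts (D : Setup G) (K : Cx G) where
  N : K.V → D.U → D.U
  M : K.V → D.U → D.U
  fN : ∀ x, IsField D.T (N x)
  fM : ∀ x, IsField D.T (M x)
  eN : ∀ (g : G) (x : K.V) (u : D.U), N (g • x) (g • u) = g • N x u
  eM : ∀ (g : G) (x : K.V) (u : D.U), M (g • x) (g • u) = g • M x u
  ell : ∀ x, EllV D K x → ∃ u, N x u = u
  hyp : ∀ x, ¬ EllV D K x → (∀ u, N x u ≠ u) ∧ (∀ u, M x u ≠ u) ∧
    (∃ (z : G) (k : ℕ), stabilizer G x = Subgroup.zpowers z ∧ ¬ IsOfFinOrder z ∧ 0 < k ∧
      ∀ u, N x u ≠ M x u → z • u = (N x)^[k] u) ∧ ∃ u, N x u ≠ M x u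

/-- `c` is the center of the three points with fields `N₁ N₂ N₃` -/
def IsCenter {U : Type} (N₁ N₂ N₃ : U → U) (c : U) : Prop :=
  (N₁ c = N₂ c → N₁ c = c) ∧ (N₂ c = N₃ c → N₂ c = c) ∧ (N₁ c = N₃ c → N₁ c = c)

/-- the vertex `u` lies on the path `I(N₁,N₂)` -/
def OnI {U : Type} (N₁ N₂ : U → U) (u : U) : Prop := N₁ u = N₂ u → N₁ u = u

/-- no two adjacent hyperbolic vertices have the same end -/
def ND (D : Setup G) (K : Cx G) (P : Pts D K) : Prop :=
  ∀ x y, K.adj x y → P.N x = P.N y → ∃ u, P.N x u = u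

/-! ## Equivariance lemmas -/

theorem Fr.symm {K : Cx G} {x y : K.V} (h : Fr K x y) : Fr K y x := fun g h1 h2 => h g h2 h1

theorem Fr_smul {K : Cx G} (g : G) {x y : K.V} (h : Fr K x y) : Fr K (g • x) (g • y) := by
  intro k h1 h2
  have h3 : (g⁻¹ * k * g) • x = x := by
    rw [mul_smul, mul_smul, h1, inv_smul_smul]
  have h4 : (g⁻¹ * k * g) • y = y := by
    rw [mul_smul, mul_smul, h2, inv_smul_smul]
  have := h _ h3 h4
  have h5 : k = g * (g⁻¹ * k * g) * g⁻¹ := by group
  rw [h5, this]; group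

theorem Fr_smul_iff {K : Cx G} (g : G) {x y : K.V} : Fr K (g • x) (g • y) ↔ Fr K x y := by
  constructor
  · intro h
    have := Fr_smul g⁻¹ h
    simpa using this
  · exact Fr_smul g

theorem EllV_smul {D : Setup G} {K : Cx G} (g : G) {x : K.V} (h : EllV D K x) :
    EllV D K (g • x) := by
  obtain ⟨u, hu⟩ := h
  refine ⟨g • u, fun k hk => ?_⟩
  have h3 : (g⁻¹ * k * g) • x = x := by
    rw [mul_smul, mul_smul, hk, inv_smul_smul]
  have h4 := hu _ h3
  rw [mul_smul, mul_smul, inv_smul_eq_iff] at h4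
  exact h4

theorem EllV_smul_iff {D : Setup G} {K : Cx G} (g : G) {x : K.V} :
    EllV D K (g • x) ↔ EllV D K x := by
  constructor
  · intro h
    have := EllV_smul g⁻¹ h
    simpa using this
  · exact EllV_smul g

theorem adj_smul_iff {K : Cx G} (g : G) {x y : K.V} : K.adj (g • x) (g • y) ↔ K.adj x y := by
  constructor
  · intro h
    have := K.smul_adj g⁻¹ _ _ h
    simpa using this
  · exact K.smul_adj g _ _

theorem tri_smul_iff {K : Cx G} (g : G) {x y z : K.V} :
    K.tri (g • x) (g • y) (g • z) ↔ K.tri x y z := by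
  constructor
  · intro h
    have := K.smul_tri g⁻¹ _ _ _ h
    simpa using this
  · exact K.smul_tri g _ _ _

theorem Tadj_smul {D : Setup G} (g : G) {u w : D.U} (h : D.T.Adj u w) :
    D.T.Adj (g • u) (g • w) := by
  rw [D.adj_iff] at h ⊢
  rcases h with h | h
  · exact Or.inl (D.arr_smul g _ _ h)
  · exact Or.inr (D.arr_smul g _ _ h)

namespace Pts

variable {D : Setup G} {K : Cx G} (P : Pts D K)

theorem N_iter (g : G) (x : K.V) (u : D.U) (k : ℕ) :
    (P.N (g • x))^[k] (g • u) = g • (P.N x)^[k] u := by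
  induction k generalizing u with
  | zero => rfl
  | succ k ih => rw [Function.iterate_succ_apply, Function.iterate_succ_apply, P.eN, ih]

theorem M_iter (g : G) (x : K.V) (u : D.U) (k : ℕ) :
    (P.M (g • x))^[k] (g • u) = g • (P.M x)^[k] u := by
  induction k generalizing u with
  | zero => rfl
  | succ k ih => rw [Function.iterate_succ_apply, Function.iterate_succ_apply, P.eM, ih]

theorem N_eq_smul (g : G) {x y : K.V} : P.N (g • x) = P.N (g • y) ↔ P.N x = P.N y := by
  constructor
  · intro h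
    funext u
    have h1 := congrFun h (g • u)
    rw [P.eN, P.eN] at h1
    exact smul_left_cancel g h1
  · intro h
    funext u
    have h1 := congrFun h (g⁻¹ • u)
    have h2 := P.eN g x (g⁻¹ • u)
    have h3 := P.eN g y (g⁻¹ • u)
    rw [smul_inv_smul] at h2 h3
    rw [h2, h3, h1]

end Pts

end Pool.Agent.Helper93.HZ
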