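import Pool.Agent.Helper93.HZ.Spec3

/-!
# HZ: blow-ups (section 7), the lonely blow-up (section 8), the step and the end (sections 9, 10)
-/

set_option autoImplicit false

open MulAction Pointwise

namespace Pool.Agent.Helper93.HZ

variable {G : Type} [Group G]

/-- position data (7.1) -/
structure PD (D : Setup G) (K : Cx G) (P : Pts D K) where
  cl : K.V → Set K.V
  cl_self : ∀ x, x ∈ cl x
  cl_eq : ∀ x y, y ∈ cl x → cl y = cl x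
  cl_smul : ∀ (g : G) x, cl (g • x) = g • cl x
  cl_conn : ∀ x y, y ∈ cl x → Relation.ReflTransGen (fun p q => K.adj p q ∧ cl p = cl q) x y
  cl_ne : ∀ x, ∃ y, y ∉ cl x
  W : Type
  act : MulAction G W
  ρ : W → Set K.V
  ρ_smul : ∀ (g : G) p, ρ (g • p) = g • ρ p
  ρ_cl : ∀ p, ∃ x, ρ p = cl x
  ρ_surj : ∀ x, ∃ p, ρ p = cl x
  ss : W → W → Prop
  ss_symm : ∀ p q, ss p q → ss q p
  ss_irrefl : ∀ p, ¬ ss p p
  ss_smul : ∀ (g : G) p q, ss p q → ss (g • p) (g • q)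
  ss_fib : ∀ p q, ss p q → ρ p = ρ q
  ss_conn : ∀ p q, ρ p = ρ q → Relation.ReflTransGen ss p q
  ss_sc : SC ss (fun _ _ _ => False)
  /-- `π x y c`: the position in the fibre over `x` seen along the edge `{x,y}` at `c` -/
  π : K.V → K.V → D.U → W
  π_ρ : ∀ x y c, K.adj x y → cl x ≠ cl y → OnI (P.N x) (P.N y) c → ρ (π x y c) = cl x
  p1 : ∀ (g : G) x y c, K.adj x y → cl x ≠ cl y → OnI (P.N x) (P.N y) c →
    π (g • x) (g • y) (g • c) = g • π x y c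
  p2 : ∀ x y u w, K.adj x y → cl x ≠ cl y → Cross P x y u w →
    π x y u = π x y w ∨ ss (π x y u) (π x y w)
  p3 : ∀ x y z c, K.tri x y z → cl x ≠ cl y → cl x ≠ cl z →
    IsCenter (P.N x) (P.N y) (P.N z) c → π x y c = π x z c
  p4 : ∀ x y z c, K.tri x y z → cl x = cl y → cl y ≠ cl z →
    IsCenter (P.N x) (P.N y) (P.N z) c → π x z c = π y z c
  p5 : ∀ x y c c', K.adj x y → cl x ≠ cl y → ¬ Fr K x y → OnI (P.N x) (P.N y) c →
    OnI (P.N x) (P.N y) c' → π x y c = π x y c'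
  stab : ∀ p : W, FC (stabilizer G p)
  finW : FinOrb G (Set.univ : Set W)
  finS : FinOrb G {p : W × W | ss p.1 p.2}

attribute [instance] PD.act

namespace PD

variable {D : Setup G} {K : Cx G} {P : Pts D K} (F : PD D K P)

/-- convex hull of the centers of the triangles at `{x,y}` (all of `I(x,y)` if there is none) -/
def hull {D : Setup G} {K : Cx G} (P : Pts D K) (x y : K.V) : Set D.U :=
  {c | OnI (P.N x) (P.N y) c ∧ ((∃ z, K.tri x y z) → ∃ z₁ z₂ c₁ c₂, K.tri x y z₁ ∧ K.tri x y z₂ ∧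
    IsCenter (P.N x) (P.N y) (P.N z₁) c₁ ∧ IsCenter (P.N x) (P.N y) (P.N z₂) c₂ ∧
    (∃ k : ℕ, (P.N x)^[k] c₁ = c) ∧ ∃ k : ℕ, (P.N y)^[k] c₂ = c)}

/-- cells over the edge `{x,y}`; for `ε = {u,w}` crossed, `ξ_x` on the side of `u`, there is the
intermediate cell `(π x y w, π y x u)` -/
def cell (x y : K.V) (p q : F.W) : Prop := K.adj x y ∧ F.cl x ≠ F.cl y ∧
  ((∃ c ∈ hull P x y, p = F.π x y c ∧ q = F.π y x c) ∨
    ∃ u w, u ∈ hull P x y ∧ w ∈ hull P x y ∧ Cross P x y u w ∧ p = F.π x y w ∧ q = F.π y x u)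

/-- switches -/
def Sw : Set (K.V × K.V × D.U × D.U) := fun s => match s with
  | (x, y, u, w) => K.adj x y ∧ F.cl x ≠ F.cl y ∧ u ∈ hull P x y ∧ w ∈ hull P x y ∧
      Cross P x y u w ∧ F.π x y u ≠ F.π x y w

/-- D-triangles -/
def dt (p p' q : F.W) : Prop := ∃ x y u w, (x, y, u, w) ∈ F.Sw ∧ q = F.π y x u ∧
  ((p = F.π x y u ∧ p' = F.π x y w) ∨ (p = F.π x y w ∧ p' = F.π x y u))

/-- lifted triangles -/
def lt (p q r : F.W) : Prop := ∃ x y z c, K.tri x y z ∧ F.cl x ≠ F.cl y ∧ F.cl y ≠ F.cl z ∧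
  F.cl x ≠ F.cl z ∧ IsCenter (P.N x) (P.N y) (P.N z) c ∧
  p = F.π x y c ∧ q = F.π y z c ∧ r = F.π z x c

end PD

/-- PL: the position lemma 7.1. -/
def ST_PL : Prop := ∀ (G : Type) [Group G] (D : Setup G) (K : Cx G) (P : Pts D K),
  Red D K → RMin K → ND D K P → ∀ F : PD D K P,
  ∃ (R : Cx G) (e : R.V → F.W), Function.Bijective e ∧ (∀ (g : G) p, e (g • p) = g • e p) ∧
    (∀ p q, R.adj p q ↔ F.ss (e p) (e q) ∨ ∃ x y, F.cell x y (e p) (e q)) ∧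
    (∀ p q r, R.tri p q r ↔ F.lt (e p) (e q) (e r) ∨ F.dt (e p) (e q) (e r) ∨
      F.dt (e q) (e r) (e p) ∨ F.dt (e r) (e p) (e q)) ∧
    rr R ≤ oc G {s : Set K.V | ∃ x y z, K.tri x y z ∧ F.cl x ≠ F.cl y ∧ F.cl y ≠ F.cl z ∧
      F.cl x ≠ F.cl z ∧ s = {x, y, z}} + oc G F.Sw ∧
    (∀ p q r, F.lt p q r → F.ρ p ≠ F.ρ q ∧ F.ρ q ≠ F.ρ r ∧ F.ρ p ≠ F.ρ r) ∧
    (∀ p p' q, F.dt p p' q → F.ss p p' ∧ F.ρ q ≠ F.ρ p)

/-- STAR: 7.2. -/
def ST_STAR : Prop := ∀ (G : Type) [Group G] (X : Ctx G) (x : X.V) (u w : X.U) (C : Set X.V),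
  X.IsPl x u w C → 2 ≤ (X.exP x u w C).ncard

/-- LINE: 7.3. -/
def ST_LINE : Prop := ∀ (G : Type) [Group G] (X : Ctx G) (v : X.V) (u w : X.U),
  X.IsCl v u w → 2 ≤ (X.exQ v u w).ncard

/-- the blow-up `R` at a lonely hyperbolic vertex `v` (section 8) -/
structure LB (K : Cx G) (v : K.V) where
  R : Cx G
  ρ : R.V → K.V
  ρ_smul : ∀ (g : G) p, ρ (g • p) = g • ρ p
  surj : ∀ x, ∃ p, ρ p = x
  z : G
  zinf : ¬ IsOfFinOrder z
  zstab : stabilizer G v = Subgroup.zpowers z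
  lonely : ∀ y, K.adj v y → Fr K v y
  free : ∀ p, ρ p = v → ∀ g : G, g • p = p → g = 1
  fib : ∀ p p', ρ p = v → ρ p' = v → ∃ i : ℤ, p' = z ^ i • p
  inj : ∀ p p', ρ p = ρ p' → (∀ g : G, ρ p ≠ g • v) → p = p'
  adj1 : ∀ p p', R.adj p p' → ρ p = ρ p' ∨ K.adj (ρ p) (ρ p')
  ss : ∀ p p', ρ p = v → ρ p' = v → (R.adj p p' ↔ p' = z • p ∨ p' = z⁻¹ • p)
  trik : ∀ p q r, R.tri p q r → K.tri (ρ p) (ρ q) (ρ r) ∨ (ρ p = ρ q ∧ ρ r ≠ ρ p) ∨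
    (ρ q = ρ r ∧ ρ p ≠ ρ q) ∨ (ρ p = ρ r ∧ ρ q ≠ ρ p)
  lift : ∀ x y w, K.tri x y w → ∃ p q r, ρ p = x ∧ ρ q = y ∧ ρ r = w ∧ R.tri p q r ∧
    ∀ p' q' r', ρ p' = x → ρ q' = y → ρ r' = w → R.tri p' q' r' → p' = p ∧ q' = q ∧ r' = r
  cells : ∀ x y, K.adj x y → ∃ p q, ρ p = x ∧ ρ q = y ∧ R.adj p q
  /-- a cell in no D-triangle is the only cell of its `K`-edge -/
  alpha : ∀ p q, R.adj p q → ρ p ≠ ρ q → (∀ r, R.tri p q r → ρ r ≠ ρ p ∧ ρ r ≠ ρ q) →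
    ∀ p' q', R.adj p' q' → ρ p' = ρ p → ρ q' = ρ q → p' = p ∧ q' = q
  /-- the count over the cells of a `K`-edge -/
  beta : ∀ y, K.adj v y → (∀ p q, R.adj p q → ρ p = v → ρ q = y →
    {r | R.tri p q r}.Finite ∧ {r | R.tri p q r}.ncard ≤ 2) →
    {z | K.tri v y z}.Finite ∧ {z | K.tri v y z}.ncard ≤ 2
  /-- the D-triangles at an inverted cell are interchanged by the inversion -/
  gamma : ∀ q (s : G), ρ q = v → s * s = 1 → R.adj q (s • q) → ∀ r r', R.tri q (s • q) r →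
    R.tri q (s • q) r' → (ρ r = v ∨ ρ r = s • v) → (ρ r' = v ∨ ρ r' = s • v) →
    r' = r ∨ r' = s • r
  delta1 : rr R ≤ rr K + oc G {s : Set R.V | ∃ p q r, R.tri p q r ∧ ρ p = ρ q ∧ s = {p, q, r}}
  delta2 : oc G {s : Set R.V | ∃ p q r, R.tri p q r ∧ ρ p = ρ q ∧ s = {p, q, r}} ≤ 2

/-- LR: the lonely blow-up exists. -/
def ST_LR : Prop := ∀ (G : Type) [Group G] (X : Ctx G) (v : X.V), ¬ EllV X.D X.K v →
  (∀ y, X.K.adj v y → Fr X.K v y) → (∀ u w, Ax X.P v u w → (X.exQ v u w).ncard ≤ 2) →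
  Nonempty (LB X.K v)

/-- S5A: case A of 8.1. -/
def ST_S5A : Prop := ∀ (G : Type) [Group G] (D : Setup G) (K : Cx G) (v : K.V) (L : LB K v),
  Red D K → NMax K → ∀ q y : L.R.V, L.ρ q = v → L.R.adj q y → (∀ g : G, L.ρ y ≠ g • v) →
    {r | L.R.tri q y r}.Finite ∧ {r | L.R.tri q y r}.ncard ≤ 2

/-- the situation in case B of 8.1 if the degree is at least three -/
structure CaseB (K : Cx G) (v : K.V) (L : LB K v) (q w : L.R.V) (g : G) : Prop where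
  hq : L.ρ q = v
  hadj : L.R.adj q (g • q)
  gv : g • v ≠ v
  g2 : g * g ≠ 1
  g3 : g * g * g ≠ 1
  t0 : L.R.tri q (g • q) ((g * g) • q)
  t2 : L.R.tri q (g • q) w
  w1 : w ≠ g⁻¹ • q
  w2 : w ≠ (g * g) • q
  all : ∀ r, L.R.tri q (g • q) r → r = g⁻¹ • q ∨ r = (g * g) • q ∨ r = w
  /-- every triangle with two vertices in `<g> q` is a translate of `T₀` or `T₂` -/
  inQ : ∀ (i j : ℤ) r, L.R.tri (g ^ i • q) (g ^ j • q) r → ∃ m : G,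
    ({g ^ i • q, g ^ j • q, r} : Set L.R.V) = {m • q, m • g • q, m • (g * g) • q} ∨
    ({g ^ i • q, g ^ j • q, r} : Set L.R.V) = {m • q, m • g • q, m • w}
  oc2 : oc G {s : Set L.R.V | ∃ p q r, L.R.tri p q r ∧ L.ρ p = L.ρ q ∧ s = {p, q, r}} = 2

/-- S5B0: the beginning of case B. -/
def ST_S5B0 : Prop := ∀ (G : Type) [Group G] (D : Setup G) (K : Cx G) (v : K.V) (L : LB K v),
  Red D K → NMax K → ∀ (q : L.R.V) (g : G), L.ρ q = v → L.R.adj q (g • q) → g • v ≠ v →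
    g * g ≠ 1 →
    ({r | L.R.tri q (g • q) r}.Finite ∧ {r | L.R.tri q (g • q) r}.ncard ≤ 2) ∨
      ∃ w, CaseB K v L q w g

/-- S5B1: (B1) -/
def ST_S5B1 : Prop := ∀ (G : Type) [Group G] (D : Setup G) (K : Cx G) (v : K.V) (L : LB K v),
  Red D K → NMax K → ∀ (q w : L.R.V) (g : G), CaseB K v L q w g → g ^ 4 ≠ 1 →
    (∀ r, L.R.tri q ((g * g) • q) r → r = g • q) → False

/-- S5B2: (B2) -/
def ST_S5B2 : Prop := ∀ (G : Type) [Group G] (D : Setup G) (K : Cx G) (v : K.V) (L : LB K v),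
  Red D K → NMax K → ∀ (q w : L.R.V) (g : G), CaseB K v L q w g → g ^ 4 ≠ 1 →
    (∃ r, L.R.tri q ((g * g) • q) r ∧ r ≠ g • q) → ¬ EllV D K v → False

/-- S5B3: (B3) -/
def ST_S5B3 : Prop := ∀ (G : Type) [Group G] (D : Setup G) (K : Cx G) (v : K.V) (L : LB K v),
  Red D K → NMax K → ∀ (q w : L.R.V) (g : G), CaseB K v L q w g → g ^ 4 = 1 → False

/-- S5C: case C -/
def ST_S5C : Prop := ∀ (G : Type) [Group G] (D : Setup G) (K : Cx G) (v : K.V) (L : LB K v),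
  Red D K → NMax K → ∀ (q : L.R.V) (s : G), L.ρ q = v → L.R.adj q (s • q) → s • v ≠ v →
    s * s = 1 → {r | L.R.tri q (s • q) r}.Finite ∧ {r | L.R.tri q (s • q) r}.ncard ≤ 2

/-- LON: 8.2. -/
def ST_LON : Prop := ∀ (G : Type) [Group G] (X : Ctx G) (v : X.V), ¬ EllV X.D X.K v →
  (∀ y, X.K.adj v y → Fr X.K v y) →
  (∀ u w, Ax X.P v u w → 2 ≤ (X.exQ v u w).ncard) →
  (∀ y, X.K.adj v y → {z | X.K.tri v y z}.Finite ∧ {z | X.K.tri v y z}.ncard ≤ 2) → False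

/-- M: 8.3. -/
def ST_M : Prop := ∀ (G : Type) [Group G] (D : Setup G) (K : Cx G), Opt K → Red D K →
  ∀ x : K.V, ¬ EllV D K x → ∀ g : G, g • x = x → ∀ ψ : G →* Multiplicative ℚ, ψ g = 1

/-! ## The step and the end -/

/-- K1: 9.3: from the (pruned) resolved complex to a complex for `θ(G)`, transported to `G`. -/
def ST_K1 : Prop := ∀ (G : Type) [Group G] (X : Ctx G) (K2 K3 : Cx G) (e : K2.V → AV X.Q)
  (i : K3.V → K2.V), Function.Injective e → (∀ (g : G) p, e (g • p) = g • e p) →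
  (∀ p, (∃ p', e p' = p) ↔ ∃ q, aadj X.Q p q) →
  (∀ p q, K2.adj p q ↔ aadj X.Q (e p) (e q)) →
  (∀ p q r, K2.tri p q r ↔ atri X.Q (e p) (e q) (e r)) →
  Sub K3 K2 i → Red X.D K3 →
  ∃ (K' : Cx G) (π : K3.V → K'.V), (∀ (g : G) p, π (X.D.θ g • p) = g • π p) ∧
    rr K' ≤ rr K3 ∧ nn K3 ≤ nn K' ∧ dd K' ≤ dd K3 ∧
    (∀ u w, X.D.T.Adj u w → ∃ p : K3.V, stabilizer G p ≤ stabilizer G u ⊓ stabilizer G w)

/-- STEP: 9.4. -/
def ST_STEP : Prop := ∀ (G : Type) [Group G] (D : Setup G) (K : Cx G), Opt K → Red D K →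
  ∃ K' : Cx G, Opt K' ∧ Red D K' ∧ PP K' D.a ∧ PP K' D.b ∧
    ∀ h : G, ¬ IsOfFinOrder h → PP K (D.θ h) → PP K' h

/-- FIN1: types I and II, 10.1-10.3. -/
def ST_FIN : Prop := ∀ (G : Type) [Group G] (D : Setup G) (K0 : Cx G), Opt K0 → Red D K0 →
  (∀ K : Cx G, Opt K → Red D K → ∃ K' : Cx G, Opt K' ∧ Red D K' ∧ PP K' D.a ∧ PP K' D.b ∧
    ∀ h : G, ¬ IsOfFinOrder h → PP K (D.θ h) → PP K' h) →
  (∀ K : Cx G, Opt K → Red D K → ∀ x : K.V, ¬ EllV D K x → ∀ g : G, g • x = x →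
    ∀ ψ : G →* Multiplicative ℚ, ψ g = 1) → False

end Pool.Agent.Helper93.HZ
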