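import Pool.Agent.Helper93.HZ.Base

/-!
# HZ: the `ℓ²` graph lemma (6.7)
-/

set_option autoImplicit false

open MulAction Pointwise

namespace Pool.Agent.Helper93.HZ

section raw

variable {X Y : Type} (NY : Set Y) (s t : Y → Option X)

/-- adjacency of nodes -/
def stepR (p q : X) : Prop :=
  ∃ y ∈ NY, (s y = some p ∧ t y = some q) ∨ (s y = some q ∧ t y = some p)

def compR (p : X) : Set X := {q | Relation.ReflTransGen (stepR NY s t) p q}

/-- the component of `p` is finite and no edge leads from it to `∞` (`none`) -/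
def goodR (p : X) : Prop := (compR NY s t p).Finite ∧
  ∀ q ∈ compR NY s t p, ∀ y ∈ NY, (s y = some q → (t y).isSome) ∧ (t y = some q → (s y).isSome)

/-- number of orbits of good components -/
noncomputable def cR (G : Type) [Group G] [MulAction G X] (NX : Set X) : ℕ :=
  oc G {C : Set X | ∃ p ∈ NX, goodR NY s t p ∧ C = compR NY s t p}

/-- divergence -/
noncomputable def divR (b : Y → ℝ) (p : X) : ℝ :=
  (∑ᶠ (y) (_ : y ∈ NY ∧ s y = some p), b y) - ∑ᶠ (y) (_ : y ∈ NY ∧ t y = some p), b y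

/-- square summable functions supported on `NY` with zero divergence at the nodes in `NX` -/
def cycR (NX : Set X) : Set (Y → ℝ) :=
  {b | (∀ y ∉ NY, b y = 0) ∧ Summable (fun y => b y ^ 2) ∧ ∀ p ∈ NX, divR NY s t b p = 0}

/-- the equivariant graph hypotheses -/
structure GrH (G : Type) [Group G] [MulAction G X] [MulAction G Y] (NX : Set X) : Prop where
  smulX : ∀ (g : G), ∀ x ∈ NX, g • x ∈ NX
  smulY : ∀ (g : G), ∀ y ∈ NY, g • y ∈ NY
  freeX : ∀ (g : G), ∀ x ∈ NX, g • x = x → g = 1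
  freeY : ∀ (g : G), ∀ y ∈ NY, g • y = y → g = 1
  finX : FinOrb G NX
  finY : FinOrb G NY
  sN : ∀ y ∈ NY, ∀ x, s y = some x → x ∈ NX
  tN : ∀ y ∈ NY, ∀ x, t y = some x → x ∈ NX
  sE : ∀ (g : G), ∀ y ∈ NY, s (g • y) = (s y).map (g • ·)
  tE : ∀ (g : G), ∀ y ∈ NY, t (g • y) = (t y).map (g • ·)
  triv : ∀ p ∈ NX, goodR NY s t p → ∀ g : G, g • compR NY s t p = compR NY s t p → g = 1

end raw

/-- an equivariant, support preserving, `ℓ²`-bounded linear map -/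
structure L2Map (G : Type) [Group G] {Y : Type} [MulAction G Y] (NY : Set Y)
    (Φ : (Y → ℝ) →ₗ[ℝ] (Y → ℝ)) : Prop where
  supp : ∀ b : Y → ℝ, (∀ y ∉ NY, b y = 0) → ∀ y ∉ NY, Φ b y = 0
  equi : ∀ (g : G) (b : Y → ℝ), (∀ y ∉ NY, b y = 0) →
    Φ (fun y => b (g • y)) = fun y => Φ b (g • y)
  bdd : ∃ C : ℝ, ∀ b : Y → ℝ, (∀ y ∉ NY, b y = 0) → Summable (fun y => b y ^ 2) →
    Summable (fun y => Φ b y ^ 2) ∧ ∑' y, Φ b y ^ 2 ≤ C * ∑' y, b y ^ 2

/-- L2: the dimension count. -/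
def ST_L2 : Prop := ∀ (G : Type) [Group G] (Y : Type) [MulAction G Y] (NY : Set Y)
  (X₁ : Type) [MulAction G X₁] (NX₁ : Set X₁) (s₁ t₁ : Y → Option X₁)
  (X₂ : Type) [MulAction G X₂] (NX₂ : Set X₂) (s₂ t₂ : Y → Option X₂)
  (Φ Ψ : (Y → ℝ) →ₗ[ℝ] (Y → ℝ)),
  GrH NY s₁ t₁ G NX₁ → GrH NY s₂ t₂ G NX₂ →
  L2Map G NY Φ → L2Map G NY Ψ →
  (∀ b : Y → ℝ, (∀ y ∉ NY, b y = 0) → Ψ (Φ b) = b ∧ Φ (Ψ b) = b) →
  (∀ b ∈ cycR NY s₁ t₁ NX₁, Φ b ∈ cycR NY s₂ t₂ NX₂) →
  cR NY s₁ t₁ G NX₁ + oc G NX₂ ≤ cR NY s₂ t₂ G NX₂ + oc G NX₁ ∧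
  (cR NY s₁ t₁ G NX₁ + oc G NX₂ = cR NY s₂ t₂ G NX₂ + oc G NX₁ →
    ∀ b ∈ cycR NY s₂ t₂ NX₂, Ψ b ∈ cycR NY s₁ t₁ NX₁)

/-! ### Hilbert space part -/

abbrev HS (Y : Type) : Type := lp (fun _ : Y => ℝ) 2

/-- equivariance of an operator -/
def EqvO (G : Type) [Group G] {Y X : Type} [MulAction G Y] [MulAction G X]
    (T : HS Y →L[ℝ] HS X) : Prop :=
  ∀ (g : G) (f f' : HS Y), (∀ y, f' y = f (g • y)) → ∀ x, T f' x = T f (g • x)

/-- invariance of a subspace -/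
def InvS (G : Type) [Group G] {Y : Type} [MulAction G Y] (N : Submodule ℝ (HS Y)) : Prop :=
  ∀ (g : G) (f f' : HS Y), (∀ y, f' y = f (g • y)) → f ∈ N → f' ∈ N

open Classical in
/-- von Neumann dimension of a closed invariant subspace: the sum over the orbits of
`‖P_N δ_y‖² = 1 - dist(δ_y, N)²` -/
noncomputable def dimG (G : Type) [Group G] {Y : Type} [MulAction G Y]
    (N : Submodule ℝ (HS Y)) : ℝ :=
  ∑ᶠ o : Quotient (orbitRel G Y),
    (1 - Metric.infDist (lp.single 2 o.out (1 : ℝ) : HS Y) (N : Set (HS Y)) ^ 2)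

/-- L2A: the rank formula. -/
def ST_L2A : Prop := ∀ (G : Type) [Group G] (Y X : Type) [MulAction G Y] [MulAction G X],
  (∀ (g : G) (y : Y), g • y = y → g = 1) → (∀ (g : G) (x : X), g • x = x → g = 1) →
  Finite (Quotient (orbitRel G Y)) → Finite (Quotient (orbitRel G X)) →
  ∀ (T : HS Y →L[ℝ] HS X), EqvO G T →
    dimG G (LinearMap.ker T.toLinearMap) - dimG G (LinearMap.ker (ContinuousLinearMap.adjoint T).toLinearMap)
      = (Nat.card (Quotient (orbitRel G Y)) : ℝ) - Nat.card (Quotient (orbitRel G X))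

/-- L2B: monotonicity and invariance of the dimension. -/
def ST_L2B : Prop := ∀ (G : Type) [Group G] (Y : Type) [MulAction G Y],
  (∀ (g : G) (y : Y), g • y = y → g = 1) → Finite (Quotient (orbitRel G Y)) →
  (∀ N N' : Submodule ℝ (HS Y), IsClosed (N : Set (HS Y)) → IsClosed (N' : Set (HS Y)) →
    InvS G N → InvS G N' → N ≤ N' → dimG G N ≤ dimG G N' ∧ (dimG G N' ≤ dimG G N → N = N')) ∧
  (∀ (Φ Ψ : HS Y →L[ℝ] HS Y), EqvO G Φ → EqvO G Ψ → (∀ f, Ψ (Φ f) = f) → (∀ f, Φ (Ψ f) = f) →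
    ∀ N : Submodule ℝ (HS Y), IsClosed (N : Set (HS Y)) → InvS G N →
      dimG G (N.map Φ.toLinearMap) = dimG G N)

/-- L2C: the dimension of the space of square summable functions which are constant along the
edges and vanish at nodes joined to `∞`. -/
def ST_L2C : Prop := ∀ (G : Type) [Group G] (Y X : Type) [MulAction G Y] [MulAction G X]
  (s t : Y → Option X), GrH (Set.univ : Set Y) s t G (Set.univ : Set X) →
  ∀ N : Submodule ℝ (HS X),
    (∀ f : HS X, f ∈ N ↔ ∀ y : Y, (s y).elim 0 (fun p => f p) = (t y).elim 0 (fun p => f p)) →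
    dimG G N = cR (Set.univ : Set Y) s t G (Set.univ : Set X)

end Pool.Agent.Helper93.HZ
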