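import Pool.Agent.Helper93.HZ.Spec2
import Pool.Agent.Helper93.HZ.L2

/-!
# HZ: nodes, arcs, bands (section 6)

Conventions: a `T`-dart `(u,w)` is `crossed` by the `K`-dart `(x,y)` if `ξ_x` is on the side of `u`
and `ξ_y` on the side of `w`, i.e. `N x w = u` and `N y u = w`.
-/

set_option autoImplicit false

open MulAction Pointwise

namespace Pool.Agent.Helper93.HZ

variable {G : Type} [Group G]

section defs

variable {D : Setup G} {K : Cx G} (P : Pts D K)

/-- `S_ε(v)` for the axis dart `(u,w)` pointing to `ξ_v`: the vertices `y` of the link of `v` with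
`ξ_y` on the side of `u`, in an infinite component of the graph induced by such vertices. -/
def Sset (v : K.V) (u w : D.U) : Set K.V :=
  {y | K.adj v y ∧ P.N y w = u ∧
    {y' | Relation.ReflTransGen
      (fun p q => K.tri v p q ∧ P.N p w = u ∧ P.N q w = u) y y'}.Infinite}

/-- the `K`-dart `(x,y)` crosses the `T`-dart `(u,w)` -/
def Cross (x y : K.V) (u w : D.U) : Prop := D.T.Adj u w ∧ P.N x w = u ∧ P.N y u = w

/-- type (f) adjacency -/
def TF (D : Setup G) (K : Cx G) (v v' : K.V) : Prop :=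
  K.adj v v' ∧ ¬ EllV D K v ∧ ¬ EllV D K v' ∧ ¬ Fr K v v'

/-- the cluster of `v` -/
def cl (D : Setup G) (K : Cx G) (v : K.V) : Set K.V :=
  {v' | Relation.ReflTransGen (TF D K) v v'}

/-- the cluster of `v` is of finite type (`u,w` an edge of its axis) -/
def FT (D : Setup G) (K : Cx G) (v : K.V) (u w : D.U) : Prop :=
  ∀ g : G, g • cl D K v = cl D K v → g • u = u → g • w = w → g = 1

/-- `ε = {u,w}` is an edge of the axis of `v`, in one of the two directions -/
def Ax2 (v : K.V) (u w : D.U) : Prop := Ax P v u w ∨ Ax P v w u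

/-- (T1) and (T2) -/
structure Good (Q : Thr D K P) : Prop where
  T1 : ∀ v y z, ¬ EllV D K v → K.tri v y z → Fr K v y → P.N v ≠ P.N y →
    P.N y (Q.Q v y) = P.N z (Q.Q v y) ∧ P.N y (Q.Q v y) ≠ Q.Q v y
  T2 : ∀ v y (k : ℕ), ¬ EllV D K v → K.adj v y → Fr K v y → P.N v ≠ P.N y →
    y ∈ Sset P v ((P.N v)^[k] (Q.Q v y)) ((P.N v)^[k + 1] (Q.Q v y))

end defs

/-- context for the count -/
structure Ctx (G : Type) [Group G] where
  D : Setup G
  K : Cx G
  P : Pts D K
  Q : Thr D K P
  red : Red D K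
  nmax : NMax K
  nd : ND D K P
  good : Good P Q

namespace Ctx

variable (X : Ctx G)

abbrev V : Type := X.K.V
abbrev U : Type := X.D.U

/-- honest at the vertex `u` -/
def Hon (x y : X.V) (u : X.U) : Prop :=
  (∃ k : ℕ, (X.P.N y)^[k] (X.Q.Q x y) = u) ∧ ∃ k : ℕ, (X.P.N x)^[k] (X.Q.Q y x) = u

/-- strictly beyond the threshold at `x` -/
def Dp (x y : X.V) (u : X.U) : Prop :=
  ¬ EllV X.D X.K x ∧ ∃ k : ℕ, u = (X.P.N x)^[k + 1] (X.Q.Q x y)

/-- a free crossing dart -/
def FC2 (x y : X.V) : Prop := X.K.adj x y ∧ Fr X.K x y ∧ X.P.N x ≠ X.P.N y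

/-- ambient types of nodes -/
abbrev NP : Type := (X.V × X.V × X.U × X.U) ⊕ (Set X.V × X.U × X.U)
abbrev NS : Type := (X.V × X.V × X.U) ⊕ (Set X.V × X.U × X.U)

/-- the nodes of the graph of points -/
def NPs : Set X.NP := fun n => match n with
  | .inl (x, y, u, w) => X.FC2 x y ∧ Cross X.P x y u w ∧ X.Hon x y u ∧ X.Hon x y w
  | .inr (C, u, w) => ∃ v, C = cl X.D X.K v ∧ ¬ EllV X.D X.K v ∧ Ax2 X.P v u w ∧
      FT X.D X.K v u w

/-- the nodes of the graph of segments -/
def NSs : Set X.NS := fun n => match n with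
  | .inl (x, y, u) => X.FC2 x y ∧ OnI (X.P.N x) (X.P.N y) u ∧ X.Hon x y u
  | .inr (C, u, w) => ∃ v, C = cl X.D X.K v ∧ ¬ EllV X.D X.K v ∧ Ax2 X.P v u w ∧
      FT X.D X.K v u w

open Classical in
/-- the node of the `K`-dart `(x,y)` over the `T`-dart `(u,w)` -/
noncomputable def ptN (x y : X.V) (u w : X.U) : Option X.NP :=
  if Fr X.K x y ∧ X.Hon x y u ∧ X.Hon x y w then some (.inl (x, y, u, w))
  else if ¬ EllV X.D X.K x ∧ (¬ Fr X.K x y ∨ X.Dp x y u) then
    (if FT X.D X.K x u w then some (.inr (cl X.D X.K x, u, w)) else none)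
  else if ¬ EllV X.D X.K y ∧ X.Dp y x w then
    (if FT X.D X.K y u w then some (.inr (cl X.D X.K y, u, w)) else none)
  else none

open Classical in
/-- the node of the `K`-dart `(x,y)` over the `T`-vertex `u` -/
noncomputable def segN (x y : X.V) (u : X.U) : Option X.NS :=
  if Fr X.K x y ∧ X.Hon x y u then some (.inl (x, y, u))
  else if ¬ EllV X.D X.K x ∧ (¬ Fr X.K x y ∨ X.Dp x y u) then
    (if FT X.D X.K x u (X.P.N y u) then some (.inr (cl X.D X.K x, u, X.P.N y u)) else none)
  else if ¬ EllV X.D X.K y ∧ X.Dp y x u then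
    (if FT X.D X.K y u (X.P.N y u) then some (.inr (cl X.D X.K y, u, X.P.N y u)) else none)
  else none

/-- arcs = bands: corner `x` of the triangle `{x,y,z}`, `w` a vertex of the leg of `x` different
from the center (for arcs: the outer endpoint of the edge), `o = true`: `out`, `false`: `in` -/
structure Band (G : Type) [Group G] (X : Ctx G) where
  x : X.V
  y : X.V
  z : X.V
  w : X.U
  o : Bool

instance : MulAction G (Band G X) where
  smul g b := ⟨g • b.x, g • b.y, g • b.z, g • b.w, b.o⟩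
  one_smul b := by
    show (⟨_, _, _, _, _⟩ : Band G X) = _
    simp
  mul_smul g h b := by
    show (⟨_, _, _, _, _⟩ : Band G X) = ⟨_, _, _, _, _⟩
    simp only [mul_smul]
    rfl

/-- actual (kept) bands -/
def BN : Set (Band G X) := {b | X.K.tri b.x b.y b.z ∧
  X.P.N b.y b.w = X.P.N b.z b.w ∧ X.P.N b.y b.w ≠ b.w ∧ X.P.N b.x b.w ≠ X.P.N b.y b.w ∧
  ((Fr X.K b.x b.y ∧ X.Hon b.x b.y b.w) ∨ (Fr X.K b.x b.z ∧ X.Hon b.x b.z b.w))}

/-- start and end of a band in the graph of segments -/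
noncomputable def sS (b : Band G X) : Option X.NS :=
  if b.o then X.segN b.x b.y b.w else X.segN b.y b.x b.w
noncomputable def tS (b : Band G X) : Option X.NS :=
  if b.o then X.segN b.x b.z b.w else X.segN b.z b.x b.w

/-- start and end of the arc in the graph of points (inner endpoint `u = N y w`) -/
noncomputable def sP (b : Band G X) : Option X.NP :=
  if b.o then X.ptN b.x b.y b.w (X.P.N b.y b.w) else X.ptN b.y b.x (X.P.N b.y b.w) b.w
noncomputable def tP (b : Band G X) : Option X.NP :=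
  if b.o then X.ptN b.x b.z b.w (X.P.N b.y b.w) else X.ptN b.z b.x (X.P.N b.y b.w) b.w

open Classical in
/-- the operator `∂`: value at the tail minus value at the head of the `T`-edge -/
noncomputable def del (f : Band G X → ℝ) (b : Band G X) : ℝ :=
  if b ∈ X.BN then
    (if X.D.arr b.w (X.P.N b.y b.w) then 1 else -1) *
      (f b - (if (⟨b.x, b.y, b.z, X.P.N b.y b.w, b.o⟩ : Band G X) ∈ X.BN then
        f ⟨b.x, b.y, b.z, X.P.N b.y b.w, b.o⟩ else 0))
  else 0

end Ctx

end Pool.Agent.Helper93.HZ
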