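import Pool.Agent.Helper93.HZ.Spec1

/-!
# HZ: the resolved complex `K''` (section 4 of the paper proof)

Ambient vertex type `AV = K.V ⊕ Quot TRel`; the complex `K''` has as vertices the elements of `AV`
which have an `aadj`-neighbour.
-/

set_option autoImplicit false

open MulAction Pointwise

namespace Pool.Agent.Helper93.HZ

variable {G : Type} [Group G]

/-- tokens: `e u w x y` = the `K`-edge `{x,y}` over the `T`-edge `{u,w}`;
`l u w v` = the line of `v` over `{u,w}` -/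
inductive Tk (U V : Type) : Type
  | e (u w : U) (x y : V) : Tk U V
  | l (u w : U) (v : V) : Tk U V

instance {U V : Type} [MulAction G U] [MulAction G V] : MulAction G (Tk U V) where
  smul g τ := match τ with
    | .e u w x y => .e (g • u) (g • w) (g • x) (g • y)
    | .l u w v => .l (g • u) (g • w) (g • v)
  one_smul τ := by
    cases τ
    · show Tk.e _ _ _ _ = _
      simp
    · show Tk.l _ _ _ = _
      simp
  mul_smul g h τ := by
    cases τ
    · show Tk.e _ _ _ _ = Tk.e _ _ _ _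
      simp [mul_smul]
    · show Tk.l _ _ _ = Tk.l _ _ _
      simp [mul_smul]

@[simp] theorem Tk.smul_e {U V : Type} [MulAction G U] [MulAction G V] (g : G) (u w : U)
    (x y : V) : g • (Tk.e u w x y) = Tk.e (g • u) (g • w) (g • x) (g • y) := rfl

@[simp] theorem Tk.smul_l {U V : Type} [MulAction G U] [MulAction G V] (g : G) (u w : U)
    (v : V) : g • (Tk.l u w v : Tk U V) = Tk.l (g • u) (g • w) (g • v) := rfl

/-- `(u,w)` is a dart of the axis of `v` pointing to `ξ_v` -/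
def Ax {D : Setup G} {K : Cx G} (P : Pts D K) (v : K.V) (u w : D.U) : Prop :=
  P.N v u = w ∧ P.M v w = u ∧ P.N v u ≠ u

/-- thresholds -/
structure Thr (D : Setup G) (K : Cx G) (P : Pts D K) where
  Q : K.V → K.V → D.U
  eq : ∀ (g : G) x y, K.adj x y → Fr K x y → Q (g • x) (g • y) = g • Q x y
  ell : ∀ x y, K.adj x y → EllV D K x → P.N x (Q x y) = Q x y
  hyp : ∀ x y, K.adj x y → Fr K x y → ¬ EllV D K x → P.N x ≠ P.N y →
    OnI (P.N x) (P.N y) (Q x y) ∧ P.N x (Q x y) ≠ P.M x (Q x y)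

/-- generating relation between tokens -/
inductive TRel {D : Setup G} {K : Cx G} {P : Pts D K} (Q : Thr D K P) :
    Tk D.U K.V → Tk D.U K.V → Prop
  | swU (u w x y) : TRel Q (.e u w x y) (.e w u x y)
  | swV (u w x y) : TRel Q (.e u w x y) (.e u w y x)
  | swL (u w v) : TRel Q (.l u w v) (.l w u v)
  | t1 (x y z u w) : K.tri x y z → D.T.Adj u w → P.N x u = w → P.N y w = u → P.N z w = u →
      TRel Q (.e u w x y) (.e u w x z)
  | t2 (v y) (k : ℕ) : K.adj v y → Fr K v y → ¬ EllV D K v → P.N v ≠ P.N y →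
      TRel Q (.e ((P.N v)^[k] (Q.Q v y)) ((P.N v)^[k + 1] (Q.Q v y)) v y)
        (.l ((P.N v)^[k] (Q.Q v y)) ((P.N v)^[k + 1] (Q.Q v y)) v)
  | t3 (v v' u w) : K.adj v v' → P.N v = P.N v' → ¬ EllV D K v → ¬ EllV D K v' →
      Ax P v u w → Ax P v' u w → TRel Q (.l u w v) (.l u w v')
  | t4 (v v' u w) : K.adj v v' → P.N v ≠ P.N v' → ¬ Fr K v v' → ¬ EllV D K v →
      ¬ EllV D K v' → Ax P v u w → TRel Q (.e u w v v') (.l u w v)

theorem Ax_smul {D : Setup G} {K : Cx G} (P : Pts D K) (g : G) {v : K.V} {u w : D.U}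
    (h : Ax P v u w) : Ax P (g • v) (g • u) (g • w) := by
  obtain ⟨h1, h2, h3⟩ := h
  refine ⟨by rw [P.eN, h1], by rw [P.eM, h2], ?_⟩
  rw [P.eN]
  intro h
  exact h3 (smul_left_cancel g h)

/-- TEQ: `TRel` is equivariant -/
theorem TRel_smul {D : Setup G} {K : Cx G} {P : Pts D K} (Q : Thr D K P)
    (g : G) (τ τ' : Tk D.U K.V) (h : TRel Q τ τ') : TRel Q (g • τ) (g • τ') := by
  cases h with
  | swU u w x y => exact TRel.swU _ _ _ _
  | swV u w x y => exact TRel.swV _ _ _ _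
  | swL u w v => exact TRel.swL _ _ _
  | t1 x y z u w h1 h2 h3 h4 h5 =>
    refine TRel.t1 _ _ _ _ _ (K.smul_tri g _ _ _ h1) (Tadj_smul g h2) ?_ ?_ ?_
    · rw [P.eN, h3]
    · rw [P.eN, h4]
    · rw [P.eN, h5]
  | t2 v y k h1 h2 h3 h4 =>
    have h5 := TRel.t2 (Q := Q) (g • v) (g • y) k (K.smul_adj g _ _ h1) (Fr_smul g h2)
      (fun h => h3 ((EllV_smul_iff g).1 h)) (fun h => h4 ((P.N_eq_smul g).1 h))
    rw [Q.eq g v y h1 h2, P.N_iter, P.N_iter] at h5
    exact h5
  | t3 v v' u w h1 h2 h3 h4 h5 h6 =>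
    exact TRel.t3 _ _ _ _ (K.smul_adj g _ _ h1) ((P.N_eq_smul g).2 h2)
      (fun h => h3 ((EllV_smul_iff g).1 h)) (fun h => h4 ((EllV_smul_iff g).1 h))
      (Ax_smul P g h5) (Ax_smul P g h6)
  | t4 v v' u w h1 h2 h3 h4 h5 h6 =>
    exact TRel.t4 _ _ _ _ (K.smul_adj g _ _ h1) (fun h => h2 ((P.N_eq_smul g).1 h))
      (fun h => h3 ((Fr_smul_iff g).1 h))
      (fun h => h4 ((EllV_smul_iff g).1 h)) (fun h => h5 ((EllV_smul_iff g).1 h))
      (Ax_smul P g h6)

instance {D : Setup G} {K : Cx G} {P : Pts D K} (Q : Thr D K P) :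
    MulAction G (Quot (TRel Q)) where
  smul g := Quot.map (fun τ => g • τ) (fun τ τ' h => TRel_smul Q g τ τ' h)
  one_smul q := by
    induction q using Quot.ind with
    | mk τ =>
      show Quot.mk _ ((1 : G) • τ) = _
      rw [one_smul]
  mul_smul g h q := by
    induction q using Quot.ind with
    | mk τ =>
      show Quot.mk _ ((g * h) • τ) = Quot.mk _ (g • (h • τ))
      rw [mul_smul]

/-- the ambient vertex type of the resolved complex -/
abbrev AV {D : Setup G} {K : Cx G} {P : Pts D K} (Q : Thr D K P) : Type :=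
  K.V ⊕ Quot (TRel Q)

/-- the track of a token -/
def tk {D : Setup G} {K : Cx G} {P : Pts D K} (Q : Thr D K P) (τ : Tk D.U K.V) : AV Q :=
  Sum.inr (Quot.mk _ τ)

theorem tk_smul {D : Setup G} {K : Cx G} {P : Pts D K} (Q : Thr D K P) (g : G)
    (τ : Tk D.U K.V) : tk Q (g • τ) = g • tk Q τ := rfl

open Classical in
/-- the position over `u` of the dart `(x,y)` on the side of `x` -/
noncomputable def pos {D : Setup G} {K : Cx G} {P : Pts D K} (Q : Thr D K P) (x y : K.V)
    (u : D.U) : AV Q :=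
  if P.N x u = u then Sum.inl x else tk Q (.e u (P.N x u) x y)

theorem pos_smul {D : Setup G} {K : Cx G} {P : Pts D K} (Q : Thr D K P) (g : G) (x y : K.V)
    (u : D.U) : pos Q (g • x) (g • y) (g • u) = g • pos Q x y u := by
  unfold pos
  rw [P.eN]
  by_cases h : P.N x u = u
  · rw [if_pos h, if_pos (by rw [h])]; rfl
  · rw [if_neg h, if_neg (fun h' => h (smul_left_cancel g h'))]; rfl

/-- darts of the resolved complex over `u` coming from `K`-darts -/
def adj1 {D : Setup G} {K : Cx G} {P : Pts D K} (Q : Thr D K P) (p q : AV Q) : Prop :=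
  ∃ x y u, K.adj x y ∧ (P.N x = P.N y → ∃ u', P.N x u' = u') ∧ OnI (P.N x) (P.N y) u ∧
    p = pos Q x y u ∧ q = pos Q y x u

/-- darts of the resolved complex along lines -/
def adj2 {D : Setup G} {K : Cx G} {P : Pts D K} (Q : Thr D K P) (p q : AV Q) : Prop :=
  ∃ v u, ¬ EllV D K v ∧ P.N v u ≠ P.M v u ∧
    ((p = tk Q (.l u (P.N v u) v) ∧ q = tk Q (.l u (P.M v u) v)) ∨
      (q = tk Q (.l u (P.N v u) v) ∧ p = tk Q (.l u (P.M v u) v)))

def aadj {D : Setup G} {K : Cx G} {P : Pts D K} (Q : Thr D K P) (p q : AV Q) : Prop :=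
  adj1 Q p q ∨ adj2 Q p q

def atri {D : Setup G} {K : Cx G} {P : Pts D K} (Q : Thr D K P) (p q r : AV Q) : Prop :=
  ∃ x y z c, K.tri x y z ∧ IsCenter (P.N x) (P.N y) (P.N z) c ∧
    p = pos Q x y c ∧ q = pos Q y z c ∧ r = pos Q z x c

end Pool.Agent.Helper93.HZ
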