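import Pool.Agent.Helper93.HZ.Base

/-!
# HZ: statements, part 1 (set-up, trees, general lemmas on complexes, pruning)
-/

set_option autoImplicit false

open MulAction Pointwise

namespace Pool.Agent.Helper93.HZ

/-! ## A. Set-up -/

/-- END: the frozen form of one-endedness implies the coboundary form (S4). -/
def ST_END : Prop := ∀ (G : Type) [Group G] (S : Finset G),
  Subgroup.closure (S : Set G) = ⊤ →
  Nonempty (Unique (SimpleGraph.end
    (SimpleGraph.fromRel (fun x y : G => ∃ s ∈ S, y = x * s)))) → OneEnd G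

/-- arrows of the Bass–Serre graph on `E ⧸ H` -/
def cosetArr {E : Type} [Group E] (H : Subgroup E) (t : E) (x y : E ⧸ H) : Prop :=
  ∃ g : E, x = (g : E ⧸ H) ∧ y = ((g * t : E) : E ⧸ H)

/-- BT: the Bass–Serre graph of an HNN extension is a tree, no edge is traversed both ways. -/
def ST_BT : Prop := ∀ (G : Type) [Group G] (A B : Subgroup G) (φ : A ≃* B),
  (SimpleGraph.fromRel (cosetArr (HNNExtension.of (A := A) (B := B) (φ := φ)).range
      (HNNExtension.t : HNNExtension G A B φ))).IsTree ∧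
  ∀ x y, cosetArr (HNNExtension.of (A := A) (B := B) (φ := φ)).range
      (HNNExtension.t : HNNExtension G A B φ) x y →
    ¬ cosetArr (HNNExtension.of (A := A) (B := B) (φ := φ)).range
      (HNNExtension.t : HNNExtension G A B φ) y x

/-- BST: the set-up exists. -/
def ST_BST : Prop := ∀ (G : Type) [Group G] (a b : G), ¬ IsOfFinOrder a → ¬ IsOfFinOrder b →
  OneEnd G → ∀ φ : Subgroup.zpowers a ≃* Subgroup.zpowers b,
    ((φ ⟨a, Subgroup.mem_zpowers a⟩ : Subgroup.zpowers b) : G) = b →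
    Nonempty (HNNExtension G (Subgroup.zpowers a) (Subgroup.zpowers b) φ ≃* G) →
    Nonempty (Setup G)

/-! ### Fields on trees -/

/-- TFA: fields towards vertices; uniqueness of fields. -/
def ST_TFA : Prop := ∀ (U : Type) (T : SimpleGraph U), T.IsTree →
  (∀ u0 : U, ∃ N, IsField T N ∧ N u0 = u0) ∧
  (∀ N N', IsField T N → IsField T N' → (∃ u, ∀ k : ℕ, N' (N^[k] u) = N (N^[k] u)) → N = N')

/-- TFB: centers exist and are unique unless two of the points are equal ends. -/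
def ST_TFB : Prop := ∀ (U : Type) (T : SimpleGraph U), T.IsTree → ∀ N₁ N₂ N₃,
  IsField T N₁ → IsField T N₂ → IsField T N₃ →
  (N₁ = N₂ → ∃ u, N₁ u = u) → (N₂ = N₃ → ∃ u, N₂ u = u) → (N₁ = N₃ → ∃ u, N₁ u = u) →
  ∃! c, IsCenter N₁ N₂ N₃ c

/-- TFC: the vertices of `I(N,N')` form a path: any two are joined by following `N` or `N'`;
`I(N,N')` is nonempty unless the two are equal ends. -/
def ST_TFC : Prop := ∀ (U : Type) (T : SimpleGraph U), T.IsTree → ∀ N N',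
  IsField T N → IsField T N' →
  (∀ u w, OnI N N' u → OnI N N' w → ∃ k : ℕ, w = N^[k] u ∨ w = N'^[k] u) ∧
  ((N = N' → ∃ u, N u = u) → ∃ u, OnI N N' u)

/-- TFD: elliptic / hyperbolic automorphisms.  `φ` = the action of a group by orientation
preserving automorphisms. -/
def ST_TFD : Prop := ∀ (G : Type) [Group G] (D : Setup G) (h : G),
  (∀ n : ℕ, 0 < n → Ell D (h ^ n) → Ell D h) ∧
  (¬ Ell D h → ∃ (N M : D.U → D.U) (k : ℕ), IsField D.T N ∧ IsField D.T M ∧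
    (∀ u, N u ≠ u) ∧ (∀ u, M u ≠ u) ∧ (∀ u, N (h • u) = h • N u) ∧ (∀ u, M (h • u) = h • M u) ∧
    0 < k ∧ (∀ u, N u ≠ M u → h • u = N^[k] u) ∧ (∃ u, N u ≠ M u) ∧
    (∀ n : ℕ, 0 < n → ∀ F, IsField D.T F → (∀ u, F (h ^ n • u) = h ^ n • F u) → F = N ∨ F = M))

/-- TFE: finite subgroups are elliptic. -/
def ST_TFE : Prop := ∀ (G : Type) [Group G] (D : Setup G) (S : Subgroup G), Finite S →
  ∃ u : D.U, ∀ g ∈ S, g • u = u

/-- TPOT: a tree has only trivial cocycles. -/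
def ST_TPOT : Prop := ∀ (U : Type) (T : SimpleGraph U), T.IsAcyclic →
  SC T.Adj (fun _ _ _ => False)

/-- INF: no finite-index subgroup of `G` is finite or cyclic; the tree is infinite; both sides of
every edge are nonempty (trivial) and contain translates; edge stabilizers. -/
def ST_INF : Prop := ∀ (G : Type) [Group G] (D : Setup G),
  (∀ S : Subgroup G, FC S → ¬ S.FiniteIndex) ∧
  (∀ (u w : D.U), D.T.Adj u w → ∃ z : G, ¬ IsOfFinOrder z ∧
    stabilizer G u ⊓ stabilizer G w = Subgroup.zpowers z) ∧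
  (stabilizer G D.u0 ⊓ stabilizer G (D.t⁻¹ • D.u0) = Subgroup.zpowers (D.θ D.a)) ∧
  (∀ (g : G) (u w : D.U), D.T.Adj u w → ¬ (g • u = w ∧ g • w = u))

/-- PTS: points can be chosen; ends of commensurable hyperbolic vertices in different orbits can
be chosen equal. -/
def ST_PTS : Prop := ∀ (G : Type) [Group G] (D : Setup G) (K : Cx G),
  Nonempty (Pts D K) ∧
  ∀ v v' : K.V, ¬ EllV D K v → ¬ EllV D K v' → ¬ Fr K v v' →
    (∀ g : G, g • v ≠ v') → ∃ P : Pts D K, P.N v = P.N v'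

/-! ## B. General lemmas on complexes -/

/-- EX: existence of a complex for a finitely presented infinite group -/
def ST_EX : Prop := ∀ (G : Type) [Group G], Infinite G →
  (∃ (n : ℕ) (rels : Set (FreeGroup (Fin n))),
        rels.Finite ∧ Nonempty (PresentedGroup rels ≃* G)) → Nonempty (Cx G)

/-- OPT: optimal complexes exist -/
def ST_OPT : Prop := ∀ (G : Type) [Group G], Nonempty (Cx G) →
  (∃ K : Cx G, Opt K) ∧ ∀ K : Cx G, nn K ≤ 3 * rr K

/-- GBL: general blow-up lemma (1.3), non-equivariant form.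
`cl : V → κ` classes, `ρ : P → κ`, `ss` the trees in the fibres, `U x y p q` the cells,
`dt p p' q` (`p ss p'`) the D-triangles, `lt` the lifted triangles. -/
def ST_GBL : Prop := ∀ (V κ P : Type) (adj : V → V → Prop) (tri : V → V → V → Prop)
  (cl : V → κ) (ρ : P → κ) (ss : P → P → Prop) (U : V → V → P → P → Prop)
  (dt lt : P → P → P → Prop),
  (∀ x y, adj x y → adj y x) → (∀ x y, Relation.ReflTransGen adj x y) → SC adj tri →
  (∀ x y z, tri x y z → adj x y ∧ adj y z ∧ adj x z) → (∀ x y z, tri x y z → tri y z x) →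
  (∀ x y, cl x = cl y → Relation.ReflTransGen (fun p q => adj p q ∧ cl p = cl q) x y) →
  (∀ p, ∃ x, cl x = ρ p) → (∀ x, ∃ p, ρ p = cl x) →
  (∀ p q, ss p q → ss q p) → (∀ p q, ss p q → ρ p = ρ q) →
  (∀ p q, ρ p = ρ q → Relation.ReflTransGen ss p q) → SC ss (fun _ _ _ => False) →
  (∀ x y p q, U x y p q → adj x y ∧ cl x ≠ cl y ∧ ρ p = cl x ∧ ρ q = cl y) →
  (∀ x y, adj x y → cl x ≠ cl y → ∃ p q, U x y p q) →
  (∀ x y p q, U x y p q → U y x q p) →
  (∀ x y p q p' q', U x y p q → U x y p' q' →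
    Relation.ReflTransGen (fun a b : P × P => U x y a.1 a.2 ∧ U x y b.1 b.2 ∧
      ((a.2 = b.2 ∧ ss a.1 b.1 ∧ dt a.1 b.1 a.2) ∨
        (a.1 = b.1 ∧ ss a.2 b.2 ∧ dt a.2 b.2 a.1))) (p, q) (p', q')) →
  (∀ x y z, tri x y z → cl x ≠ cl y → cl y ≠ cl z → cl x ≠ cl z →
    ∃ p q r, U x y p q ∧ U y z q r ∧ U x z p r ∧ lt p q r) →
  (∀ x y z, tri x y z → cl x = cl y → cl y ≠ cl z → ∃ p r, U x z p r ∧ U y z p r) →
  (∀ p q, Relation.ReflTransGen
    (fun p q => ss p q ∨ ∃ x y, U x y p q) p q) ∧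
  SC (fun p q => ss p q ∨ ∃ x y, U x y p q) (fun p q r => dt p q r ∨ lt p q r)

/-- QUO: quotients (1.4). -/
def ST_QUO : Prop := ∀ (G : Type) [Group G] (K : Cx G) (E : K.V → K.V → Prop),
  Equivalence E → (∀ (g : G) x y, E x y → E (g • x) (g • y)) →
  (∀ x y, E x y → Relation.ReflTransGen (fun p q => K.adj p q ∧ E p q) x y) →
  (∃ x y, ¬ E x y) →
  (∀ (x : K.V) (S : Subgroup G), (∀ g, g ∈ S ↔ E x (g • x)) → FC S) →
  ∃ (K' : Cx G) (π : K.V → K'.V), Function.Surjective π ∧ (∀ x y, π x = π y ↔ E x y) ∧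
    (∀ (g : G) x, π (g • x) = g • π x) ∧
    (∀ p q, K'.adj p q ↔ p ≠ q ∧ ∃ x y, K.adj x y ∧ π x = p ∧ π y = q) ∧
    (∀ p q r, K'.tri p q r ↔ p ≠ q ∧ q ≠ r ∧ p ≠ r ∧
      ∃ x y z, K.tri x y z ∧ π x = p ∧ π y = q ∧ π z = r) ∧
    rr K' + oc G {s : Set K.V | ∃ x y z, K.tri x y z ∧ E x y ∧ s = {x, y, z}} ≤ rr K

/-- CON: contraction of an edge `{q,y}` with `q` free (1.4). `H` is the stabilizer of the class
`Q = {y} ∪ H q`. -/
def ST_CON : Prop := ∀ (G : Type) [Group G] (_ : Setup G) (K : Cx G) (q y : K.V) (H : Subgroup G),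
  K.adj q y → stabilizer G q = ⊥ →
  (((∀ g : G, g • q ≠ y) ∧ H = stabilizer G y) ∨ ∃ g0 : G, y = g0 • q ∧ H = Subgroup.zpowers g0) →
  ∃ (K' : Cx G) (π : K.V → K'.V), Function.Surjective π ∧
    (∀ x x', π x = π x' ↔ (x = x' ∨ ∃ g : G,
      (g • x = y ∨ ∃ h ∈ H, g • x = h • q) ∧ (g • x' = y ∨ ∃ h ∈ H, g • x' = h • q))) ∧
    (∀ (g : G) x, π (g • x) = g • π x) ∧
    (∀ p q, K'.adj p q ↔ p ≠ q ∧ ∃ x y, K.adj x y ∧ π x = p ∧ π y = q) ∧
    (∀ p q r, K'.tri p q r ↔ p ≠ q ∧ q ≠ r ∧ p ≠ r ∧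
      ∃ x y z, K.tri x y z ∧ π x = p ∧ π y = q ∧ π z = r) ∧
    stabilizer G (π q) = H ∧
    rr K' + oc G {s : Set K.V | ∃ x y z, K.tri x y z ∧ π x = π y ∧ s = {x, y, z}} ≤ rr K

/-- FV: if `r` is minimal, no free vertex lies in a triangle. -/
def ST_FV : Prop := ∀ (G : Type) [Group G] (_ : Setup G) (K : Cx G), RMin K →
  ∀ x y z, K.tri x y z → stabilizer G x ≠ ⊥

/-- FF: removal of a free face (1.5). -/
def ST_FF : Prop := ∀ (G : Type) [Group G] (_ : Setup G) (K : Cx G) (x y z : K.V), K.tri x y z →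
  (∀ z', K.tri x y z' → z' = z) →
  (∀ g : G, ({g • x, g • y} : Set K.V) ≠ {x, z}) → (∀ g : G, ({g • x, g • y} : Set K.V) ≠ {y, z}) →
  ∃ (K' : Cx G) (i : K'.V → K.V), Sub K' K i ∧ Function.Surjective i ∧
    (∀ p q, K'.adj p q ↔ K.adj (i p) (i q) ∧ ∀ g : G, ({i p, i q} : Set K.V) ≠ {g • x, g • y}) ∧
    (∀ p q r, K'.tri p q r ↔ K.tri (i p) (i q) (i r) ∧
      ∀ g : G, ({i p, i q, i r} : Set K.V) ≠ {g • x, g • y, g • z}) ∧
    rr K' + 1 ≤ rr K

/-- FT: a finite edge lies in finitely many triangles. -/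
def ST_FT : Prop := ∀ (G : Type) [Group G] (K : Cx G) (x y : K.V), K.adj x y →
  Finite ↥(stabilizer G x ⊓ stabilizer G y) → {z | K.tri x y z}.Finite

/-! ## C. Pruning -/

/-- component of `y` in the link of `x` -/
def LC {G : Type} [Group G] (K : Cx G) (x y : K.V) : Set K.V :=
  {y' | Relation.ReflTransGen (fun p q => K.tri x p q) y y'}

def IsCut {G : Type} [Group G] (K : Cx G) (x : K.V) (C : Set K.V) : Prop :=
  ∃ y, K.adj x y ∧ C = LC K x y

/-- the side of the cut `(x,C)` not containing `x` -/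
def B1 {G : Type} [Group G] (K : Cx G) (x : K.V) (C : Set K.V) : Set K.V :=
  {y | ∃ y' ∈ C, Relation.ReflTransGen (fun p q => K.adj p q ∧ p ≠ x ∧ q ≠ x) y' y}

/-- CUT: 2.1. -/
def ST_CUT : Prop := ∀ (G : Type) [Group G] (K : Cx G) (x : K.V) (C : Set K.V), IsCut K x C →
  x ∉ B1 K x C ∧ C ⊆ B1 K x C ∧
  (∀ p q, K.adj p q → p ∉ B1 K x C → q ∈ B1 K x C → p = x ∧ q ∈ C) ∧
  (∀ y, K.adj x y → y ∈ B1 K x C → y ∈ C) ∧
  (∀ p q, p ∈ B1 K x C → q ∈ B1 K x C →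
    Relation.ReflTransGen (fun p q => K.adj p q ∧ p ∈ B1 K x C ∧ q ∈ B1 K x C) p q) ∧
  (∀ p q, p ∉ B1 K x C → q ∉ B1 K x C →
    Relation.ReflTransGen (fun p q => K.adj p q ∧ p ∉ B1 K x C ∧ q ∉ B1 K x C) p q)

/-- the cuts in 𝓔 -/
def InE {G : Type} [Group G] (D : Setup G) (K : Cx G) (x : K.V) (C : Set K.V) : Prop :=
  IsCut K x C ∧ ∀ g : G, g • x = x → g • C = C → Ell D g → IsOfFinOrder g

open Classical in
/-- the big side -/
noncomputable def Big {G : Type} [Group G] (D : Setup G) (K : Cx G) (x : K.V) (C : Set K.V) :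
    Set K.V :=
  if ∀ p : K.V, {n : ℤ | (D.θ D.b) ^ n • p ∉ B1 K x C}.Finite then B1 K x C else (B1 K x C)ᶜ

/-- BIG: 2.4. -/
def ST_BIG : Prop := ∀ (G : Type) [Group G] (D : Setup G) (K : Cx G) (x : K.V) (C : Set K.V),
  InE D K x C →
  (∀ p : K.V, {g : G | D.θ g • p ∉ Big D K x C}.Finite) ∧
  (∀ g : G, Big D K (g • x) (g • C) = g • Big D K x C)

def Bad {G : Type} [Group G] (D : Setup G) (K : Cx G) (p : K.V) : Set (K.V × Set K.V) :=
  {e | InE D K e.1 e.2 ∧ p ∉ Big D K e.1 e.2 ∧ p ≠ e.1}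

/-- BAD: 2.5, 2.6. -/
def ST_BAD : Prop := ∀ (G : Type) [Group G] (D : Setup G) (K : Cx G),
  (∀ p, (Bad D K p).Finite) ∧
  (∀ p x C, (x, C) ∈ Bad D K p → Bad D K x ⊂ Bad D K p)

/-- RET: 2.7, 2.8. -/
def ST_RET : Prop := ∀ (G : Type) [Group G] (D : Setup G) (K : Cx G),
  ∃ ρ : K.V → K.V, (∀ y, Bad D K (ρ y) = ∅) ∧ (∀ y, Bad D K y = ∅ → ρ y = y) ∧
    (∀ (g : G) y, ρ (g • y) = g • ρ y) ∧
    (∀ y y', K.adj y y' → (Bad D K y = ∅ ∧ Bad D K y' = ∅) ∨ ρ y = ρ y') ∧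
    (∀ y, Bad D K y ≠ ∅ → ∃ C, (ρ y, C) ∈ Bad D K y)

/-- PRU: pruning (2.9-2.11). -/
def ST_PRU : Prop := ∀ (G : Type) [Group G] (D : Setup G) (K : Cx G), RMin K →
  ∃ (K' : Cx G) (i : K'.V → K.V) (ρ : K.V → K'.V), Sub K' K i ∧
    (∀ x, ρ (i x) = x) ∧ (∀ (g : G) x, ρ (g • x) = g • ρ x) ∧
    (∀ x y z, K.tri x y z → ∃ x' y' z', i x' = x ∧ i y' = y ∧ i z' = z ∧ K'.tri x' y' z') ∧
    (∀ x y, K.adj (i x) (i y) → K'.adj x y) ∧
    Red D K' ∧ rr K' = rr K ∧ nn K' = nn K ∧ dd K' ≤ dd K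

end Pool.Agent.Helper93.HZ
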