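import Pool.Agent.Helper93.HZ.Res

/-!
# HZ: statements, part 2 (the resolved complex, sections 4 and 5)
-/

set_option autoImplicit false

open MulAction Pointwise

namespace Pool.Agent.Helper93.HZ

/-- THR0: thresholds exist. -/
def ST_THR0 : Prop := ∀ (G : Type) [Group G] (D : Setup G) (K : Cx G) (P : Pts D K),
  Nonempty (Thr D K P)

/-- RSYM: symmetry properties of `aadj`, `atri`. -/
def ST_RSYM : Prop := ∀ (G : Type) [Group G] (D : Setup G) (K : Cx G) (P : Pts D K)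
  (Q : Thr D K P),
  (∀ p q, aadj Q p q → aadj Q q p) ∧ (∀ p, ¬ aadj Q p p) ∧
  (∀ p q r, atri Q p q r → aadj Q p q) ∧ (∀ p q r, atri Q p q r → atri Q q r p) ∧
  (∀ p q r, atri Q p q r → atri Q q p r) ∧
  (∀ (g : G) p q, aadj Q p q → aadj Q (g • p) (g • q)) ∧
  (∀ (g : G) p q r, atri Q p q r → atri Q (g • p) (g • q) (g • r))

/-- RLOC: locations.  Equal tracks lie over the same `T`-edge, and every track with a
neighbour is the track of a crossing edge or of a line. -/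
def ST_RLOC : Prop := ∀ (G : Type) [Group G] (D : Setup G) (K : Cx G) (P : Pts D K)
  (Q : Thr D K P),
  (∀ u w x y u' w' x' y', tk Q (.e u w x y) = tk Q (.e u' w' x' y') →
    ({u, w} : Set D.U) = {u', w'}) ∧
  (∀ u w v u' w' x' y', tk Q (.l u w v) = tk Q (.e u' w' x' y') →
    ({u, w} : Set D.U) = {u', w'}) ∧
  (∀ u w v u' w' v', tk Q (.l u w v) = tk Q (.l u' w' v') → ({u, w} : Set D.U) = {u', w'}) ∧
  (∀ p q, aadj Q p q → (∃ x, EllV D K x ∧ p = Sum.inl x) ∨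
    (∃ x y u w, K.adj x y ∧ D.T.Adj u w ∧ P.N x w = u ∧ P.N y u = w ∧
      p = tk Q (.e u w x y)) ∨
    (∃ v u w, ¬ EllV D K v ∧ Ax P v u w ∧ p = tk Q (.l u w v)))

/-- RFIN -/
def ST_RFIN : Prop := ∀ (G : Type) [Group G] (D : Setup G) (K : Cx G) (P : Pts D K)
  (Q : Thr D K P),
  FinOrb G {p : AV Q × AV Q | aadj Q p.1 p.2} ∧
  FinOrb G {s : Set (AV Q) | ∃ p q r, atri Q p q r ∧ s = {p, q, r}} ∧
  oc G {s : Set (AV Q) | ∃ p q r, atri Q p q r ∧ s = {p, q, r}} ≤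
    oc G {s : Set K.V | ∃ x y z, K.tri x y z ∧
      (∃ c, IsCenter (P.N x) (P.N y) (P.N z) c) ∧ s = {x, y, z}}

/-- RSTAB -/
def ST_RSTAB : Prop := ∀ (G : Type) [Group G] (D : Setup G) (K : Cx G) (P : Pts D K)
  (Q : Thr D K P),
  (∀ p q, aadj Q p q → FC (stabilizer G p)) ∧
  (∀ (τ : Quot (TRel Q)) q, aadj Q (Sum.inr τ) q → ∃ u w, D.T.Adj u w ∧
    stabilizer G (Sum.inr τ : AV Q) ≤ stabilizer G u ⊓ stabilizer G w) ∧
  (∀ x : K.V, stabilizer G (Sum.inl x : AV Q) = stabilizer G x)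

/-- RCON -/
def ST_RCON : Prop := ∀ (G : Type) [Group G] (D : Setup G) (K : Cx G) (P : Pts D K)
  (Q : Thr D K P) (p p' q q' : AV Q), aadj Q p p' → aadj Q q q' →
  Relation.ReflTransGen (aadj Q) p q

/-- POTW: potentials along lines and along the positions of the darts (4.5). `lam v u` is the
value at the position on the line of `v` at `u` on the side of `ξ_v`; `W x y u` the value at
`pos Q x y u`, seen from `x`. -/
def ST_POTW : Prop := ∀ (G : Type) [Group G] (D : Setup G) (K : Cx G) (P : Pts D K)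
  (Q : Thr D K P) (H : Type) [Group H] (c : AV Q → AV Q → H),
  (∀ p q, aadj Q p q → c p q * c q p = 1) →
  ∃ (lam : K.V → D.U → H) (W : K.V → K.V → D.U → H),
    (∀ v u, ¬ EllV D K v → P.N v u ≠ P.M v u →
      lam v (P.M v u) = lam v u * c (tk Q (.l u (P.N v u) v)) (tk Q (.l u (P.M v u) v))) ∧
    (∀ x y u, K.adj x y → (P.N x = P.N y → ∃ u', P.N x u' = u') → OnI (P.N x) (P.N y) u →
      P.N y u ≠ u → W x y (P.N y u) = W x y u * c (pos Q x y u) (pos Q y x u)) ∧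
    (∀ x y u, K.adj x y → P.N x u = u → W x y u = 1) ∧
    (∀ x y (k : ℕ), K.adj x y → Fr K x y → ¬ EllV D K x → P.N x ≠ P.N y →
      W x y ((P.N x)^[k] (Q.Q x y)) = lam x ((P.N x)^[k] (Q.Q x y))) ∧
    (∀ x y u, K.adj x y → ¬ Fr K x y → ¬ EllV D K x → ¬ EllV D K y → P.N x ≠ P.N y →
      P.N x u ≠ P.M x u → W x y u = lam x u)

/-- RSC: (SC) for the resolved complex. -/
def ST_RSC : Prop := ∀ (G : Type) [Group G] (D : Setup G) (K : Cx G) (P : Pts D K)
  (Q : Thr D K P), SC (aadj Q) (atri Q)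

/-- RES: the resolved complex as a `Cx`. -/
def ST_RES : Prop := ∀ (G : Type) [Group G] (D : Setup G) (K : Cx G) (P : Pts D K)
  (Q : Thr D K P), ∃ (K2 : Cx G) (e : K2.V → AV Q), Function.Injective e ∧
    (∀ (g : G) p, e (g • p) = g • e p) ∧ (∀ p, (∃ p', e p' = p) ↔ ∃ q, aadj Q p q) ∧
    (∀ p q, K2.adj p q ↔ aadj Q (e p) (e q)) ∧
    (∀ p q r, K2.tri p q r ↔ atri Q (e p) (e q) (e r)) ∧
    rr K2 ≤ oc G {s : Set K.V | ∃ x y z, K.tri x y z ∧
      (∃ c, IsCenter (P.N x) (P.N y) (P.N z) c) ∧ s = {x, y, z}}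

/-- NDM: (ND), 5.1. -/
def ST_NDM : Prop := ∀ (G : Type) [Group G] (D : Setup G) (K : Cx G) (P : Pts D K),
  Red D K → RMin K → ND D K P

/-- N2: 5.3. -/
def ST_N2 : Prop := ∀ (G : Type) [Group G] (D : Setup G) (K : Cx G) (P : Pts D K)
  (Q : Thr D K P), Red D K → RMin K → ND D K P →
  nn K ≤ oc G {p : AV Q | (∃ q r, atri Q p q r) ∧ Finite (stabilizer G p) ∧ stabilizer G p ≠ ⊥}

end Pool.Agent.Helper93.HZ
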