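import Pool.Agent.Helper93.HZ.Count

/-!
# HZ: statements, part 3 (section 6)
-/

set_option autoImplicit false

open MulAction Pointwise

namespace Pool.Agent.Helper93.HZ

open Ctx

/-- SL: properties (S1)-(S4) of the sets `S_ε(v)`. -/
def ST_SL : Prop := ∀ (G : Type) [Group G] (D : Setup G) (K : Cx G) (P : Pts D K),
  Red D K → RMin K → ND D K P → ∀ (v : K.V) (u w : D.U), ¬ EllV D K v → Ax P v u w →
  Sset P v u w ⊆ Sset P v w (P.N v w) ∧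
  (∀ y, K.adj v y → ¬ Fr K v y → y ∈ Sset P v u w) ∧
  (∀ y, K.adj v y → Fr K v y →
    ∃ k₀ : ℕ, ∀ k ≥ k₀, y ∈ Sset P v ((P.N v)^[k] u) ((P.N v)^[k + 1] u)) ∧
  (∀ y, K.adj v y → Fr K v y →
    ∃ k₀ : ℕ, ∀ k ≥ k₀, y ∉ Sset P v ((P.M v)^[k + 1] u) ((P.M v)^[k] u)) ∧
  (∀ y z, y ∈ Sset P v u w → K.tri v y z → (z ∈ Sset P v u w ↔ P.N z w = u)) ∧
  (∀ (g : G) y, g • y ∈ Sset P (g • v) (g • u) (g • w) ↔ y ∈ Sset P v u w)

/-- THR: good thresholds exist (6.2). -/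
def ST_THR : Prop := ∀ (G : Type) [Group G] (D : Setup G) (K : Cx G) (P : Pts D K),
  Red D K → RMin K → ND D K P → ∃ Q : Thr D K P, Good P Q

/-- CLU: facts on clusters (6.3). -/
def ST_CLU : Prop := ∀ (G : Type) [Group G] (D : Setup G) (K : Cx G) (P : Pts D K),
  ND D K P → ∀ v v' : K.V, ¬ EllV D K v → v' ∈ cl D K v →
  ¬ EllV D K v' ∧ cl D K v' = cl D K v ∧
  ((P.N v' = P.N v ∧ P.M v' = P.M v) ∨ (P.N v' = P.M v ∧ P.M v' = P.N v)) ∧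
  (TF D K v v' → P.N v' = P.M v ∧ P.M v' = P.N v) ∧
  (∀ u w u' w', Ax2 P v u w → Ax2 P v u' w' → FT D K v u w → FT D K v u' w') ∧
  (∀ g : G, g • cl D K v = cl D K (g • v))

/-- HON: honest and deep vertices of a free crossing edge (6.2). -/
def ST_HON : Prop := ∀ (G : Type) [Group G] (X : Ctx G) (x y : X.V), X.FC2 x y →
  (∀ u, OnI (X.P.N x) (X.P.N y) u ↔ (X.Hon x y u ∨ X.Dp x y u ∨ X.Dp y x u)) ∧
  (∀ u, X.Hon x y u → ¬ X.Dp x y u) ∧ (∀ u, X.Dp x y u → ¬ X.Dp y x u) ∧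
  (∀ u, X.Hon x y u ↔ X.Hon y x u) ∧ X.Hon x y (X.Q.Q x y) ∧
  {u | X.Hon x y u}.Finite ∧
  (∀ z c, X.K.tri x y z → IsCenter (X.P.N x) (X.P.N y) (X.P.N z) c → X.Hon x y c) ∧
  (∀ z u, X.K.tri x y z → X.Dp x y u → X.P.N y u = X.P.N z u ∧ X.P.N y u ≠ u ∧
    X.P.N x u ≠ X.P.N y u) ∧
  (∀ u, X.Dp x y u → X.P.N x u ≠ X.P.M x u ∧ X.P.N y u = X.P.M x u) ∧
  (∀ z w, X.K.tri x y z → X.P.N y w = X.P.N z w → X.P.N y w ≠ w → X.P.N x w ≠ X.P.N y w →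
    X.Hon x y w → X.Hon x y (X.P.N y w)) ∧
  (∀ u, X.Hon x y u → X.P.N y u ≠ u → u ≠ X.Q.Q y x → X.Hon x y (X.P.N y u))

/-- LEG: legs.  For a triangle every vertex of `I(x,y)` is the center, in the leg of `x` or in the
leg of `y`. -/
def ST_LEG : Prop := ∀ (G : Type) [Group G] (X : Ctx G) (x y z : X.V), X.K.tri x y z →
  (∃! c, IsCenter (X.P.N x) (X.P.N y) (X.P.N z) c) ∧
  (∀ u, OnI (X.P.N x) (X.P.N y) u → ¬ IsCenter (X.P.N x) (X.P.N y) (X.P.N z) u →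
    ((X.P.N y u = X.P.N z u ∧ X.P.N y u ≠ u ∧ X.P.N x u ≠ X.P.N y u) ∨
      (X.P.N x u = X.P.N z u ∧ X.P.N x u ≠ u ∧ X.P.N y u ≠ X.P.N x u))) ∧
  (∀ u, (X.P.N y u = X.P.N z u ∧ X.P.N y u ≠ u ∧ X.P.N x u ≠ X.P.N y u) →
    OnI (X.P.N x) (X.P.N y) u ∧ ¬ IsCenter (X.P.N x) (X.P.N y) (X.P.N z) u) ∧
  (∀ u w, Cross X.P x y u w → (Cross X.P x z u w ∨ Cross X.P z y u w)) ∧
  (∀ u w, Cross X.P x y u w → Cross X.P x z u w → ¬ Cross X.P z y u w ∧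
    X.P.N y u = X.P.N z u ∧ X.P.N y u ≠ u ∧ X.P.N x u ≠ X.P.N y u)

/-- GRS, GRP: the two graphs satisfy the graph hypotheses. -/
def ST_GRS : Prop := ∀ (G : Type) [Group G] (X : Ctx G), GrH X.BN X.sS X.tS G X.NSs
def ST_GRP : Prop := ∀ (G : Type) [Group G] (X : Ctx G), GrH X.BN X.sP X.tP G X.NPs

/-- CNT: the count of nodes. -/
def ST_CNT : Prop := ∀ (G : Type) [Group G] (X : Ctx G),
  oc G X.NSs = oc G X.NPs + oc G {p : X.V × X.V | X.FC2 p.1 p.2}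

/-- DEL: `∂` is invertible. -/
def ST_DEL : Prop := ∀ (G : Type) [Group G] (X : Ctx G),
  ∃ Φ Ψ : (Band G X → ℝ) →ₗ[ℝ] (Band G X → ℝ), (∀ f, Φ f = X.del f) ∧
    L2Map G X.BN Φ ∧ L2Map G X.BN Ψ ∧
    ∀ b : Band G X → ℝ, (∀ y ∉ X.BN, b y = 0) → Ψ (Φ b) = b ∧ Φ (Ψ b) = b

/-- IDN: 6.6. -/
def ST_IDN : Prop := ∀ (G : Type) [Group G] (X : Ctx G) (b : Band G X → ℝ),
  (∀ y ∉ X.BN, b y = 0) → (∀ n ∈ X.NSs, divR X.BN X.sS X.tS b n = 0) →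
  ∀ n ∈ X.NPs, divR X.BN X.sP X.tP (X.del b) n = 0

/-- KA: 6.9. -/
def ST_KA : Prop := ∀ (G : Type) [Group G] (X : Ctx G),
  oc G {p : AV X.Q × AV X.Q | aadj X.Q p.1 p.2 ∧
      ∀ g : G, g • p.1 = p.1 → g • p.2 = p.2 → g = 1} ≤
    oc G {p : X.V × X.V | X.K.adj p.1 p.2 ∧ Fr X.K p.1 p.2 ∧ X.P.N p.1 = X.P.N p.2} +
      cR X.BN X.sS X.tS G X.NSs

/-- KB: 6.10. `K2` = the resolved complex, `K3` a subcomplex without free vertices. -/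
def ST_KB : Prop := ∀ (G : Type) [Group G] (X : Ctx G) (K2 K3 : Cx G) (e : K2.V → AV X.Q)
  (i : K3.V → K2.V), Function.Injective e → (∀ (g : G) p, e (g • p) = g • e p) →
  (∀ p, (∃ p', e p' = p) ↔ ∃ q, aadj X.Q p q) →
  (∀ p q, K2.adj p q ↔ aadj X.Q (e p) (e q)) →
  Sub K3 K2 i → (∀ x : K3.V, stabilizer G x ≠ ⊥) →
  dd K3 + cR X.BN X.sP X.tP G X.NPs ≤ dd K2

/-- DDS: splitting of the free darts of `K`. -/
def ST_DDS : Prop := ∀ (G : Type) [Group G] (X : Ctx G),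
  dd X.K = oc G {p : X.V × X.V | X.K.adj p.1 p.2 ∧ Fr X.K p.1 p.2 ∧ X.P.N p.1 = X.P.N p.2} +
    oc G {p : X.V × X.V | X.FC2 p.1 p.2}

/-- COR: 6.11. -/
def ST_COR : Prop := ∀ (G : Type) [Group G] (X : Ctx G),
  ∃ (K2 K3 : Cx G) (e : K2.V → AV X.Q) (i : K3.V → K2.V) (ρ : K2.V → K3.V),
    Function.Injective e ∧ (∀ (g : G) p, e (g • p) = g • e p) ∧
    (∀ p, (∃ p', e p' = p) ↔ ∃ q, aadj X.Q p q) ∧
    (∀ p q, K2.adj p q ↔ aadj X.Q (e p) (e q)) ∧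
    (∀ p q r, K2.tri p q r ↔ atri X.Q (e p) (e q) (e r)) ∧
    Sub K3 K2 i ∧ (∀ x, ρ (i x) = x) ∧ (∀ (g : G) x, ρ (g • x) = g • ρ x) ∧
    Red X.D K3 ∧ rr K3 = rr X.K ∧ nn K3 = nn X.K ∧ dd K3 ≤ dd X.K ∧
    (Opt X.K → ∀ z ∈ cycR X.BN X.sP X.tP X.NPs,
      ∃ b ∈ cycR X.BN X.sS X.tS X.NSs, X.del b = z)

/-- KIR: 6.12, the divergence vanishes at every corner side. -/
def ST_KIR : Prop := ∀ (G : Type) [Group G] (X : Ctx G), Opt X.K →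
  ∀ ζ ∈ cycR X.BN X.sP X.tP X.NPs, ∀ (x y : X.V) (u w : X.U), X.FC2 x y → Cross X.P x y u w →
    X.Hon x y u → X.Hon x y w →
    ((∑ᶠ (z) (_ : (⟨x, y, z, u, true⟩ : Band G X) ∈ X.BN), ζ ⟨x, y, z, u, true⟩) -
      ∑ᶠ (z) (_ : (⟨x, z, y, u, true⟩ : Band G X) ∈ X.BN), ζ ⟨x, z, y, u, true⟩ = 0) ∧
    ((∑ᶠ (z) (_ : (⟨y, x, z, w, false⟩ : Band G X) ∈ X.BN), ζ ⟨y, x, z, w, false⟩) -
      ∑ᶠ (z) (_ : (⟨y, z, x, w, false⟩ : Band G X) ∈ X.BN), ζ ⟨y, z, x, w, false⟩ = 0)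

namespace Ctx

variable {G : Type} [Group G] (X : Ctx G)

/-- the arcs of the first copy: direction from tail to head -/
def Y1 : Set (Band G X) := {b | b ∈ X.BN ∧ (b.o = true ↔ X.D.arr b.w (X.P.N b.y b.w))}

/-- nodes of the first copy of the graph of points -/
def NP1 : Set X.NP := {n | n ∈ X.NPs ∧ match n with
  | .inl (_, _, u, w) => X.D.arr u w
  | .inr (_, u, w) => X.D.arr u w}

/-- honest nodes of the first copy -/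
def NH1 : Set (X.V × X.V × X.U × X.U) := {n | (Sum.inl n : X.NP) ∈ X.NP1}

/-- nodes of the split graph: `inl (x,y,u,w)` = `[x|y,{u,w}]`, `ξ_x` on the side of `u` -/
def NQs : Set X.NP := fun n => match n with
  | .inl (x, y, u, w) => X.FC2 x y ∧ Cross X.P x y u w ∧ X.Hon x y u ∧ X.Hon x y w
  | .inr (C, u, w) => X.D.arr u w ∧ ∃ v, C = cl X.D X.K v ∧ ¬ EllV X.D X.K v ∧ Ax2 X.P v u w ∧
      FT X.D X.K v u w

open Classical in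
/-- node of the split graph of the side `{x,y}` at the corner `x`, `u` the outer endpoint -/
noncomputable def spN (x y : X.V) (u w : X.U) : Option X.NP :=
  if Fr X.K x y ∧ X.Hon x y u ∧ X.Hon x y w then some (.inl (x, y, u, w))
  else if ¬ EllV X.D X.K x then
    (if FT X.D X.K x u w then
      (if X.D.arr u w then some (.inr (cl X.D X.K x, u, w))
        else some (.inr (cl X.D X.K x, w, u))) else none)
  else none

noncomputable def sQ (b : Band G X) : Option X.NP := X.spN b.x b.y b.w (X.P.N b.y b.w)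
noncomputable def tQ (b : Band G X) : Option X.NP := X.spN b.x b.z b.w (X.P.N b.y b.w)

/-- component of `y` in `L_x|ε`, `ε = {u,w}`, `ξ_x` on the side of `u` -/
def LCe (x y : X.V) (u w : X.U) : Set X.V :=
  {y' | Relation.ReflTransGen
    (fun p q => X.K.tri x p q ∧ X.P.N p u = w ∧ X.P.N q u = w) y y'}

/-- plain nontrivial free components -/
def IsPl (x : X.V) (u w : X.U) (C : Set X.V) : Prop :=
  X.D.T.Adj u w ∧ X.P.N x w = u ∧ (∃ y, X.K.adj x y ∧ X.P.N y u = w ∧ C = X.LCe x y u w) ∧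
  C.Finite ∧ (∀ y ∈ C, Fr X.K x y) ∧ ∃ y ∈ C, ∃ y' ∈ C, y ≠ y'

/-- exits of a plain component -/
def exP (x : X.V) (u w : X.U) (C : Set X.V) : Set X.V :=
  {y | y ∈ C ∧ ∃ z, X.K.tri x y z ∧ X.P.N z u ≠ w}

/-- cluster components of finite type -/
def IsCl (v : X.V) (u w : X.U) : Prop :=
  ¬ EllV X.D X.K v ∧ Ax2 X.P v u w ∧ FT X.D X.K v u w

/-- exits of a cluster component -/
def exQ (v : X.V) (u w : X.U) : Set (X.V × X.V) :=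
  {p | p.1 ∈ cl X.D X.K v ∧ Fr X.K p.1 p.2 ∧
    ((X.P.N p.1 u = w ∧ p.2 ∈ Sset X.P p.1 u w ∧ ∃ z, X.K.tri p.1 p.2 z ∧ X.P.N z w ≠ u) ∨
     (X.P.N p.1 w = u ∧ p.2 ∈ Sset X.P p.1 w u ∧ ∃ z, X.K.tri p.1 p.2 z ∧ X.P.N z u ≠ w))}

end Ctx

/-- GR1, GRQ: graph hypotheses for the first copy and the split graph. -/
def ST_GR1 : Prop := ∀ (G : Type) [Group G] (X : Ctx G), GrH X.Y1 X.sP X.tP G X.NP1
def ST_GRQ : Prop := ∀ (G : Type) [Group G] (X : Ctx G), GrH X.Y1 X.sQ X.tQ G X.NQs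

/-- SPL: the consequence of 6.12 and 6.7 used in 6.14. -/
def ST_SPL : Prop := ∀ (G : Type) [Group G] (X : Ctx G), Opt X.K →
  oc G X.NH1 ≤ cR X.Y1 X.sQ X.tQ G X.NQs

/-- CMP: the good components of the split graph (6.13).
(1) a good component through `[x|y,ε]` is either plain or contains the cluster node of `x`;
(2) the component of a cluster node; (3) plain components are good and plain;
(4) components without arcs; (5) arcs at a node. -/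
def ST_CMP : Prop := ∀ (G : Type) [Group G] (X : Ctx G),
  (∀ x y u w, (Sum.inl (x, y, u, w) : X.NP) ∈ X.NQs →
    goodR X.Y1 X.sQ X.tQ (.inl (x, y, u, w)) →
      ((X.LCe x y u w).Finite ∧ (∀ y' ∈ X.LCe x y u w, Fr X.K x y') ∧
        compR X.Y1 X.sQ X.tQ (.inl (x, y, u, w)) =
          {n | ∃ y' ∈ X.LCe x y u w, n = .inl (x, y', u, w)}) ∨
      (¬ EllV X.D X.K x ∧ Ax X.P x w u ∧ FT X.D X.K x u w ∧
        ((.inr (cl X.D X.K x, u, w) : X.NP) ∈ compR X.Y1 X.sQ X.tQ (.inl (x, y, u, w)) ∨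
         (.inr (cl X.D X.K x, w, u) : X.NP) ∈ compR X.Y1 X.sQ X.tQ (.inl (x, y, u, w))))) ∧
  (∀ v u w, X.D.arr u w → X.IsCl v u w →
    goodR X.Y1 X.sQ X.tQ (.inr (cl X.D X.K v, u, w)) ∧
    compR X.Y1 X.sQ X.tQ (.inr (cl X.D X.K v, u, w)) =
      {n | n = .inr (cl X.D X.K v, u, w) ∨ ∃ v' y, v' ∈ cl X.D X.K v ∧ Fr X.K v' y ∧
        X.Hon v' y u ∧ X.Hon v' y w ∧
        ((Ax X.P v' u w ∧ y ∈ Sset X.P v' u w ∧ n = .inl (v', y, w, u)) ∨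
         (Ax X.P v' w u ∧ y ∈ Sset X.P v' w u ∧ n = .inl (v', y, u, w)))}) ∧
  (∀ x u w C, X.IsPl x u w C → ∀ y ∈ C, (Sum.inl (x, y, u, w) : X.NP) ∈ X.NQs ∧
    C = X.LCe x y u w ∧ goodR X.Y1 X.sQ X.tQ (.inl (x, y, u, w))) ∧
  (∀ x y u w, (Sum.inl (x, y, u, w) : X.NP) ∈ X.NQs →
    ((∃ b ∈ X.Y1, X.sQ b = some (.inl (x, y, u, w)) ∨ X.tQ b = some (.inl (x, y, u, w))) ↔
      ∃ z, X.K.tri x y z ∧ X.P.N z u = w) ∧
    ((∃ z, X.K.tri x y z ∧ X.P.N z u = w) ∨ (∃ z, X.K.tri x y z ∧ X.P.N z w = u)) ∧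
    ((Sum.inl (y, x, w, u) : X.NP) ∈ X.NQs)) ∧
  (∀ v y u w, ¬ EllV X.D X.K v → Ax X.P v u w → y ∈ Sset X.P v u w → Fr X.K v y →
    (∃ z, X.K.tri v y z ∧ X.P.N z w ≠ u) → X.Hon v y u ∧ X.Hon v y w)

/-- EXT: exit theorem (6.14). -/
def ST_EXT : Prop := ∀ (G : Type) [Group G] (X : Ctx G), Opt X.K →
  (∀ x u w C, X.IsPl x u w C → 2 ≤ (X.exP x u w C).ncard) →
  (∀ v u w, X.IsCl v u w → 2 ≤ (X.exQ v u w).ncard) →
  (∀ x u w C, X.IsPl x u w C → (X.exP x u w C).ncard = 2) ∧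
  (∀ v u w, X.IsCl v u w → (X.exQ v u w).ncard = 2)

end Pool.Agent.Helper93.HZ
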